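import Pool.Agent.SPG.Stmts
import Pool.Agent.DRB.Descq
import Pool.Agent.DRB.Aut1
import Pool.Agent.DRB.AUT2

/-!
# SPG, module REVH: the Hodge relations hold for the de Rham-Betti group
-/

open scoped BigOperators
open Matrix

namespace Pool.Agent.SPG

open Pool.Agent.DRB
open Pool.Agent.SPF (Alg)

noncomputable section

namespace REVH_

/-- the tensor space `V^{⊗ N}(m) ⊕ 1` -/
abbrev tt (N : ℕ) (m : ℤ) : TData := ⟨2, ![N, 0], ![m, 0]⟩

/-- the vector `(f, c)` -/
def emb {ι : Type} {N : ℕ} (m : ℤ) (f : (Fin N → ι) → ℂ) (c : ℂ) : TIdx (tt N m) ι → ℂ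
  | ⟨⟨0, _⟩, p⟩ => f p
  | ⟨⟨1, _⟩, _⟩ => c

/-- the indices of the first slot -/
def i0 {ι : Type} {N : ℕ} (m : ℤ) (p : Fin N → ι) : TIdx (tt N m) ι := ⟨(0 : Fin 2), p⟩

/-- the index of the second slot -/
def i1 {ι : Type} (N : ℕ) (m : ℤ) : TIdx (tt N m) ι := ⟨(1 : Fin 2), fun s : Fin 0 => s.elim0⟩

theorem emb_zero' {ι : Type} {N : ℕ} (m : ℤ) (f : (Fin N → ι) → ℂ) (c : ℂ) (p : Fin N → ι) :
    emb m f c (i0 m p) = f p := rfl

theorem emb_one' {ι : Type} {N : ℕ} (m : ℤ) (f : (Fin N → ι) → ℂ) (c : ℂ) :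
    emb m f c (i1 N m) = c := rfl

theorem fin2 (r : Fin 2) : r = 0 ∨ r = 1 := by omega

theorem forall_tt {ι : Type} {N : ℕ} {m : ℤ} {Q : TIdx (tt N m) ι → Prop}
    (h0 : ∀ p : Fin N → ι, Q (i0 m p)) (h1 : Q (i1 N m)) : ∀ k, Q k := by
  rintro ⟨r, p⟩
  rcases fin2 r with rfl | rfl
  · exact h0 p
  · have : (⟨(1 : Fin 2), p⟩ : TIdx (tt N m) ι) = i1 N m := by
      unfold i1
      congr 1
      exact Subsingleton.elim (α := Fin 0 → ι) _ _
    rw [this]
    exact h1

theorem ext_tt {ι : Type} {N : ℕ} {m : ℤ} {u v : TIdx (tt N m) ι → ℂ}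
    (h0 : ∀ p : Fin N → ι, u (i0 m p) = v (i0 m p))
    (h1 : u (i1 N m) = v (i1 N m)) : u = v :=
  funext (forall_tt (Q := fun k => u k = v k) h0 h1)

theorem TAct_zero {ι : Type} [Fintype ι] {N : ℕ} (m : ℤ) (x : Matrix ι ι ℂ) (ν : ℂ)
    (u : TIdx (tt N m) ι → ℂ) (p : Fin N → ι) :
    TAct (tt N m) x ν u (i0 m p) =
      ν ^ m * ∑ J : Fin N → ι, (∏ s, x (p s) (J s)) * u (i0 m J) := rfl

theorem TAct_one' {ι : Type} [Fintype ι] {N : ℕ} (m : ℤ) (x : Matrix ι ι ℂ) (ν : ℂ)
    (u : TIdx (tt N m) ι → ℂ) :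
    TAct (tt N m) x ν u (i1 N m) = u (i1 N m) := by
  have h : TAct (tt N m) x ν u (i1 N m) =
    ν ^ (0 : ℤ) * ∑ J : Fin 0 → ι, (∏ s : Fin 0, x (s.elim0) (J s)) * u ⟨(1 : Fin 2), J⟩ := rfl
  rw [h, zpow_zero, one_mul, Fintype.sum_unique, Fin.prod_univ_zero, one_mul]
  congr 1

theorem TAct_pure {ι : Type} [Fintype ι] {N : ℕ} (m : ℤ) (x : Matrix ι ι ℂ) (ν : ℂ)
    (w : Fin N → ι → ℂ) (c : ℂ) :
    TAct (tt N m) x ν (emb m (fun J => ∏ s, w s (J s)) c) =
      emb m (fun J => ν ^ m * ∏ s, (x *ᵥ w s) (J s)) c := by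
  classical
  refine ext_tt (fun p => ?_) ?_
  · rw [TAct_zero, emb_zero']
    congr 1
    simp only [emb_zero', Matrix.mulVec, dotProduct]
    rw [Finset.prod_univ_sum, Fintype.piFinset_univ]
    exact Finset.sum_congr rfl fun J _ => by rw [Finset.prod_mul_distrib]
  · rw [TAct_one', emb_one', emb_one']

/-- field automorphisms and the action on tensor spaces -/
theorem map_TAct {ι : Type} [Fintype ι] {N : ℕ} (m : ℤ) (x : Matrix ι ι ℂ) (ν : ℂ)
    (u : TIdx (tt N m) ι → ℂ) (τ : ℂ ≃ₐ[ℚ] ℂ) :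
    (fun k => τ (TAct (tt N m) x ν u k)) = TAct (tt N m) (x.map τ) (τ ν) (fun k => τ (u k)) := by
  funext k
  simp only [TAct_apply, map_mul, map_zpow₀, map_sum, map_prod, Matrix.map_apply]

theorem alg_prod {κ : Type} (s : Finset κ) (f : κ → ℂ) (h : ∀ k ∈ s, Alg (f k)) :
    Alg (∏ k ∈ s, f k) := by
  have : (∏ k ∈ s, f k) ∈ algebraicClosure ℚ ℂ :=
    prod_mem fun k hk => mem_algebraicClosure_iff.2 (h k hk)
  exact mem_algebraicClosure_iff.1 this

theorem alg_of_mem {L : IntermediateField ℚ ℂ} (hL : FiniteDimensional ℚ L) {z : ℂ} (hz : z ∈ L) :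
    Alg z := by
  have h1 : IsAlgebraic ℚ (⟨z, hz⟩ : L) := Algebra.IsAlgebraic.isAlgebraic _
  exact h1.algebraMap (A := ℂ)

theorem alg_of_fixed {z : ℂ} (hz : ∀ τ ∈ GalA, τ z = z) : Alg z := by
  refine aut2_proof z ?_
  refine (Set.countable_singleton z).mono ?_
  rintro w ⟨τ, hτ, rfl⟩
  exact hz τ hτ

theorem map_mulVec' {ι : Type} [Fintype ι] (σ : ℂ ≃ₐ[ℚ] ℂ) (x : Matrix ι ι ℂ) (v : ι → ℂ) :
    (x.map σ) *ᵥ (fun i => σ (v i)) = fun i => σ ((x *ᵥ v) i) := by
  funext i
  simp [Matrix.mulVec, dotProduct, map_sum, map_mul]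

/-- The main step: families of CM components with repetitions. -/
theorem key {g : ℕ} (A : AbVar g) (hPEX : Stmt_PEX) (hPTH : Stmt_PTH)
    (L : IntermediateField ℚ ℂ) (hL : CMSub L) (θ : Set (ℂ ≃ₐ[ℚ] ℂ) → (ℂ ≃ₐ[ℚ] ℂ) → ℂ)
    (hθ : Tab L θ) (hPHOL : Stmt_PHOL) {N : ℕ} (q : Fin N → Matrix (Idx g) (Idx g) ℂ) (m : ℤ)
    (hq : ∀ s, A.IsCM (q s)) (hqL : ∀ s i j, q s i j ∈ L)
    (hH : ∀ σ : ℂ ≃ₐ[ℚ] ℂ, (open Classical in ∑ s, if A.Hol ((q s).map σ) then (1 : ℤ) else 0) = -m)
    (x : GL (Idx g) ℂ) (ν : ℂˣ) (hx : InGdRB A x ν) (z : Fin N → ℂ)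
    (hz : ∀ s, x.val * q s = z s • q s) : (∏ s, z s) * ν.val ^ m = 1 := by
  classical
  have hcol : ∀ s, ∃ j, (q s).col j ≠ 0 := by
    intro s
    by_contra hcon
    push Not at hcon
    apply (hq s).1.2.1
    ext i j
    have := congrFun (hcon j) i
    simpa using this
  choose jj hjj using hcol
  obtain ⟨w, hw⟩ : ∃ w : Fin N → Idx g → ℂ, w = fun s => (q s).col (jj s) := ⟨_, rfl⟩
  have hw0 : ∀ s, w s ≠ 0 := fun s => by rw [hw]; exact hjj s
  have hwL : ∀ s i, w s i ∈ L := fun s i => by rw [hw]; exact hqL s i _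
  have hidem : ∀ s, q s * q s = q s := fun s => (hq s).1.1.2.1
  have hqw : ∀ s, q s *ᵥ w s = w s := by
    intro s
    rw [hw]
    funext i
    have := congrFun (congrFun (hidem s) i) (jj s)
    simpa [Matrix.mulVec, dotProduct, Matrix.mul_apply, Matrix.col] using this
  have hxw : ∀ s, x.val *ᵥ w s = z s • w s := by
    intro s
    rw [← hqw s, Matrix.mulVec_mulVec, hz s, Matrix.smul_mulVec]
  have halgL : ∀ z ∈ L, Alg z := fun z hz => alg_of_mem hL.fin hz
  -- periods
  have hper : ∀ (σ : ℂ ≃ₐ[ℚ] ℂ) (s : Fin N), ∃ (P : ℂ) (a : Idx g → ℂ), (∀ j, Alg (a j)) ∧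
      Alg (P / θ (Psi A (q s)) σ) ∧ (A.per *ᵥ fun j => σ (w s j)) = P • a := by
    intro σ s
    have hcm : A.IsCM ((q s).map σ) := (hPHOL g A (q s) (hq s)).1 σ
    have hv1 : (fun j => σ (w s j)) ≠ 0 := by
      intro h
      apply hw0 s
      funext j
      have := congrFun h j
      simpa using this
    have hv2 : (q s).map σ *ᵥ (fun j => σ (w s j)) = fun j => σ (w s j) := by
      rw [map_mulVec', hqw]
    have hv3 : ∀ j, Alg (σ (w s j)) := fun j => halgL _ (hL.gal σ _ (hwL s j))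
    obtain ⟨P, a, hP, ha, hPa⟩ := (hPEX g A _ hcm).1 _ hv3 hv1 hv2
    refine ⟨P, a, ha, ?_, hPa⟩
    exact (hPTH g A L θ hL hθ (q s) (hq s) (hqL s)).2 σ P ⟨hP, _, a, hv3, ha, hv1, hv2, hPa⟩
  have hTY : ∀ s, LType L (Psi A (q s)) := fun s =>
    (hPTH g A L θ hL hθ (q s) (hq s) (hqL s)).1
  -- the vectors
  obtain ⟨T, hT⟩ : ∃ T : (ℂ ≃ₐ[ℚ] ℂ) → (TIdx (tt N m) (Idx g) → ℂ),
    T = fun σ => emb m (fun J => ∏ s, (fun j => σ (w s j)) (J s)) 0 := ⟨_, rfl⟩
  have hTσ : ∀ σ, T σ = emb m (fun J => ∏ s, (fun (s : Fin N) (j : Idx g) => σ (w s j)) s (J s)) 0 :=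
    fun σ => by rw [hT]
  have hTalg : ∀ σ k, Alg (T σ k) := by
    intro σ
    rw [hTσ]
    refine forall_tt (fun p => ?_) ?_
    · rw [emb_zero']
      exact alg_prod _ _ fun s _ => halgL _ (hL.gal σ _ (hwL s _))
    · rw [emb_one']
      exact isAlgebraic_zero
  have hFalg : ∀ σ k, Alg (TAct (tt N m) A.per tpi (T σ) k) := by
    intro σ
    have hTF : TAct (tt N m) A.per tpi (T σ) =
        emb m (fun J => tpi ^ m * ∏ s, (A.per *ᵥ fun j => σ (w s j)) (J s)) 0 := by
      rw [hTσ]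
      exact TAct_pure m A.per tpi (fun s j => σ (w s j)) 0
    rw [hTF]
    choose P a ha hP hPa using hper σ
    refine forall_tt (fun p => ?_) ?_
    · rw [emb_zero']
      have h1 : ∏ s, (A.per *ᵥ fun j => σ (w s j)) (p s) = (∏ s, P s) * ∏ s, a s (p s) := by
        rw [← Finset.prod_mul_distrib]
        exact Finset.prod_congr rfl fun s _ => by rw [hPa s]; rfl
      rw [h1, ← mul_assoc]
      refine IsAlgebraic.mul ?_ (alg_prod _ _ fun s _ => ha s _)
      have h2 := hθ.add (Fin N) (fun s => Psi A (q s)) (fun _ => 1) (-m) hTY (fun σ => by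
        rw [← hH σ]
        rfl) σ
      have h3 : tpi ^ m * ∏ s, P s =
          (∏ s, P s / θ (Psi A (q s)) σ) * ((∏ s, θ (Psi A (q s)) σ ^ (1 : ℤ)) / tpi ^ (-m)) := by
        have h4 : ∏ s, θ (Psi A (q s)) σ ≠ 0 :=
          Finset.prod_ne_zero_iff.2 fun s _ => hθ.nz _ (hTY s) σ
        simp only [zpow_one]
        rw [Finset.prod_div_distrib, _root_.zpow_neg]
        field_simp
      rw [h3]
      exact (alg_prod _ _ fun s _ => hP s).mul h2
    · rw [emb_one']
      exact isAlgebraic_zero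
  obtain ⟨W, hWdef⟩ : ∃ W : Submodule ℂ (TIdx (tt N m) (Idx g) → ℂ),
    W = Submodule.span ℂ (Set.range T) := ⟨_, rfl⟩
  -- rationality
  have hWrat : RatSpan W := by
    refine descq_proof aut1_proof _ W ?_
    intro σ v hv
    rw [hWdef] at hv ⊢
    induction hv using Submodule.span_induction with
    | mem y hy =>
      obtain ⟨σ', rfl⟩ := hy
      refine Submodule.subset_span ⟨σ'.trans σ, ?_⟩
      rw [hT]
      refine ext_tt (fun p => ?_) ?_
      · simp only [emb_zero', map_prod, AlgEquiv.trans_apply]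
      · simp only [emb_one', map_zero]
    | zero =>
      have : (fun k => σ ((0 : TIdx (tt N m) (Idx g) → ℂ) k)) = 0 := by
        funext k; simp
      rw [this]
      exact Submodule.zero_mem _
    | add y z _ _ hy hz =>
      have : (fun k => σ ((y + z) k)) = (fun k => σ (y k)) + fun k => σ (z k) := by
        funext k; simp
      rw [this]
      exact Submodule.add_mem _ hy hz
    | smul c y _ hy =>
      have : (fun k => σ ((c • y) k)) = σ c • fun k => σ (y k) := by
        funext k; simp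
      rw [this]
      exact Submodule.smul_mem _ _ hy
  -- second coordinate
  have hW1 : ∀ v ∈ W, v (i1 N m) = 0 := by
    intro v hv
    rw [hWdef] at hv
    induction hv using Submodule.span_induction with
    | mem y hy =>
      obtain ⟨σ', rfl⟩ := hy
      rw [hT]
      exact emb_one' _ _ _
    | zero => rfl
    | add y z _ _ hy hz => rw [Pi.add_apply, hy, hz, add_zero]
    | smul c y _ hy => rw [Pi.smul_apply, hy, smul_zero]
  -- conjugates of the comparison isomorphism agree on `W`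
  have hWτ : ∀ τ ∈ GalA, ∀ v ∈ W, TAct (tt N m) (A.per.map τ) (τ tpi) v =
      TAct (tt N m) A.per tpi v := by
    intro τ hτ v hv
    rw [hWdef] at hv
    induction hv using Submodule.span_induction with
    | mem y hy =>
      obtain ⟨σ', rfl⟩ := hy
      have h1 := map_TAct m A.per tpi (T σ') τ
      have h2 : (fun k => τ (T σ' k)) = T σ' := by
        funext k
        exact hτ _ (hTalg σ' k)
      have h3 : (fun k => τ (TAct (tt N m) A.per tpi (T σ') k)) =
          TAct (tt N m) A.per tpi (T σ') := by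
        funext k
        exact hτ _ (hFalg σ' k)
      rw [h2, h3] at h1
      exact h1.symm
    | zero => rw [map_zero, map_zero]
    | add y z _ _ hy hz => rw [map_add, map_add, hy, hz]
    | smul c y _ hy => rw [map_smul, map_smul, hy]
  -- rational vectors of `W` are fixed
  obtain ⟨e, he⟩ : ∃ e : TIdx (tt N m) (Idx g) → ℂ, e = emb m (fun _ => 0) 1 := ⟨_, rfl⟩
  have heT : ∀ (y : Matrix (Idx g) (Idx g) ℂ) (μ : ℂ), TAct (tt N m) y μ e = e := by
    intro y μ
    rw [he]
    refine ext_tt (fun p => ?_) ?_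
    · rw [TAct_zero]
      simp only [emb_zero']
      simp
    · rw [TAct_one']
  have hfix : ∀ α ∈ W, (∀ k, ∃ r : ℚ, α k = r) → TAct (tt N m) x.val ν.val α = α := by
    intro α hα hr
    have hFα : ∀ k, Alg (TAct (tt N m) A.per tpi α k) := by
      intro k
      refine alg_of_fixed fun τ hτ => ?_
      have h1 := congrFun (map_TAct m A.per tpi α τ) k
      have h2 : (fun k => τ (α k)) = α := by
        funext k
        obtain ⟨r, hr⟩ := hr k
        rw [hr]
        simp
      rw [h2, hWτ τ hτ α hα] at h1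
      exact h1
    have hD : IsDRB A (tt N m) (Submodule.span ℂ {α + e}) := by
      refine ⟨?_, ?_⟩
      · refine Submodule.span_mono ?_
        rintro _ rfl
        refine ⟨Submodule.subset_span rfl, ?_⟩
        refine forall_tt (fun p => ?_) ?_
        · obtain ⟨r, hr⟩ := hr (i0 m p)
          refine ⟨r, ?_⟩
          rw [Pi.add_apply, hr, he, emb_zero', add_zero]
        · obtain ⟨r, hr⟩ := hr (i1 N m)
          refine ⟨r + 1, ?_⟩
          rw [Pi.add_apply, hr, he, emb_one']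
          push_cast
          ring
      · rw [Submodule.map_span, Set.image_singleton]
        refine Submodule.span_mono ?_
        rintro _ rfl
        refine ⟨Submodule.subset_span rfl, ?_⟩
        intro k
        have h1 : TAct (tt N m) A.per (2 * Real.pi * Complex.I) (α + e) =
            TAct (tt N m) A.per tpi α + e := by
          rw [map_add, heT]
          rfl
        rw [h1, Pi.add_apply]
        refine IsAlgebraic.add (hFα k) ?_
        rw [he]
        revert k
        refine forall_tt (fun p => ?_) ?_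
        · rw [emb_zero']; exact isAlgebraic_zero
        · rw [emb_one']; exact isAlgebraic_one
    have h := hx _ _ hD
    have h1 : TAct (tt N m) x.val ν.val (α + e) ∈ Submodule.span ℂ {α + e} := by
      rw [← h]
      exact ⟨_, Submodule.subset_span rfl, rfl⟩
    obtain ⟨c, hc⟩ := Submodule.mem_span_singleton.1 h1
    have hc1 : c = 1 := by
      have h2 := congrFun hc (i1 N m)
      rw [TAct_one', Pi.smul_apply, Pi.add_apply, hW1 α hα, he, emb_one'] at h2
      simpa using h2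
    rw [hc1, one_smul, map_add, heT] at hc
    exact (add_right_cancel hc).symm
  have hfixW : ∀ v ∈ W, TAct (tt N m) x.val ν.val v = v := by
    intro v hv
    have h1 : Submodule.span ℂ {v | v ∈ W ∧ ∀ k, ∃ q : ℚ, v k = q} ≤
        LinearMap.eqLocus (TAct (tt N m) x.val ν.val) LinearMap.id :=
      Submodule.span_le.2 fun y hy => hfix y hy.1 hy.2
    exact h1 (hWrat hv)
  -- conclusion
  have hT1 : T (AlgEquiv.refl) = emb m (fun J => ∏ s, w s (J s)) 0 := by
    rw [hT]
    rfl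
  have hTW : T (AlgEquiv.refl) ∈ W := by
    rw [hWdef]
    exact Submodule.subset_span ⟨_, rfl⟩
  have h1 := hfixW _ hTW
  rw [hT1, TAct_pure] at h1
  have hJ : ∀ s, ∃ j, w s j ≠ 0 := by
    intro s
    by_contra hcon
    push Not at hcon
    exact hw0 s (funext hcon)
  choose J hJ using hJ
  have h2 := congrFun h1 (i0 m J)
  rw [emb_zero', emb_zero'] at h2
  have h3 : ∏ s, (x.val *ᵥ w s) (J s) = (∏ s, z s) * ∏ s, w s (J s) := by
    rw [← Finset.prod_mul_distrib]
    exact Finset.prod_congr rfl fun s _ => by rw [hxw s]; rfl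
  have h4 : ∏ s, w s (J s) ≠ 0 := Finset.prod_ne_zero_iff.2 fun s _ => hJ s
  rw [h3, ← mul_assoc] at h2
  have h5 : ν.val ^ m * ∏ s, z s = 1 := mul_right_cancel₀ h4 (by rw [h2, one_mul])
  rw [mul_comm]
  exact h5

/-- The same for an arbitrary finite index set. -/
theorem key' {g : ℕ} (A : AbVar g) (hPEX : Stmt_PEX) (hPTH : Stmt_PTH)
    (L : IntermediateField ℚ ℂ) (hL : CMSub L) (θ : Set (ℂ ≃ₐ[ℚ] ℂ) → (ℂ ≃ₐ[ℚ] ℂ) → ℂ)
    (hθ : Tab L θ) (hPHOL : Stmt_PHOL) {S : Type} [Fintype S]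
    (q : S → Matrix (Idx g) (Idx g) ℂ) (m : ℤ)
    (hq : ∀ s, A.IsCM (q s)) (hqL : ∀ s i j, q s i j ∈ L)
    (hH : ∀ σ : ℂ ≃ₐ[ℚ] ℂ, (open Classical in ∑ s, if A.Hol ((q s).map σ) then (1 : ℤ) else 0) = -m)
    (x : GL (Idx g) ℂ) (ν : ℂˣ) (hx : InGdRB A x ν) (z : S → ℂ)
    (hz : ∀ s, x.val * q s = z s • q s) : (∏ s, z s) * ν.val ^ m = 1 := by
  classical
  obtain ⟨f⟩ : Nonempty (Fin (Fintype.card S) ≃ S) := ⟨(Fintype.equivFin S).symm⟩
  have h := key A hPEX hPTH L hL θ hθ hPHOL (fun i => q (f i)) m (fun i => hq _) (fun i => hqL _)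
    (fun σ => by
      rw [← hH σ]
      exact Equiv.sum_comp f fun s => if A.Hol ((q s).map σ) then (1 : ℤ) else 0)
    x ν hx (fun i => z (f i)) (fun i => hz _)
  rw [Equiv.prod_comp f z] at h
  exact h

end REVH_

open REVH_ in
theorem revh_proof (hLFLD : Stmt_LFLD) (hPHOL : Stmt_PHOL) (hPEX : Stmt_PEX) (hPTH : Stmt_PTH)
    (hTBLC : Stmt_TBLC) (hRev : DRB.Stmt_Rev) (hRos : DRB.Stmt_Ros) (hLeg : DRB.Stmt_Leg) :
    Stmt_REVH := by
  classical
  intro g A x ν hx n m hn y hy
  obtain ⟨hncm, hhw⟩ := hn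
  obtain ⟨L, hL, hLp⟩ := hLFLD g A
  obtain ⟨θ, hθ⟩ := hTBLC L hL
  obtain ⟨hcomm, hsim⟩ := hRev g A x ν hx
  obtain ⟨-, -, hdet, -⟩ := hLeg g A
  have hC : A.Comm x.val := fun α hα => hcomm α hα
  -- the conjugate component
  have hconj : ∀ p, A.IsCM p → ∀ y : ℂ, x.val * p = y • p →
      ∃ y' : ℂ, x.val * cc p = y' • cc p ∧ y * y' = ν.val := by
    intro p hp y hy
    obtain ⟨y', hy'⟩ := (hPHOL g A (cc p) (hPHOL g A p hp).2.1).2.2.2.2 x.val hC
    refine ⟨y', hy', ?_⟩
    have h1 := (hRos g A p hp.1).1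
    have hcc : A.IsCM (cc p) := (hPHOL g A p hp).2.1
    have h2 : cc p * cc p = cc p := hcc.1.1.2.1
    have h3 : pᵀ * (x.valᵀ * A.riem * x.val) * cc p = (y * y') • (A.riem * cc p) := by
      calc pᵀ * (x.valᵀ * A.riem * x.val) * cc p
          = (x.val * p)ᵀ * A.riem * (x.val * cc p) := by
            rw [Matrix.transpose_mul]
            simp only [Matrix.mul_assoc]
        _ = (y • pᵀ) * A.riem * (y' • cc p) := by rw [hy, hy', Matrix.transpose_smul]
        _ = (y * y') • (pᵀ * A.riem * cc p) := by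
            rw [Matrix.smul_mul, Matrix.smul_mul, Matrix.mul_smul, smul_smul]
        _ = _ := by rw [h1, Matrix.mul_assoc, h2]
    have h4 : pᵀ * (x.valᵀ * A.riem * x.val) * cc p = ν.val • (A.riem * cc p) := by
      rw [hsim, Matrix.mul_smul, Matrix.smul_mul, h1, Matrix.mul_assoc, h2]
    rw [h4] at h3
    have h5 : A.riem * cc p ≠ 0 := by
      intro h0
      apply hcc.1.2.1
      have h6 : A.riem⁻¹ * (A.riem * cc p) = 0 := by rw [h0, Matrix.mul_zero]
      rwa [← Matrix.mul_assoc, Matrix.nonsing_inv_mul _ hdet, Matrix.one_mul] at h6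
    have h7 : (ν.val - y * y') • (A.riem * cc p) = 0 := by rw [sub_smul, h3, sub_self]
    rcases smul_eq_zero.1 h7 with h8 | h8
    · exact (sub_eq_zero.1 h8).symm
    · exact absurd h8 h5
  -- nonnegative exponents
  have hex : ∀ p : n.support, ∃ z : ℂ,
      x.val * (if 0 ≤ n p then p.val else cc p.val) = z • (if 0 ≤ n p then p.val else cc p.val) ∧
      y p ^ n p = z ^ (n p).natAbs * ν.val ^ (if 0 ≤ n p then 0 else n p) := by
    intro p
    have hp := hncm p.val p.2
    by_cases h0 : 0 ≤ n p.val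
    · refine ⟨y p.val, ?_, ?_⟩
      · simp only [h0, if_true]
        exact hy p.val p.2
      · simp only [h0, if_true, zpow_zero, mul_one]
        rw [← zpow_natCast, Int.natAbs_of_nonneg h0]
    · obtain ⟨y', h1, h2⟩ := hconj p.val hp (y p.val) (hy p.val p.2)
      refine ⟨y', ?_, ?_⟩
      · simp only [h0, if_false]
        exact h1
      · simp only [h0, if_false]
        have hν : ν.val ≠ 0 := ν.ne_zero
        have hy0 : y p.val ≠ 0 := by
          intro h3
          rw [h3, zero_mul] at h2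
          exact hν h2.symm
        have hy'0 : y' ≠ 0 := by
          intro h3
          rw [h3, mul_zero] at h2
          exact hν h2.symm
        rw [← zpow_natCast, ← h2, mul_zpow]
        have h4 : ((n p.val).natAbs : ℤ) = - n p.val := by omega
        rw [h4, _root_.zpow_neg]
        have h5 : y' ^ n p.val ≠ 0 := zpow_ne_zero _ hy'0
        field_simp
  choose z hz1 hz2 using hex
  obtain ⟨m', hm'⟩ : ∃ m' : ℤ, m' = m + ∑ p : n.support, if 0 ≤ n p then 0 else n p := ⟨_, rfl⟩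
  have hfin := key' A hPEX hPTH L hL θ hθ hPHOL
    (S := Σ p : n.support, Fin (n p).natAbs)
    (fun s => if 0 ≤ n s.1 then s.1.val else cc s.1.val) m' ?_ ?_ ?_ x ν hx
    (fun s => z s.1) (fun s => hz1 s.1)
  · rw [Fintype.prod_sigma] at hfin
    simp only [Finset.prod_const, Finset.card_univ, Fintype.card_fin] at hfin
    rw [hm', zpow_add₀ ν.ne_zero] at hfin
    have h1 : (n.prod fun p k => y p ^ k) = ∏ p : n.support, y p ^ n p := by
      rw [Finsupp.prod]
      exact (Finset.prod_coe_sort n.support fun p => y p ^ n p).symm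
    have h2 : ∀ s : Finset n.support, ν.val ^ (∑ p ∈ s, if 0 ≤ n p then 0 else n p) =
        ∏ p ∈ s, ν.val ^ (if 0 ≤ n p then 0 else n p) := by
      intro s
      induction s using Finset.induction_on with
      | empty => simp
      | insert a s ha ih =>
        rw [Finset.sum_insert ha, Finset.prod_insert ha, zpow_add₀ ν.ne_zero, ih]
    rw [h1, Finset.prod_congr rfl fun p _ => hz2 p, Finset.prod_mul_distrib, ← h2, ← hfin]
    ring
  · intro s
    have hp := hncm s.1.val s.1.2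
    show A.IsCM (if 0 ≤ n s.1 then s.1.val else cc s.1.val)
    split_ifs
    · exact hp
    · exact (hPHOL g A _ hp).2.1
  · intro s
    have hp := hncm s.1.val s.1.2
    refine hLp _ ?_
    show A.IsCM (if 0 ≤ n s.1 then s.1.val else cc s.1.val)
    split_ifs
    · exact hp
    · exact (hPHOL g A _ hp).2.1
  · intro σ
    have h1 := hhw σ
    rw [AbVar.hw, Finsupp.sum] at h1
    rw [← Finset.sum_coe_sort] at h1
    rw [Fintype.sum_sigma]
    simp only [Finset.sum_const, Finset.card_univ, Fintype.card_fin, nsmul_eq_mul]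
    have h2 : ∀ p : n.support,
        ((n p).natAbs : ℤ) * (if A.Hol ((if 0 ≤ n p then p.val else cc p.val).map σ) then 1 else 0) =
        (if A.Hol (p.val.map σ) then n p else 0) - (if 0 ≤ n p then 0 else n p) := by
      intro p
      have hp := hncm p.val p.2
      by_cases h0 : 0 ≤ n p.val
      · simp only [h0, if_true]
        split_ifs <;> omega
      · simp only [h0, if_false]
        have h3 : A.Hol ((cc p.val).map σ) ↔ ¬ A.Hol (p.val.map σ) := by
          rw [(hRos g A _ hp.1).2 σ]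
          exact (hPHOL g A _ ((hPHOL g A _ hp).1 σ)).2.2.1
        by_cases h4 : A.Hol (p.val.map σ)
        · have h5 : ¬ A.Hol ((cc p.val).map σ) := fun h => h3.1 h h4
          simp only [h4, h5, if_true, if_false]
          omega
        · have h5 : A.Hol ((cc p.val).map σ) := h3.2 h4
          simp only [h4, h5, if_true, if_false]
          omega
    rw [Finset.sum_congr rfl fun p _ => h2 p, Finset.sum_sub_distrib, hm']
    linarith

end

end Pool.Agent.SPG
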