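import Pool.Agent.SPG.Stmts
import Pool.Agent.DRB.Defs5
import Pool.Agent.DRB.Sig

open scoped BigOperators Topology
open Matrix

namespace Pool.Agent.SPG

open Pool.Agent.DRB
open Pool.Agent.DRB.SigX

noncomputable section

namespace MU_

variable {g : ℕ} {A : AbVar g}

theorem jm_zero {a b : Idx g → ℂ} (ha : ∀ k, a (Sum.inl k) = 0) (hb : ∀ k, b (Sum.inl k) = 0) :
    a ⬝ᵥ (Jm g *ᵥ b) = 0 := by
  rw [dotProduct, Fintype.sum_sum_type]
  have h1 : ∀ k : Fin g, (Jm g *ᵥ b) (Sum.inr k) = 0 := by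
    intro k
    rw [Matrix.mulVec, dotProduct, Fintype.sum_sum_type]
    have h2 : ∀ l : Fin g, Jm g (Sum.inr k) (Sum.inr l) = 0 := by
      intro l
      simp [Jm]
    simp [h2, hb]
  simp [ha, h1]

theorem riem_zero (hLeg : DRB.Stmt_Leg) {v w : Idx g → ℂ} (hv : v ∈ kk A) (hw : w ∈ kk A) :
    v ⬝ᵥ (A.riem *ᵥ w) = 0 := by
  obtain ⟨-, h1, -, -⟩ := hLeg g A
  have h2 : (A.per *ᵥ v) ⬝ᵥ (Jm g *ᵥ (A.per *ᵥ w)) = tpi * (v ⬝ᵥ (A.riem *ᵥ w)) := by
    have h3 : v ⬝ᵥ ((A.perᵀ * Jm g * A.per) *ᵥ w) = tpi * (v ⬝ᵥ (A.riem *ᵥ w)) := by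
      rw [h1, Matrix.smul_mulVec, dotProduct_smul, smul_eq_mul]
    rw [← h3, ← Matrix.mulVec_mulVec, ← Matrix.mulVec_mulVec, Matrix.dotProduct_mulVec v,
      Matrix.vecMul_transpose]
  rw [jm_zero (fun k => congrFun ((mem_kk A v).1 hv) k) (fun k => congrFun ((mem_kk A w).1 hw) k)] at h2
  exact (mul_eq_zero.1 h2.symm).resolve_left tpi_ne_zero

theorem riem_real (hLeg : DRB.Stmt_Leg) : cc A.riem = A.riem := by
  obtain ⟨h, -, -, -⟩ := hLeg g A
  ext i j
  obtain ⟨n, hn⟩ := h i j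
  simp [cc, hn]

theorem riem_zero' (hLeg : DRB.Stmt_Leg) {v w : Idx g → ℂ} (hv : v ∈ kb A) (hw : w ∈ kb A) :
    v ⬝ᵥ (A.riem *ᵥ w) = 0 := by
  have h1 : cv v ⬝ᵥ (A.riem *ᵥ cv w) = 0 :=
    riem_zero hLeg ((mem_kk A _).2 ((mem_kb A v).1 hv)) ((mem_kk A _).2 ((mem_kb A w).1 hw))
  have h2 : (starRingEnd ℂ) (v ⬝ᵥ (A.riem *ᵥ w)) = cv v ⬝ᵥ (A.riem *ᵥ cv w) := by
    conv_rhs => rw [← riem_real hLeg]
    simp only [dotProduct, Matrix.mulVec, cv, cc, map_sum, map_mul, Matrix.map_apply]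
  rw [h1] at h2
  simpa using h2

theorem mu_kk {z : ℂˣ} {x : GL (Idx g) ℂ} (h : A.IsMu z x) {v : Idx g → ℂ} (hv : v ∈ kk A) :
    x.val *ᵥ v = v := h.h0 v fun k => congrFun ((mem_kk A v).1 hv) k

theorem mu_kb {z : ℂˣ} {x : GL (Idx g) ℂ} (h : A.IsMu z x) {v : Idx g → ℂ} (hv : v ∈ kb A) :
    x.val *ᵥ v = z.val • v := h.h1 v fun k => congrFun ((mem_kb A v).1 hv) k

theorem mu_comm {z : ℂˣ} {x : GL (Idx g) ℂ} (h : A.IsMu z x) : A.Comm x.val := by
  intro α hα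
  have hE : AbVar.toC α ∈ A.EndC := Submodule.subset_span ⟨α, hα, rfl⟩
  have key : ∀ v, (x.val * AbVar.toC α) *ᵥ v = (AbVar.toC α * x.val) *ᵥ v := by
    intro v
    obtain ⟨a, ha, b, hb, rfl⟩ := split A v
    rw [Matrix.mulVec_add, Matrix.mulVec_add, ← Matrix.mulVec_mulVec, ← Matrix.mulVec_mulVec,
      ← Matrix.mulVec_mulVec, ← Matrix.mulVec_mulVec, mu_kk h ha, mu_kb h hb,
      mu_kk h (end_kk A hE ha), mu_kb h (end_kb A hE hb), Matrix.mulVec_smul]
  ext i j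
  have := congrFun (key (Pi.single j 1)) i
  rw [Matrix.mulVec_single_one, Matrix.mulVec_single_one] at this
  exact this

theorem mu_sim (hLeg : DRB.Stmt_Leg) {z : ℂˣ} {x : GL (Idx g) ℂ} (h : A.IsMu z x) :
    x.valᵀ * A.riem * x.val = z.val • A.riem := by
  have key : ∀ v w : Idx g → ℂ, (x.val *ᵥ v) ⬝ᵥ (A.riem *ᵥ (x.val *ᵥ w)) =
      z.val * (v ⬝ᵥ (A.riem *ᵥ w)) := by
    intro v w
    obtain ⟨a, ha, b, hb, rfl⟩ := split A v
    obtain ⟨a', ha', b', hb', rfl⟩ := split A w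
    simp only [Matrix.mulVec_add, mu_kk h ha, mu_kb h hb, mu_kk h ha', mu_kb h hb', add_dotProduct,
      dotProduct_add, Matrix.mulVec_smul, smul_dotProduct, dotProduct_smul, smul_eq_mul,
      riem_zero hLeg ha ha', riem_zero' hLeg hb hb']
    ring
  ext i j
  have h1 := key (Pi.single i 1) (Pi.single j 1)
  have h2 : ∀ M : Matrix (Idx g) (Idx g) ℂ, (Pi.single i 1 : Idx g → ℂ) ⬝ᵥ (M *ᵥ Pi.single j 1) = M i j := by
    intro M
    rw [single_one_dotProduct, Matrix.mulVec_single_one]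
    rfl
  rw [h2] at h1
  have h3 : (x.val *ᵥ Pi.single i 1) ⬝ᵥ (A.riem *ᵥ (x.val *ᵥ Pi.single j 1)) =
      (x.valᵀ * A.riem * x.val) i j := by
    rw [← h2 (x.valᵀ * A.riem * x.val), ← Matrix.mulVec_mulVec, ← Matrix.mulVec_mulVec,
      Matrix.dotProduct_mulVec (Pi.single i 1), Matrix.vecMul_transpose]
  rw [← h3, h1]
  rfl

theorem mu_hodge (hPHOL : Stmt_PHOL) {z : ℂˣ} {x : GL (Idx g) ℂ} (h : A.IsMu z x) :
    A.HodgeRels x z := by
  classical
  intro n m hn y hy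
  obtain ⟨hcm, hw⟩ := hn
  have hz : z.val ≠ 0 := z.ne_zero
  have hy' : ∀ p ∈ n.support, y p = if A.Hol p then z.val else 1 := by
    intro p hp
    have hp0 : p ≠ 0 := (hcm p hp).1.2.1
    have hpp : p * p = p := (hcm p hp).1.1.2.1
    have hpE : p ∈ A.EndC := (hcm p hp).1.1.1
    obtain ⟨j, hj⟩ : ∃ j, p *ᵥ (Pi.single j 1) ≠ 0 := by
      by_contra hcon
      push Not at hcon
      apply hp0
      ext i j
      have := congrFun (hcon j) i
      rw [Matrix.mulVec_single_one] at this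
      exact this
    set w := p *ᵥ (Pi.single j 1 : Idx g → ℂ) with hwdef
    have hpw : p *ᵥ w = w := by
      rw [hwdef, Matrix.mulVec_mulVec, hpp]
    have h3 : x.val *ᵥ w = y p • w := by
      conv_lhs => rw [← hpw]
      rw [Matrix.mulVec_mulVec, hy p hp, Matrix.smul_mulVec, hpw]
    obtain ⟨-, -, h5, h4, -⟩ := hPHOL g A p (hcm p hp)
    obtain ⟨-, -, -, h4c, -⟩ := hPHOL g A (cc p) (hPHOL g A p (hcm p hp)).2.1
    by_cases hH : A.Hol p
    · rw [if_pos hH]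
      have h6 : w ∈ kb A := by
        rw [mem_kb]
        by_contra hcon
        have h7 : cv w ≠ 0 := by
          intro h0
          apply hj
          rw [← cv_cv w, h0, cv_zero]
        have h8 : cc p *ᵥ cv w = cv w := by
          rw [← cv_mulVec, hpw]
        exact (h5.1 ((h4c (cv w) h7 h8).1 hcon)) hH
      have h9 := mu_kb h h6
      rw [h3] at h9
      have h10 : (y p - z.val) • w = 0 := by rw [sub_smul, h9, sub_self]
      exact sub_eq_zero.1 ((smul_eq_zero.1 h10).resolve_right hj)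
    · rw [if_neg hH]
      have h6 : w ∈ kk A := by
        rw [mem_kk]
        by_contra hcon
        exact hH ((h4 w hj hpw).1 hcon)
      have h9 := mu_kk h h6
      rw [h3] at h9
      have h10 : (y p - 1) • w = 0 := by rw [sub_smul, h9, one_smul, sub_self]
      exact sub_eq_zero.1 ((smul_eq_zero.1 h10).resolve_right hj)
  have h1 : (n.prod fun p k => y p ^ k) = z.val ^ (A.hw n (AlgEquiv.refl)) := by
    have hmap : ∀ p : Matrix (Idx g) (Idx g) ℂ, p.map (AlgEquiv.refl : ℂ ≃ₐ[ℚ] ℂ) = p := by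
      intro p
      ext i j
      rfl
    unfold AbVar.hw Finsupp.prod Finsupp.sum
    have key : ∀ t : Finset (Matrix (Idx g) (Idx g) ℂ), t ⊆ n.support →
        ∏ p ∈ t, y p ^ n p = z.val ^ (∑ p ∈ t, if A.Hol (p.map (AlgEquiv.refl : ℂ ≃ₐ[ℚ] ℂ)) then n p
          else 0) := by
      intro t
      induction t using Finset.induction_on with
      | empty => intro _; simp
      | insert p t hp ih =>
        intro ht
        rw [Finset.prod_insert hp, Finset.sum_insert hp, zpow_add₀ hz,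
          ih fun q hq => ht (Finset.mem_insert_of_mem hq), hy' p (ht (Finset.mem_insert_self p t)),
          hmap]
        congr 1
        by_cases hH : A.Hol p
        · rw [if_pos hH, if_pos hH]
        · rw [if_neg hH, if_neg hH, _root_.one_zpow, _root_.zpow_zero]
    exact key n.support (Finset.Subset.refl _)
  rw [h1, ← zpow_add₀ hz, hw, _root_.zpow_zero]

end MU_

open MU_ in
theorem main5_proof (hMain : MainStatement4) (hPHOL : Stmt_PHOL) (hLeg : DRB.Stmt_Leg) :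
    MainStatement5 := by
  intro g A hA
  refine ⟨hMain g A hA, fun t D hD => ⟨hD.1, fun z x hx => ?_⟩⟩
  exact (hMain g A hA x z).2 ⟨mu_comm hx, mu_sim hLeg hx, mu_hodge hPHOL hx⟩ t D hD

end

end Pool.Agent.SPG
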