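import Pool.Agent.DRB.Defs4
import Pool.Agent.DRB.Stmts3
import Pool.Agent.SPF.StmtsE

/-!
# De Rham-Betti conjecture for CM abelian varieties: from Shimura's period relations to the theorem

Exact statements of the modules.  Recipes: /team-store/MP_470b79_SPG.md
-/

open scoped BigOperators Topology
open Matrix

namespace Pool.Agent.SPG

open Pool.Agent.DRB
open Pool.Agent.SPF (Alg CMF IsType cj zT IsPStr SympBasis SS TT SDat IsTh)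

noncomputable section

/-! ## Level E : the period table of a CM field -/

/-- The value of the period symbol at an arbitrary embedding. -/
def ext {E : Type} [Field E] [NumberField E] (Φ : Finset (E →+* ℂ)) (c : (E →+* ℂ) → ℂ) (φ : E →+* ℂ) : ℂ :=
  open Classical in if φ ∈ Φ then c φ else tpi / c (cj φ)

/-- The period table of a CM field. -/
structure TabE (E : Type) [Field E] [NumberField E] (K : CMF E)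
    (Θ : Finset (E →+* ℂ) → (E →+* ℂ) → ℂ) : Prop where
  nz : ∀ Φ, IsType Φ → ∀ φ, Θ Φ φ ≠ 0
  con : ∀ Φ, IsType Φ → ∀ φ, Alg (Θ Φ φ * Θ Φ (cj φ) / tpi)
  twi : ∀ Φ Φ', IsType Φ → (∀ φ, φ ∈ Φ' ↔ φ ∉ Φ) → ∀ φ, Alg (Θ Φ φ * Θ Φ' φ / tpi)
  four : open Classical in ∀ Φ₁ Φ₂ Φ₃ Φ₄, IsType Φ₁ → IsType Φ₂ → IsType Φ₃ → IsType Φ₄ →
    (∀ φ, (if φ ∈ Φ₁ then 1 else 0) + (if φ ∈ Φ₂ then 1 else 0) =
      (if φ ∈ Φ₃ then 1 else 0) + (if φ ∈ Φ₄ then (1 : ℕ) else 0)) →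
    ∀ φ, Alg (Θ Φ₁ φ * Θ Φ₂ φ / (Θ Φ₃ φ * Θ Φ₄ φ))
  dat : ∀ Φ, IsType Φ → ∃ (ξ : E) (c : (E →+* ℂ) → ℂ), K.S ξ Φ c ∧ ∀ φ, Θ Φ φ = ext Φ c φ

/-- TAB1. -/
def Stmt_TAB1 : Prop :=
  ∀ (E : Type) [Field E] [NumberField E] (K : CMF E), (∃ θ : E, θ ^ 2 = -1) →
    (∃ θ : E, θ ^ 2 = -3) → ∃ Θ, TabE E K Θ

/-- ADDE. All relations between the types. -/
def Stmt_ADDE : Prop :=
  ∀ (E : Type) [Field E] [NumberField E] (K : CMF E) (Θ : Finset (E →+* ℂ) → (E →+* ℂ) → ℂ),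
    TabE E K Θ → ∀ (κ : Type) [Fintype κ] (Φ : κ → Finset (E →+* ℂ)) (a : κ → ℤ) (s : ℤ),
      (∀ k, IsType (Φ k)) → (∀ φ, (open Classical in ∑ k, if φ ∈ Φ k then a k else 0) = s) →
      ∀ φ, Alg ((∏ k, Θ (Φ k) φ ^ a k) / tpi ^ s)

/-- ABV2. The abelian variety with `H_1 = E × E` and CM types `Φ, Φ'`. -/
def Stmt_ABV2 : Prop :=
  ∀ (E : Type) [Field E] [NumberField E] (K : CMF E) (Φ Φ' : Finset (E →+* ℂ)) (ξ ξ' : E)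
    (c c' : (E →+* ℂ) → ℂ), IsType Φ → IsType Φ' → K.S ξ Φ c → K.S ξ' Φ' c' →
    ∃ (g : ℕ) (A : AbVar g) (β : Module.Basis (Idx g) ℚ (E × E)),
      (∀ (φ : E →+* ℂ) (v : Idx g → ℂ), (∑ k, v k * φ (β k).1 = 1) →
        (∀ ψ : E →+* ℂ, ψ ≠ φ → ∑ k, v k * ψ (β k).1 = 0) → (∀ ψ : E →+* ℂ, ∑ k, v k * ψ (β k).2 = 0) →
        ∃ a : Idx g → ℂ, (∀ j, Alg (a j)) ∧ A.per *ᵥ v = ext Φ c φ • a ∧ (φ ∈ Φ ↔ pr a ≠ 0)) ∧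
      (∀ (φ : E →+* ℂ) (v : Idx g → ℂ), (∑ k, v k * φ (β k).2 = 1) →
        (∀ ψ : E →+* ℂ, ψ ≠ φ → ∑ k, v k * ψ (β k).2 = 0) → (∀ ψ : E →+* ℂ, ∑ k, v k * ψ (β k).1 = 0) →
        ∃ a : Idx g → ℂ, (∀ j, Alg (a j)) ∧ A.per *ᵥ v = ext Φ' c' φ • a ∧ (φ ∈ Φ' ↔ pr a ≠ 0))

/-- T3. Different types have different periods. -/
def Stmt_T3 : Prop :=
  ∀ (E : Type) [Field E] [NumberField E] (K : CMF E) (Φ Φ' : Finset (E →+* ℂ)) (ξ ξ' : E)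
    (c c' : (E →+* ℂ) → ℂ), IsType Φ → IsType Φ' → K.S ξ Φ c → K.S ξ' Φ' c' →
    (∀ φ, Alg (ext Φ c φ / ext Φ' c' φ)) → Φ = Φ'

/-- CMP. Comparison of the period symbol with the periods of an abelian variety. -/
def Stmt_CMP : Prop :=
  ∀ (E : Type) [Field E] [NumberField E] (K : CMF E) (Φ : Finset (E →+* ℂ)) (ξ : E)
    (c : (E →+* ℂ) → ℂ), IsType Φ → K.S ξ Φ c →
    ∀ (g : ℕ) (A : AbVar g) (u a : (E →+* ℂ) → Idx g → ℂ) (P : (E →+* ℂ) → ℂ),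
      (∀ (x : E) (j : Idx g), ∃ r : ℚ, ∑ φ : E →+* ℂ, φ x * u φ j = r) →
      (∀ φ, P φ ≠ 0) → (∀ φ j, Alg (a φ j)) → (∀ φ, A.per *ᵥ u φ = P φ • a φ) →
      (∀ φ, φ ∈ Φ ↔ pr (a φ) ≠ 0) → ∀ φ ∈ Φ, Alg (P φ / c φ)

/-! ## Level L : CM subfields of the complex numbers -/

/-- complex conjugation -/
def conjE : ℂ ≃ₐ[ℚ] ℂ := Complex.conjAe.restrictScalars ℚ

/-- A Galois CM field `L` inside `ℂ`, containing `i` and `√-3`. -/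
structure CMSub (L : IntermediateField ℚ ℂ) : Prop where
  fin : FiniteDimensional ℚ L
  gal : ∀ σ : ℂ ≃ₐ[ℚ] ℂ, ∀ z ∈ L, σ z ∈ L
  cm : ∀ σ : ℂ ≃ₐ[ℚ] ℂ, ∀ z ∈ L, σ ((starRingEnd ℂ) z) = (starRingEnd ℂ) (σ z)
  i : Complex.I ∈ L
  w : (Real.sqrt 3 : ℂ) * Complex.I ∈ L

/-- A CM type of `L`, as a set of automorphisms of `ℂ`. -/
structure LType (L : IntermediateField ℚ ℂ) (Ψ : Set (ℂ ≃ₐ[ℚ] ℂ)) : Prop where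
  res : ∀ σ τ : ℂ ≃ₐ[ℚ] ℂ, (∀ z ∈ L, σ z = τ z) → (σ ∈ Ψ ↔ τ ∈ Ψ)
  odd : ∀ σ : ℂ ≃ₐ[ℚ] ℂ, σ ∈ Ψ ↔ σ.trans conjE ∉ Ψ

/-- The period table of `L`. -/
structure Tab (L : IntermediateField ℚ ℂ) (θ : Set (ℂ ≃ₐ[ℚ] ℂ) → (ℂ ≃ₐ[ℚ] ℂ) → ℂ) : Prop where
  nz : ∀ Ψ, LType L Ψ → ∀ σ, θ Ψ σ ≠ 0
  con : ∀ Ψ, LType L Ψ → ∀ σ : ℂ ≃ₐ[ℚ] ℂ, Alg (θ Ψ σ * θ Ψ (σ.trans conjE) / tpi)
  add : ∀ (κ : Type) [Fintype κ] (Ψ : κ → Set (ℂ ≃ₐ[ℚ] ℂ)) (a : κ → ℤ) (s : ℤ),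
    (∀ k, LType L (Ψ k)) → (∀ σ, (open Classical in ∑ k, if σ ∈ Ψ k then a k else 0) = s) →
    ∀ σ, Alg ((∏ k, θ (Ψ k) σ ^ a k) / tpi ^ s)
  uniq : ∀ Ψ Ψ', LType L Ψ → LType L Ψ' → (∀ σ, Alg (θ Ψ σ / θ Ψ' σ)) → Ψ = Ψ'
  cmp : ∀ Ψ, LType L Ψ → ∀ (g : ℕ) (A : AbVar g) (w : Idx g → ℂ) (P : (ℂ ≃ₐ[ℚ] ℂ) → ℂ)
    (a : (ℂ ≃ₐ[ℚ] ℂ) → Idx g → ℂ), (∀ j, w j ∈ L) → (∀ σ, P σ ≠ 0) → (∀ σ j, Alg (a σ j)) →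
    (∀ σ : ℂ ≃ₐ[ℚ] ℂ, (A.per *ᵥ fun j => σ (w j)) = P σ • a σ) → (∀ σ, σ ∈ Ψ ↔ pr (a σ) ≠ 0) →
    ∀ σ ∈ Ψ, Alg (P σ / θ Ψ σ)

/-- EXTA. Embeddings of `L` extend to automorphisms of `ℂ`. -/
def Stmt_EXTA : Prop :=
  ∀ (L : IntermediateField ℚ ℂ), FiniteDimensional ℚ L → ∀ φ : L →+* ℂ,
    ∃ σ : ℂ ≃ₐ[ℚ] ℂ, ∀ z : L, σ z = φ z

/-- TBLC. -/
def Stmt_TBLC : Prop := ∀ L, CMSub L → ∃ θ, Tab L θ

/-! ## Level A : abelian varieties -/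

/-- LFLD. The field of definition of the CM components. -/
def Stmt_LFLD : Prop :=
  ∀ (g : ℕ) (A : AbVar g), ∃ L : IntermediateField ℚ ℂ, CMSub L ∧
    ∀ p, A.IsCM p → ∀ i j, p i j ∈ L

/-- PHOL. Galois action, purity and types of the CM components. -/
def Stmt_PHOL : Prop :=
  ∀ (g : ℕ) (A : AbVar g) (p : Matrix (Idx g) (Idx g) ℂ), A.IsCM p →
    (∀ σ : ℂ ≃ₐ[ℚ] ℂ, A.IsCM (p.map σ)) ∧ A.IsCM (cc p) ∧ (A.Hol (cc p) ↔ ¬ A.Hol p) ∧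
    (∀ v, v ≠ 0 → p *ᵥ v = v → (pr (A.per *ᵥ v) ≠ 0 ↔ A.Hol p)) ∧
    ∀ x, A.Comm x → ∃ y : ℂ, x * p = y • p

/-- `P` is the period of the CM component `p`. -/
def IsPer {g : ℕ} (A : AbVar g) (p : Matrix (Idx g) (Idx g) ℂ) (P : ℂ) : Prop :=
  P ≠ 0 ∧ ∃ v a : Idx g → ℂ, (∀ j, Alg (v j)) ∧ (∀ j, Alg (a j)) ∧ v ≠ 0 ∧ p *ᵥ v = v ∧
    A.per *ᵥ v = P • a

/-- PEX. Existence and uniqueness of the period, relation with the conjugate component. -/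
def Stmt_PEX : Prop :=
  ∀ (g : ℕ) (A : AbVar g) (p : Matrix (Idx g) (Idx g) ℂ), A.IsCM p →
    (∀ v : Idx g → ℂ, (∀ j, Alg (v j)) → v ≠ 0 → p *ᵥ v = v →
      ∃ (P : ℂ) (a : Idx g → ℂ), P ≠ 0 ∧ (∀ j, Alg (a j)) ∧ A.per *ᵥ v = P • a) ∧
    (∃ P, IsPer A p P) ∧ (∀ P P', IsPer A p P → IsPer A p P' → Alg (P / P')) ∧
    ∀ P P', IsPer A p P → IsPer A (cc p) P' → Alg (P * P' / tpi)

/-- TRL. Relations between characters of `Γ` give algebraic monomials in the periods. -/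
def Stmt_TRL : Prop :=
  ∀ (g : ℕ) (A : AbVar g) (n : Matrix (Idx g) (Idx g) ℂ →₀ ℤ) (m : ℤ), (∀ p ∈ n.support, A.IsCM p) →
    (∀ q ∈ Gam A, ∃ N : ℕ, 1 ≤ N ∧ ∀ y : Matrix (Idx g) (Idx g) ℂ → ℂ,
      (∀ p ∈ n.support, q.1.val * p = y p • p) →
        ((n.prod fun p k => y p ^ k) * q.2.val ^ m) ^ N = 1) →
    ∀ P : Matrix (Idx g) (Idx g) ℂ → ℂ, (∀ p, A.IsCM p → IsPer A p (P p)) →
      ∀ σ : ℂ ≃ₐ[ℚ] ℂ, Alg ((n.prod fun p k => P (p.map σ) ^ k) * tpi ^ m)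

/-- The type of a component. -/
def Psi {g : ℕ} (A : AbVar g) (p : Matrix (Idx g) (Idx g) ℂ) : Set (ℂ ≃ₐ[ℚ] ℂ) :=
  {σ | A.Hol (p.map σ)}

/-- PTH. The periods of the CM components. -/
def Stmt_PTH : Prop :=
  ∀ (g : ℕ) (A : AbVar g) (L : IntermediateField ℚ ℂ) (θ : Set (ℂ ≃ₐ[ℚ] ℂ) → (ℂ ≃ₐ[ℚ] ℂ) → ℂ),
    CMSub L → Tab L θ → ∀ p, A.IsCM p → (∀ i j, p i j ∈ L) →
      LType L (Psi A p) ∧ ∀ (σ : ℂ ≃ₐ[ℚ] ℂ) (P : ℂ), IsPer A (p.map σ) P → Alg (P / θ (Psi A p) σ)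

/-- H54B. Relations between the CM characters of `Γ` are Hodge relations. -/
def Stmt_H54B : Prop :=
  ∀ (g : ℕ) (A : AbVar g), A.Trit → ∀ (n : Matrix (Idx g) (Idx g) ℂ →₀ ℤ) (m : ℤ),
    (∀ p ∈ n.support, A.IsCM p) →
    (∀ q ∈ Gam A, ∃ N : ℕ, 1 ≤ N ∧ ∀ y : Matrix (Idx g) (Idx g) ℂ → ℂ,
      (∀ p ∈ n.support, q.1.val * p = y p • p) →
        ((n.prod fun p k => y p ^ k) * q.2.val ^ m) ^ N = 1) →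
    A.IsHodgeChar n m

/-- AB4. The condition `Trit` holds for abelian CM fields. -/
def Stmt_AB4 : Prop := ∀ (g : ℕ) (A : AbVar g), A.AbCM → A.Trit

/-- LNK4. -/
def Stmt_LNK4 : Prop :=
  ∀ (g : ℕ) (A : AbVar g), A.Rank2CM → ∀ (d : Dec A) (i j : Fin d.k), d.m i = 2 → d.m j = 2 → i ≠ j →
    d.p j ≠ cc (d.p i) →
    ∀ P : Matrix (Fin (d.m i)) (Fin (d.m j)) ℂ, P ≠ 0 →
      ∃ q ∈ Gam A, ∀ a : ℂ, d.X q.1.val i * P * d.X (q.1⁻¹).val j ≠ a • P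

/-- H54A. Relations between determinants are even on the components of multiplicity two. -/
def Stmt_H54A : Prop :=
  ∀ (g : ℕ) (A : AbVar g), A.Rank2CM → ∀ (d : Dec A) (n : Fin d.k → ℤ) (M : ℤ),
    (∀ i, cc (d.p i) = d.p i → n i = 0) →
    (∀ q ∈ Gam A, ∃ N : ℕ, 1 ≤ N ∧ ((∏ i, (d.X q.1.val i).det ^ n i) * q.2.val ^ M) ^ N = 1) →
    ∀ i j, d.p j = cc (d.p i) → d.m i = 2 → n j = n i

/-- REVH. The Hodge relations hold for the de Rham-Betti group. -/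
def Stmt_REVH : Prop :=
  ∀ (g : ℕ) (A : AbVar g) (x : GL (Idx g) ℂ) (ν : ℂˣ), InGdRB A x ν → A.HodgeRels x ν

end

end Pool.Agent.SPG
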