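import Pool.Agent.SPG.Stmts
import Pool.Agent.SPR.KeyTrick

open scoped BigOperators Topology
open Matrix

namespace Pool.Agent.SPG

open Pool.Agent.DRB

noncomputable section

namespace AB4_

variable {g : ℕ} (A : AbVar g)

/-- the CM components -/
abbrev CC : Type := {p : Matrix (Idx g) (Idx g) ℂ // A.IsCM p}

theorem map_map (p : Matrix (Idx g) (Idx g) ℂ) (σ τ : ℂ ≃ₐ[ℚ] ℂ) :
    p.map (σ * τ) = (p.map τ).map σ := by
  ext i j
  rfl

theorem map_one (p : Matrix (Idx g) (Idx g) ℂ) : p.map (1 : ℂ ≃ₐ[ℚ] ℂ) = p := by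
  ext i j
  rfl

variable {A}

/-- the action on the components -/
def rho (h : ∀ p, A.IsCM p → ∀ σ : ℂ ≃ₐ[ℚ] ℂ, A.IsCM (p.map σ)) :
    (ℂ ≃ₐ[ℚ] ℂ) →* Equiv.Perm (CC A) where
  toFun σ :=
    { toFun := fun p => ⟨p.1.map σ, h p.1 p.2 σ⟩
      invFun := fun p => ⟨p.1.map (σ⁻¹ : ℂ ≃ₐ[ℚ] ℂ), h p.1 p.2 _⟩
      left_inv := fun p => by
        apply Subtype.ext
        show (p.1.map σ).map (σ⁻¹ : ℂ ≃ₐ[ℚ] ℂ) = p.1
        rw [← map_map, inv_mul_cancel, map_one]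
      right_inv := fun p => by
        apply Subtype.ext
        show (p.1.map (σ⁻¹ : ℂ ≃ₐ[ℚ] ℂ)).map σ = p.1
        rw [← map_map, mul_inv_cancel, map_one] }
  map_one' := by
    apply Equiv.ext
    intro p
    apply Subtype.ext
    exact map_one p.1
  map_mul' σ τ := by
    apply Equiv.ext
    intro p
    apply Subtype.ext
    exact map_map p.1 σ τ

/-- sign of a component -/
def sgn (x : Equiv.Perm (CC A)) (p : Matrix (Idx g) (Idx g) ℂ) : ℤ :=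
  open Classical in if ∃ h : A.IsCM p, A.Hol (x ⟨p, h⟩).1 then 1 else -1

/-- the type function on the group -/
def FF (n : Matrix (Idx g) (Idx g) ℂ →₀ ℤ) (x : Equiv.Perm (CC A)) : ℤ :=
  n.sum fun p k => k * sgn x p

theorem FF_zero (x : Equiv.Perm (CC A)) : FF (0 : Matrix (Idx g) (Idx g) ℂ →₀ ℤ) x = 0 := by
  unfold FF
  exact Finsupp.sum_zero_index

theorem FF_add (n m : Matrix (Idx g) (Idx g) ℂ →₀ ℤ) (x : Equiv.Perm (CC A)) :
    FF (n + m) x = FF n x + FF m x := by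
  unfold FF
  exact Finsupp.sum_add_index' (fun p => by ring) (fun p a b => by ring)

theorem typ_eq (h : ∀ p, A.IsCM p → ∀ σ : ℂ ≃ₐ[ℚ] ℂ, A.IsCM (p.map σ))
    (n : Matrix (Idx g) (Idx g) ℂ →₀ ℤ) (hn : ∀ p ∈ n.support, A.IsCM p) (σ : ℂ ≃ₐ[ℚ] ℂ) :
    A.typ n σ = FF n (rho h σ) := by
  classical
  unfold AbVar.typ FF
  refine Finsupp.sum_congr fun p hp => ?_
  unfold sgn
  have hcm := hn p hp
  by_cases hH : A.Hol (p.map σ)
  · have h1 : ∃ h' : A.IsCM p, A.Hol (rho h σ ⟨p, h'⟩).1 := ⟨hcm, hH⟩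
    rw [if_pos hH, if_pos h1, mul_one]
  · have h1 : ¬ ∃ h' : A.IsCM p, A.Hol (rho h σ ⟨p, h'⟩).1 := by
      rintro ⟨_, h2⟩
      exact hH h2
    rw [if_neg hH, if_neg h1]
    ring

theorem sgn_comp (x y : Equiv.Perm (CC A)) (p : CC A) :
    sgn (x * y) p.1 = sgn x (y p).1 := by
  classical
  unfold sgn
  by_cases hH : A.Hol (x (y p)).1
  · have h1 : ∃ h' : A.IsCM p.1, A.Hol ((x * y) ⟨p.1, h'⟩).1 := ⟨p.2, hH⟩
    have h2 : ∃ h' : A.IsCM (y p).1, A.Hol (x ⟨(y p).1, h'⟩).1 := ⟨(y p).2, hH⟩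
    rw [if_pos h1, if_pos h2]
  · have h1 : ¬ ∃ h' : A.IsCM p.1, A.Hol ((x * y) ⟨p.1, h'⟩).1 := by
      rintro ⟨_, h3⟩
      exact hH h3
    have h2 : ¬ ∃ h' : A.IsCM (y p).1, A.Hol (x ⟨(y p).1, h'⟩).1 := by
      rintro ⟨_, h3⟩
      exact hH h3
    rw [if_neg h1, if_neg h2]

theorem FF_map (h : ∀ p, A.IsCM p → ∀ σ : ℂ ≃ₐ[ℚ] ℂ, A.IsCM (p.map σ))
    (n : Matrix (Idx g) (Idx g) ℂ →₀ ℤ) (hn : ∀ p ∈ n.support, A.IsCM p) (σ : ℂ ≃ₐ[ℚ] ℂ)
    (x : Equiv.Perm (CC A)) :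
    FF (n.mapDomain fun p => p.map σ) x = FF n (x * rho h σ) := by
  unfold FF
  rw [Finsupp.sum_mapDomain_index (fun p => by ring) (fun p a b => by ring)]
  refine Finsupp.sum_congr fun p hp => ?_
  have h1 := sgn_comp x (rho h σ) ⟨p, hn p hp⟩
  show n p * sgn x (p.map σ) = n p * sgn (x * rho h σ) p
  rw [h1]
  rfl

end AB4_

open AB4_ in
theorem ab4_proof (h1 : Stmt_PHOL) (h2 : Stmt_Dec) : Stmt_AB4 := by
  classical
  intro g A hab R hR hst hex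
  have hcm : ∀ p, A.IsCM p → ∀ σ : ℂ ≃ₐ[ℚ] ℂ, A.IsCM (p.map σ) := fun p hp => (h1 g A p hp).1
  -- finiteness
  have hfin : Finite (CC A) := by
    obtain ⟨d⟩ := h2 g A
    have hsub : {p : Matrix (Idx g) (Idx g) ℂ | A.IsCM p} ⊆ Set.range d.p := by
      intro p hp
      obtain ⟨i, hi⟩ := (d.comp p).1 hp.1
      exact ⟨i, hi.symm⟩
    exact ((Set.finite_range d.p).subset hsub).to_subtype
  let G := (rho hcm).range
  have hcomm : ∀ a b : G, a * b = b * a := by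
    rintro ⟨_, σ, rfl⟩ ⟨_, τ, rfl⟩
    apply Subtype.ext
    apply Equiv.ext
    intro p
    apply Subtype.ext
    exact hab p.1 p.2 τ σ
  let _ : CommGroup G := { (inferInstance : Group G) with mul_comm := hcomm }
  let c : G := ⟨rho hcm conjE, conjE, rfl⟩
  have hc : c * c = 1 := by
    apply Subtype.ext
    apply Equiv.ext
    intro p
    apply Subtype.ext
    ext i j
    show (starRingEnd ℂ) ((starRingEnd ℂ) (p.1 i j)) = p.1 i j
    exact Complex.conj_conj _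
  let R' : AddSubgroup (G → ℤ) :=
    { carrier := {f | ∃ n ∈ R, f = fun x => FF n x.1}
      zero_mem' := ⟨0, R.zero_mem, by funext x; exact (FF_zero x.1).symm⟩
      add_mem' := by
        rintro _ _ ⟨n, hn, rfl⟩ ⟨m, hm, rfl⟩
        exact ⟨n + m, R.add_mem hn hm, by funext x; exact (FF_add n m x.1).symm⟩
      neg_mem' := by
        rintro _ ⟨n, hn, rfl⟩
        refine ⟨-n, R.neg_mem hn, ?_⟩
        funext x
        have := FF_add n (-n) x.1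
        rw [add_neg_cancel, FF_zero] at this
        show - FF n x.1 = FF (-n) x.1
        linarith }
  have hstR : ∀ h : G, ∀ n ∈ R', (fun x => n (h * x)) ∈ R' := by
    rintro ⟨_, σ, rfl⟩ _ ⟨n, hn, rfl⟩
    refine ⟨n.mapDomain fun p => p.map σ, hst σ n hn, ?_⟩
    funext x
    rw [FF_map hcm n (hR n hn) σ x.1]
    have e := hcomm ⟨rho hcm σ, σ, rfl⟩ x
    have e' : rho hcm σ * x.1 = x.1 * rho hcm σ := congrArg Subtype.val e
    show FF n (rho hcm σ * x.1) = _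
    rw [e']
  have hodd : ∀ n ∈ R', ∀ x, n (c * x) = - n x := by
    rintro _ ⟨n, hn, rfl⟩ x
    show FF n (rho hcm conjE * x.1) = - FF n x.1
    unfold FF
    rw [← Finsupp.sum_neg]
    refine Finsupp.sum_congr fun p hp => ?_
    have hp' := hR n hn p hp
    have h3 : sgn (rho hcm conjE * x.1) p = - sgn x.1 p := by
      have h4 := (h1 g A (x.1 ⟨p, hp'⟩).1 (x.1 ⟨p, hp'⟩).2).2.2.1
      unfold sgn
      by_cases hH : A.Hol (x.1 ⟨p, hp'⟩).1
      · have h5 : ∃ h' : A.IsCM p, A.Hol (x.1 ⟨p, h'⟩).1 := ⟨hp', hH⟩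
        have h6 : ¬ ∃ h' : A.IsCM p, A.Hol ((rho hcm conjE * x.1) ⟨p, h'⟩).1 := by
          rintro ⟨_, h7⟩
          exact (h4.1 h7) hH
        rw [if_pos h5, if_neg h6]
      · have h5 : ¬ ∃ h' : A.IsCM p, A.Hol (x.1 ⟨p, h'⟩).1 := by
          rintro ⟨_, h7⟩
          exact hH h7
        have h6 : ∃ h' : A.IsCM p, A.Hol ((rho hcm conjE * x.1) ⟨p, h'⟩).1 := ⟨hp', h4.2 hH⟩
        rw [if_neg h5, if_pos h6, neg_neg]
    rw [h3]
    ring
  have hne : R' ≠ ⊥ := by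
    obtain ⟨n, hn, σ, hσ⟩ := hex
    intro hbot
    have h3 : (fun x : G => FF n x.1) ∈ R' := ⟨n, hn, rfl⟩
    rw [hbot, AddSubgroup.mem_bot] at h3
    apply hσ
    rw [typ_eq hcm n (hR n hn) σ]
    exact congrFun h3 ⟨rho hcm σ, σ, rfl⟩
  obtain ⟨Ψ, Ψ', hΨ, hΨ', hneq, N, hN, n, hn, hF⟩ :=
    Pool.Agent.SPR.keyTrick G c hc R' hstR hodd hne
  refine ⟨n, hn, N, ?_, ?_⟩
  · -- nonzero somewhere
    have hx : ∃ x, ¬ (x ∈ Ψ ↔ x ∈ Ψ') := by
      by_contra hcon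
      push Not at hcon
      exact hneq (Set.ext hcon)
    obtain ⟨⟨_, σ, rfl⟩, hx⟩ := hx
    refine ⟨σ, ?_⟩
    rw [typ_eq hcm n (hR n hn) σ]
    have h3 := congrFun hF ⟨rho hcm σ, σ, rfl⟩
    have h4 : FF n (rho hcm σ) = (N : ℤ) * (Ψ.indicator 1 ⟨rho hcm σ, σ, rfl⟩ -
        Ψ'.indicator 1 ⟨rho hcm σ, σ, rfl⟩) := h3.symm
    rw [h4]
    have hN0 : (N : ℤ) ≠ 0 := by omega
    refine mul_ne_zero hN0 ?_
    by_cases h5 : (⟨rho hcm σ, σ, rfl⟩ : G) ∈ Ψ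
    · have h6 : (⟨rho hcm σ, σ, rfl⟩ : G) ∉ Ψ' := fun h7 => hx ⟨fun _ => h7, fun _ => h5⟩
      rw [Set.indicator_of_mem h5, Set.indicator_of_notMem h6]
      simp
    · have h6 : (⟨rho hcm σ, σ, rfl⟩ : G) ∈ Ψ' := by
        by_contra h7
        exact hx ⟨fun h8 => absurd h8 h5, fun h8 => absurd h8 h7⟩
      rw [Set.indicator_of_notMem h5, Set.indicator_of_mem h6]
      simp
  · intro σ
    rw [typ_eq hcm n (hR n hn) σ]
    have h3 := congrFun hF ⟨rho hcm σ, σ, rfl⟩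
    have h4 : FF n (rho hcm σ) = (N : ℤ) * (Ψ.indicator 1 ⟨rho hcm σ, σ, rfl⟩ -
        Ψ'.indicator 1 ⟨rho hcm σ, σ, rfl⟩) := h3.symm
    rw [h4]
    by_cases h5 : (⟨rho hcm σ, σ, rfl⟩ : G) ∈ Ψ
    · by_cases h6 : (⟨rho hcm σ, σ, rfl⟩ : G) ∈ Ψ'
      · left
        rw [Set.indicator_of_mem h5, Set.indicator_of_mem h6]
        simp
      · right; left
        rw [Set.indicator_of_mem h5, Set.indicator_of_notMem h6]
        simp
    · by_cases h6 : (⟨rho hcm σ, σ, rfl⟩ : G) ∈ Ψ'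
      · right; right
        rw [Set.indicator_of_notMem h5, Set.indicator_of_mem h6]
        simp
      · left
        rw [Set.indicator_of_notMem h5, Set.indicator_of_notMem h6]
        simp

end

end Pool.Agent.SPG
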