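import Pool.Agent.SPG.Stmts
import Pool.Agent.SPF.OutStmts

set_option linter.unusedSectionVars false

/-!
# Module ABV2: the period matrix of the abelian variety attached to two CM types

Multiplication by elements of `E × E` is an endomorphism of the abelian variety, so it acts on the de Rham
homology by algebraic matrices; the Legendre relation gives the periods of the second kind.
-/

open scoped BigOperators Topology
open Matrix

namespace Pool.Agent.SPG

open Pool.Agent.DRB
open Pool.Agent.SPF (Alg CMF IsType cj zT IsPStr SympBasis SS TT SDat IsTh dotp)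

noncomputable section

namespace ABV2_

/-! ### algebraic matrices -/

theorem alg_iff {z : ℂ} : Alg z ↔ z ∈ algebraicClosure ℚ ℂ := mem_algebraicClosure_iff.symm

theorem alg_sum {κ : Type} (s : Finset κ) (f : κ → ℂ) (h : ∀ k ∈ s, Alg (f k)) : Alg (∑ k ∈ s, f k) :=
  AbVar.isAlgebraic_sum s f h

theorem alg_inv {κ : Type} [Fintype κ] [DecidableEq κ] (M : Matrix κ κ ℂ) (h : ∀ i j, Alg (M i j))
    (i j : κ) : Alg (M⁻¹ i j) := by
  let M' : Matrix κ κ (algebraicClosure ℚ ℂ) := fun i j => ⟨M i j, alg_iff.1 (h i j)⟩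
  have hM : M = (algebraMap (algebraicClosure ℚ ℂ) ℂ).mapMatrix M' := by
    ext i j; rfl
  rw [Matrix.inv_def, hM, ← RingHom.map_adjugate, ← RingHom.map_det, Matrix.smul_apply, smul_eq_mul,
    Ring.inverse_eq_inv']
  refine IsAlgebraic.mul (IsAlgebraic.inv ?_) ?_
  · exact alg_iff.2 (M'.det).2
  · exact alg_iff.2 (M'.adjugate i j).2

theorem alg_mul {κ κ' κ'' : Type} [Fintype κ'] (M : Matrix κ κ' ℂ) (N : Matrix κ' κ'' ℂ)
    (h : ∀ i j, Alg (M i j)) (h' : ∀ i j, Alg (N i j)) (i : κ) (j : κ'') : Alg ((M * N) i j) := by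
  rw [Matrix.mul_apply]
  exact alg_sum _ _ fun k _ => (h _ _).mul (h' _ _)

theorem alg_mulVec {κ κ' : Type} [Fintype κ'] (M : Matrix κ κ' ℂ) (v : κ' → ℂ)
    (h : ∀ i j, Alg (M i j)) (h' : ∀ j, Alg (v j)) (i : κ) : Alg ((M *ᵥ v) i) := by
  rw [Matrix.mulVec, dotProduct]
  exact alg_sum _ _ fun k _ => (h _ _).mul (h' _)

theorem jm_sq (g : ℕ) : Jm g * Jm g = -1 := by
  unfold Jm
  rw [Matrix.fromBlocks_multiply]
  ext i j
  rcases i with i | i <;> rcases j with j | j <;> simp [Matrix.one_apply]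

/-! ### the symplectic form and the de Rham structure -/

section Leg

variable {V : Type} [AddCommGroup V] [Module ℚ V] {g : ℕ} (A : AbVar g)
  (e : V →ₗ[ℚ] V →ₗ[ℚ] ℚ) (B : Module.Basis (Idx g) ℚ V) (ζ L : V →ₗ[ℚ] (Fin g → ℂ))
  (c : Fin g → ℂ)

/-- the matrix of the symplectic form -/
def Emat : Matrix (Idx g) (Idx g) ℂ := Matrix.of fun i j => ((e (B i) (B j) : ℚ) : ℂ)

theorem e_swap (hB : SympBasis e B) (x y : V) : e x y = - e y x := by
  have h := hB.alt (x + y)
  simp only [map_add, LinearMap.add_apply, hB.alt] at h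
  linarith

theorem Emat_eq (hB : SympBasis e B) : Emat e B = Jm g := by
  ext i j
  unfold Emat Jm
  rw [Matrix.of_apply]
  rcases i with i | i <;> rcases j with j | j
  · rw [hB.ll]; simp
  · rw [hB.lr]
    simp only [Matrix.fromBlocks_apply₁₂, Matrix.one_apply]
    split_ifs <;> simp
  · rw [e_swap e B hB, hB.lr]
    simp only [Matrix.fromBlocks_apply₂₁, Matrix.neg_apply, Matrix.one_apply]
    by_cases h : j = i
    · rw [if_pos h, if_pos h.symm]; simp
    · rw [if_neg h, if_neg (fun hh => h hh.symm)]; simp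
  · rw [hB.rr]; simp

/-- the matrix with columns `ζ (B j)` -/
def Zm : Matrix (Fin g) (Idx g) ℂ := Matrix.of fun i j => ζ (B j) i

theorem isotropic (hB : SympBasis e B) (hP : IsPStr e B ζ L) :
    Zm B ζ * Jm g * (Zm B ζ)ᵀ = 0 := by
  set P : Matrix (Idx g) (Idx g) ℂ := Matrix.of fun r j => Sum.elim (fun i => ζ (B j) i)
    (fun i => L (B j) i) r with hPdef
  have h1 : Pᵀ * Jm g * P = -(tpi • Jm g) := by
    ext i j
    have h2 := hP.rel (B i) (B j)
    have h3 : (Pᵀ * Jm g * P) i j = dotp (L (B j)) (ζ (B i)) - dotp (L (B i)) (ζ (B j)) := by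
      rw [Matrix.mul_apply, Fintype.sum_sum_type]
      have e1 : ∀ k, (Pᵀ * Jm g) i (Sum.inl k) = - L (B i) k := by
        intro k
        rw [Matrix.mul_apply, Fintype.sum_sum_type]
        simp only [Jm, Matrix.fromBlocks_apply₁₁, Matrix.fromBlocks_apply₂₁, Matrix.zero_apply,
          mul_zero, Finset.sum_const_zero, zero_add, Matrix.neg_apply, Matrix.transpose_apply]
        rw [Finset.sum_eq_single k]
        · rw [Matrix.one_apply_eq]
          simp [hPdef]
        · intro m _ hm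
          rw [Matrix.one_apply_ne hm]; simp
        · intro h; exact absurd (Finset.mem_univ _) h
      have e2 : ∀ k, (Pᵀ * Jm g) i (Sum.inr k) = ζ (B i) k := by
        intro k
        rw [Matrix.mul_apply, Fintype.sum_sum_type]
        simp only [Jm, Matrix.fromBlocks_apply₁₂, Matrix.fromBlocks_apply₂₂, Matrix.zero_apply,
          mul_zero, Finset.sum_const_zero, add_zero, Matrix.transpose_apply]
        rw [Finset.sum_eq_single k]
        · rw [Matrix.one_apply_eq]
          simp [hPdef]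
        · intro m _ hm
          rw [Matrix.one_apply_ne hm]; simp
        · intro h; exact absurd (Finset.mem_univ _) h
      simp only [e1, e2]
      unfold dotp
      rw [← Finset.sum_add_distrib, ← Finset.sum_sub_distrib]
      refine Finset.sum_congr rfl fun k _ => ?_
      simp only [hPdef, Matrix.of_apply, Sum.elim_inl, Sum.elim_inr]
      ring
    rw [h3, ← Emat_eq e B hB, Matrix.neg_apply, Matrix.smul_apply, smul_eq_mul]
    unfold Emat tpi
    rw [Matrix.of_apply]
    linear_combination -h2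
  have h2 : (tpi⁻¹ • (Jm g * Pᵀ * Jm g)) * P = 1 := by
    rw [Matrix.smul_mul, Matrix.mul_assoc, Matrix.mul_assoc, ← Matrix.mul_assoc Pᵀ, h1,
      Matrix.mul_neg, Matrix.mul_smul, jm_sq, smul_neg, smul_neg, smul_neg, neg_neg, smul_smul,
      inv_mul_cancel₀ tpi_ne_zero, one_smul]
  have h3 : P * (tpi⁻¹ • (Jm g * Pᵀ * Jm g)) = 1 := mul_eq_one_comm.1 h2
  have h4 : P * Jm g * Pᵀ = -(tpi • Jm g) := by
    have h5 : P * Jm g * Pᵀ * Jm g = tpi • (1 : Matrix (Idx g) (Idx g) ℂ) := by
      rw [← h3, Matrix.mul_smul, smul_smul, mul_inv_cancel₀ tpi_ne_zero, one_smul]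
      simp only [Matrix.mul_assoc]
    have h6 := congrArg (fun X => X * (- Jm g)) h5
    simp only [Matrix.mul_neg, Matrix.mul_assoc, jm_sq, Matrix.smul_mul, Matrix.one_mul,
      neg_neg, Matrix.mul_one] at h6
    rw [Matrix.mul_assoc]
    exact h6
  ext i j
  have h5 := congrFun (congrFun h4 (Sum.inl i)) (Sum.inl j)
  have h6 : (P * Jm g * Pᵀ) (Sum.inl i) (Sum.inl j) = (Zm B ζ * Jm g * (Zm B ζ)ᵀ) i j := by
    simp only [Matrix.mul_apply, Matrix.transpose_apply]
    rfl
  rw [← h6, h5, Matrix.neg_apply, Matrix.smul_apply]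
  simp [Jm]

/-- the symplectic form is algebraic on the de Rham homology -/
theorem legE (hHM : SPF.Stmt_HM2) (hLeg : Stmt_Leg) (hB : SympBasis e B) (hP : IsPStr e B ζ L)
    (hlat : ∀ j i, A.lat j i = c i * ζ (B j) i) :
    ∃ J' : Matrix (Idx g) (Idx g) ℂ, (∀ i j, Alg (J' i j)) ∧
      A.perᵀ * J' * A.per = tpi • Emat e B := by
  obtain ⟨hint, hrel, hunit, hskew⟩ := hLeg g A
  choose q hq using hint
  set Lam : Matrix (Fin g) (Idx g) ℂ := Matrix.of fun i j => A.lat j i with hLam
  set ell : Matrix (Fin g) (Idx g) ℂ := Matrix.of fun i j => A.lin j i with hell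
  have hriem : A.riem = tpi⁻¹ • (Lamᵀ * ell - ellᵀ * Lam) := by
    ext i j
    have h7 : A.riem i j = (∑ k, (A.lat i k * A.lin j k - A.lat j k * A.lin i k)) / tpi := rfl
    rw [h7, Matrix.smul_apply, Matrix.sub_apply, Matrix.mul_apply, Matrix.mul_apply,
      ← Finset.sum_sub_distrib, smul_eq_mul, div_eq_inv_mul]
    congr 1
    refine Finset.sum_congr rfl fun k _ => ?_
    simp only [hLam, hell, Matrix.transpose_apply, Matrix.of_apply]
    ring
  have hLZ : Lam = Matrix.diagonal c * Zm B ζ := by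
    ext i j
    rw [Matrix.diagonal_mul]
    exact hlat j i
  have hiso : Lam * Jm g * Lamᵀ = 0 := by
    rw [hLZ, Matrix.transpose_mul]
    have h0 := isotropic e B ζ L hB hP
    have h1 : Matrix.diagonal c * Zm B ζ * Jm g * ((Zm B ζ)ᵀ * (Matrix.diagonal c)ᵀ) =
        Matrix.diagonal c * (Zm B ζ * Jm g * (Zm B ζ)ᵀ) * (Matrix.diagonal c)ᵀ := by
      simp only [Matrix.mul_assoc]
    rw [h1, h0, Matrix.mul_zero, Matrix.zero_mul]
  set H : Matrix (Idx g) (Idx g) ℂ := -(Jm g * A.riem) with hH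
  set M : Matrix (Fin g) (Fin g) ℂ := tpi⁻¹ • (Lam * Jm g * ellᵀ) with hM
  have hML : M * Lam = Lam * H := by
    have e1 : Lam * H = tpi⁻¹ • (Lam * Jm g * ellᵀ * Lam) - tpi⁻¹ • ((Lam * Jm g * Lamᵀ) * ell) := by
      rw [hH, hriem]
      simp only [Matrix.mul_neg, Matrix.mul_smul, Matrix.mul_sub, smul_sub, Matrix.mul_assoc]
      abel
    rw [e1, hiso, Matrix.zero_mul, smul_zero, sub_zero, hM, Matrix.smul_mul]
  set R : Matrix (Idx g) (Idx g) ℚ :=
    -((Matrix.fromBlocks 0 1 (-1) 0 : Matrix (Idx g) (Idx g) ℚ) * Matrix.of fun i j => (q i j : ℚ))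
    with hR
  have hRH : R.map (algebraMap ℚ ℂ) = H := by
    have e1 : (Matrix.fromBlocks 0 1 (-1) 0 : Matrix (Idx g) (Idx g) ℚ).map (algebraMap ℚ ℂ) =
        Jm g := by
      ext i j
      rcases i with i | i <;> rcases j with j | j <;> simp [Jm, Matrix.one_apply]
      split_ifs <;> simp
    have e2 : (Matrix.of fun i j => (q i j : ℚ) : Matrix (Idx g) (Idx g) ℚ).map (algebraMap ℚ ℂ) =
        A.riem := by
      ext i j
      rw [hq i j]; simp
    have e3 : R.map (algebraMap ℚ ℂ) = (algebraMap ℚ ℂ).mapMatrix R := rfl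
    rw [e3, hR, map_neg, map_mul, hH]
    congr 2
  obtain ⟨ρ, hρ, -, hper⟩ := hHM g g A A M R (by
    intro j
    funext i
    have h1 := congrFun (congrFun hML i) j
    rw [Matrix.mul_apply, Matrix.mul_apply, ← hRH] at h1
    rw [Matrix.mulVec, dotProduct, Finset.sum_apply]
    simp only [hLam, Matrix.of_apply, Matrix.map_apply, Pi.smul_apply, smul_eq_mul] at h1 ⊢
    rw [h1]
    refine Finset.sum_congr rfl fun k _ => ?_
    rw [mul_comm]
    rfl)
  rw [hRH] at hper
  have hpu : IsUnit A.per.det := A.nondeg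
  have hJu : IsUnit (Jm g).det := by
    have h2 := congrArg Matrix.det (show Jm g * (-Jm g) = 1 by rw [Matrix.mul_neg, jm_sq, neg_neg])
    rw [Matrix.det_mul, Matrix.det_one] at h2
    exact IsUnit.of_mul_eq_one _ h2
  have hHu : IsUnit H.det := by
    have h1 : (Jm g) * H = A.riem := by
      rw [hH, Matrix.mul_neg, ← Matrix.mul_assoc, jm_sq, Matrix.neg_mul, Matrix.one_mul, neg_neg]
    have h2 := congrArg Matrix.det h1
    rw [Matrix.det_mul] at h2
    rw [← h2] at hunit
    exact isUnit_of_mul_isUnit_right hunit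
  have hρu : IsUnit ρ.det := by
    have h2 := congrArg Matrix.det hper
    rw [Matrix.det_mul, Matrix.det_mul] at h2
    have h3 : IsUnit (ρ.det * A.per.det) := by rw [← h2]; exact hpu.mul hHu
    exact isUnit_of_mul_isUnit_left h3
  refine ⟨Jm g * ρ⁻¹, ?_, ?_⟩
  · refine alg_mul _ _ ?_ (alg_inv ρ hρ)
    intro i j
    rcases i with i | i <;> rcases j with j | j <;> simp only [Jm, Matrix.fromBlocks_apply₁₁,
      Matrix.fromBlocks_apply₁₂, Matrix.fromBlocks_apply₂₁, Matrix.fromBlocks_apply₂₂,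
      Matrix.zero_apply, Matrix.neg_apply, Matrix.one_apply]
    · exact isAlgebraic_zero
    · split_ifs
      · exact isAlgebraic_one
      · exact isAlgebraic_zero
    · split_ifs
      · exact isAlgebraic_one.neg
      · rw [neg_zero]; exact isAlgebraic_zero
    · exact isAlgebraic_zero
  · have h1 : ρ⁻¹ * A.per = A.per * H⁻¹ := by
      have h2 : ρ⁻¹ * (A.per * H) * H⁻¹ = ρ⁻¹ * (ρ * A.per) * H⁻¹ := by rw [hper]
      rw [← Matrix.mul_assoc ρ⁻¹ A.per H, Matrix.mul_assoc _ H H⁻¹, Matrix.mul_nonsing_inv _ hHu,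
        Matrix.mul_one, ← Matrix.mul_assoc ρ⁻¹ ρ, Matrix.nonsing_inv_mul _ hρu, Matrix.one_mul] at h2
      exact h2
    have h3 : Jm g * H = A.riem := by
      rw [hH, Matrix.mul_neg, ← Matrix.mul_assoc, jm_sq, Matrix.neg_mul, Matrix.one_mul, neg_neg]
    rw [← Matrix.mul_assoc, Matrix.mul_assoc _ ρ⁻¹, h1, ← Matrix.mul_assoc, hrel, ← h3,
      Matrix.smul_mul, Matrix.mul_assoc, Matrix.mul_nonsing_inv _ hHu, Matrix.mul_one,
      Emat_eq e B hB]

end Leg

/-! ### the characters of `E × E` -/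

section Chr

variable {E : Type} [Field E] [NumberField E]

/-- the index set of the characters of `E × E` -/
abbrev SE (E : Type) [Field E] : Type := (E →+* ℂ) ⊕ (E →+* ℂ)

/-- the characters of `E × E` -/
def ev : SE E → (E × E →+* ℂ)
  | Sum.inl φ => φ.comp (RingHom.fst E E)
  | Sum.inr φ => φ.comp (RingHom.snd E E)

theorem ev_injective : Function.Injective (ev (E := E)) := by
  intro s s' h
  rcases s with φ | φ <;> rcases s' with ψ | ψ
  · congr 1
    ext x
    have := congrArg (fun f : E × E →+* ℂ => f (x, 0)) h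
    simpa [ev] using this
  · exfalso
    have := congrArg (fun f : E × E →+* ℂ => f (1, 0)) h
    simp [ev] at this
  · exfalso
    have := congrArg (fun f : E × E →+* ℂ => f (1, 0)) h
    simp [ev] at this
  · congr 1
    ext x
    have := congrArg (fun f : E × E →+* ℂ => f (0, x)) h
    simpa [ev] using this

theorem ev_indep (a : SE E → ℂ) (h : ∀ x : E × E, ∑ s, a s * ev s x = 0) : a = 0 := by
  have h1 := linearIndependent_monoidHom (E × E) ℂ
  have h2 : Function.Injective (fun s : SE E => ((ev s : E × E →+* ℂ) : E × E →* ℂ)) := by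
    intro s s' hs
    apply ev_injective
    apply RingHom.ext
    intro x
    exact congrArg (fun f : E × E →* ℂ => f x) hs
  have h3 := h1.comp _ h2
  rw [Fintype.linearIndependent_iff] at h3
  funext s
  refine h3 a ?_ s
  funext x
  rw [Finset.sum_apply]
  simpa using h x

variable {g : ℕ} (B : Module.Basis (Idx g) ℚ (E × E))

/-- the value of the character `s` at the vector with coordinates `w` -/
def chi (w : Idx g → ℂ) (s : SE E) : ℂ := ∑ k, w k * ev s (B k)

theorem ev_smul (s : SE E) (r : ℚ) (x : E × E) : ev s (r • x) = (r : ℂ) * ev s x := by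
  rw [Algebra.smul_def, map_mul]
  congr 1
  exact RingHom.map_rat_algebraMap (ev s) r

theorem ev_repr (s : SE E) (x : E × E) :
    ev s x = ∑ k, ((B.repr x k : ℚ) : ℂ) * ev s (B k) := by
  conv_lhs => rw [← B.sum_repr x]
  rw [map_sum]
  exact Finset.sum_congr rfl fun k _ => ev_smul s _ _

theorem ev_alg (s : SE E) (x : E × E) : Alg (ev s x) := by
  have h : ∀ (φ : E →+* ℂ) (y : E), Alg (φ y) := by
    intro φ y
    exact IsAlgebraic.algHom φ.toRatAlgHom (Algebra.IsAlgebraic.isAlgebraic y)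
  rcases s with φ | φ
  · exact h φ x.1
  · exact h φ x.2

include B in
theorem card_eq : Fintype.card (SE E) = Fintype.card (Idx g) := by
  have h1 := Module.finrank_eq_card_basis B
  rw [Module.finrank_prod] at h1
  rw [← h1, Fintype.card_sum, NumberField.Embeddings.card]

/-- an enumeration of the characters -/
def en : SE E ≃ Idx g := Fintype.equivOfCardEq (card_eq B)

/-- the matrix of values of the characters -/
def Nm : Matrix (Idx g) (Idx g) ℂ := Matrix.of fun r k => ev ((en B).symm r) (B k)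

theorem Nm_mulVec (w : Idx g → ℂ) (r : Idx g) : (Nm B *ᵥ w) r = chi B w ((en B).symm r) := by
  rw [Matrix.mulVec, dotProduct]
  unfold chi
  exact Finset.sum_congr rfl fun k _ => mul_comm _ _

theorem Nm_unit : IsUnit (Nm B).det := by
  rw [← Matrix.isUnit_iff_isUnit_det, ← Matrix.linearIndependent_rows_iff_isUnit,
    Fintype.linearIndependent_iff]
  intro a ha r
  have h1 : (fun s => a (en B s)) = 0 := by
    apply ev_indep
    intro x
    have h2 : ∀ k, ∑ s, a (en B s) * ev s (B k) = 0 := by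
      intro k
      have h3 := congrFun ha k
      rw [Finset.sum_apply, ← Equiv.sum_comp (en B)] at h3
      rw [Pi.zero_apply] at h3
      rw [← h3]
      refine Finset.sum_congr rfl fun s _ => ?_
      rw [Pi.smul_apply, smul_eq_mul]
      show _ = a (en B s) * ev ((en B).symm (en B s)) (B k)
      rw [Equiv.symm_apply_apply]
    calc ∑ s, a (en B s) * ev s x = ∑ s, ∑ k, ((B.repr x k : ℚ) : ℂ) * (a (en B s) * ev s (B k)) := by
          refine Finset.sum_congr rfl fun s _ => ?_
          rw [ev_repr B s x, Finset.mul_sum]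
          exact Finset.sum_congr rfl fun k _ => by ring
      _ = ∑ k, ((B.repr x k : ℚ) : ℂ) * ∑ s, a (en B s) * ev s (B k) := by
          rw [Finset.sum_comm]
          exact Finset.sum_congr rfl fun k _ => by rw [Finset.mul_sum]
      _ = 0 := by simp [h2]
  have h2 := congrFun h1 ((en B).symm r)
  simpa using h2

theorem chi_inj (w w' : Idx g → ℂ) (h : ∀ s, chi B w s = chi B w' s) : w = w' := by
  have h1 : Nm B *ᵥ w = Nm B *ᵥ w' := by
    funext r
    rw [Nm_mulVec, Nm_mulVec, h]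
  have h2 := congrArg (fun v => (Nm B)⁻¹ *ᵥ v) h1
  simpa [Matrix.mulVec_mulVec, Matrix.nonsing_inv_mul _ (Nm_unit B)] using h2

theorem chi_surj (a : SE E → ℂ) : ∃ w : Idx g → ℂ, ∀ s, chi B w s = a s := by
  refine ⟨(Nm B)⁻¹ *ᵥ fun r => a ((en B).symm r), fun s => ?_⟩
  have h1 := Nm_mulVec B ((Nm B)⁻¹ *ᵥ fun r => a ((en B).symm r)) (en B s)
  rw [Equiv.symm_apply_apply] at h1
  rw [← h1, Matrix.mulVec_mulVec, Matrix.mul_nonsing_inv _ (Nm_unit B), Matrix.one_mulVec,
    Equiv.symm_apply_apply]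

theorem chi_alg (w : Idx g → ℂ) (h : ∀ s, Alg (chi B w s)) (k : Idx g) : Alg (w k) := by
  have h1 : w = (Nm B)⁻¹ *ᵥ (Nm B *ᵥ w) := by
    rw [Matrix.mulVec_mulVec, Matrix.nonsing_inv_mul _ (Nm_unit B), Matrix.one_mulVec]
  rw [h1]
  refine alg_mulVec _ _ (alg_inv _ fun r k => ev_alg _ _) (fun r => ?_) k
  rw [Nm_mulVec]; exact h _

theorem chi_leftMul (x : E × E) (w : Idx g → ℂ) (s : SE E) :
    chi B ((Algebra.leftMulMatrix B x).map (algebraMap ℚ ℂ) *ᵥ w) s = ev s x * chi B w s := by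
  unfold chi
  have h1 : ∀ j, ev s (x * B j) =
      ∑ k, ((Algebra.leftMulMatrix B x k j : ℚ) : ℂ) * ev s (B k) := by
    intro j
    rw [ev_repr B s (x * B j)]
    refine Finset.sum_congr rfl fun k _ => ?_
    rw [Algebra.leftMulMatrix_eq_repr_mul]
  calc ∑ k, ((Algebra.leftMulMatrix B x).map (algebraMap ℚ ℂ) *ᵥ w) k * ev s (B k)
      = ∑ k, ∑ j, w j * (((Algebra.leftMulMatrix B x k j : ℚ) : ℂ) * ev s (B k)) := by
        refine Finset.sum_congr rfl fun k _ => ?_
        rw [Matrix.mulVec, dotProduct, Finset.sum_mul]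
        refine Finset.sum_congr rfl fun j _ => ?_
        rw [Matrix.map_apply, eq_ratCast]
        ring
    _ = ∑ j, w j * ev s (x * B j) := by
        rw [Finset.sum_comm]
        refine Finset.sum_congr rfl fun j _ => ?_
        rw [h1, Finset.mul_sum]
    _ = ev s x * ∑ j, w j * ev s (B j) := by
        rw [Finset.mul_sum]
        refine Finset.sum_congr rfl fun j _ => ?_
        rw [map_mul]; ring

/-- the eigenvectors have algebraic directions in the de Rham homology -/
theorem eigen (A : AbVar g)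
    (hE : ∀ x : E × E, ∃ ρ : Matrix (Idx g) (Idx g) ℂ, (∀ r s, Alg (ρ r s)) ∧
      A.per * (Algebra.leftMulMatrix B x).map (algebraMap ℚ ℂ) = ρ * A.per)
    (s : SE E) (v : Idx g → ℂ) (hv1 : chi B v s = 1) (hv0 : ∀ s', s' ≠ s → chi B v s' = 0) :
    ∃ (t : ℂ) (a : Idx g → ℂ), t ≠ 0 ∧ (∀ j, Alg (a j)) ∧ A.per *ᵥ v = t • a := by
  choose ρ hρ hper using fun k => hE (B k)
  have hva : ∀ k, Alg (v k) := by
    apply chi_alg B v
    intro s'
    by_cases h : s' = s
    · subst h; rw [hv1]; exact isAlgebraic_one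
    · rw [hv0 s' h]; exact isAlgebraic_zero
  set P : Matrix (Idx g) (Idx g) ℂ :=
    ∑ k, v k • (Algebra.leftMulMatrix B (B k)).map (algebraMap ℚ ℂ) with hP
  set Q : Matrix (Idx g) (Idx g) ℂ := ∑ k, v k • ρ k with hQ
  have hPQ : A.per * P = Q * A.per := by
    rw [hP, hQ, Matrix.mul_sum, Matrix.sum_mul]
    refine Finset.sum_congr rfl fun k _ => ?_
    rw [Matrix.mul_smul, Matrix.smul_mul, hper]
  have hQa : ∀ i j, Alg (Q i j) := by
    intro i j
    rw [hQ, Matrix.sum_apply]
    refine alg_sum _ _ fun k _ => ?_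
    rw [Matrix.smul_apply, smul_eq_mul]
    exact (hva k).mul (hρ k i j)
  have hchi_sum : ∀ (y : Idx g → Idx g → ℂ) (s' : SE E),
      chi B (∑ k, v k • y k) s' = ∑ k, v k * chi B (y k) s' := by
    intro y s'
    unfold chi
    simp only [Finset.sum_apply, Pi.smul_apply, smul_eq_mul, Finset.sum_mul, Finset.mul_sum]
    rw [Finset.sum_comm]
    exact Finset.sum_congr rfl fun _ _ => Finset.sum_congr rfl fun _ _ => by ring
  have hPw : ∀ w, P *ᵥ w = chi B w s • v := by
    intro w
    apply chi_inj B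
    intro s'
    have h1 : P *ᵥ w = ∑ k, v k • ((Algebra.leftMulMatrix B (B k)).map (algebraMap ℚ ℂ) *ᵥ w) := by
      rw [hP, Matrix.sum_mulVec]
      exact Finset.sum_congr rfl fun k _ => Matrix.smul_mulVec _ _ _
    rw [h1, hchi_sum]
    have h2 : ∑ k, v k * chi B ((Algebra.leftMulMatrix B (B k)).map (algebraMap ℚ ℂ) *ᵥ w) s' =
        chi B v s' * chi B w s' := by
      unfold chi
      rw [Finset.sum_mul]
      refine Finset.sum_congr rfl fun k _ => ?_
      have h3 := chi_leftMul B (B k) w s'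
      unfold chi at h3
      rw [h3]; ring
    have h3 : chi B (chi B w s • v) s' = chi B w s * chi B v s' := by
      unfold chi
      rw [Finset.mul_sum]
      refine Finset.sum_congr rfl fun k _ => ?_
      rw [Pi.smul_apply, smul_eq_mul]; ring
    rw [h2, h3]
    by_cases h : s' = s
    · subst h; ring
    · rw [hv0 s' h]; ring
  have hpu : IsUnit A.per.det := A.nondeg
  have hvne : v ≠ 0 := by
    intro h0
    rw [h0] at hv1
    simp [chi] at hv1
  have hpv : A.per *ᵥ v ≠ 0 := by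
    intro h0
    apply hvne
    have h1 := congrArg (fun y => A.per⁻¹ *ᵥ y) h0
    simpa [Matrix.mulVec_mulVec, Matrix.nonsing_inv_mul _ hpu] using h1
  have hQv : Q *ᵥ (A.per *ᵥ v) = A.per *ᵥ v := by
    rw [Matrix.mulVec_mulVec, ← hPQ, ← Matrix.mulVec_mulVec, hPw, hv1, one_smul]
  have hQ0 : ∃ j, (fun i => Q i j) ≠ 0 := by
    by_contra hcon
    push Not at hcon
    apply hpv
    rw [← hQv]
    funext i
    rw [Matrix.mulVec, dotProduct, Pi.zero_apply]
    refine Finset.sum_eq_zero fun j _ => ?_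
    have := congrFun (hcon j) i
    simp only [Pi.zero_apply] at this
    rw [this, zero_mul]
  obtain ⟨j, hj⟩ := hQ0
  set y : Idx g → ℂ := A.per⁻¹ *ᵥ Pi.single j 1 with hy
  have hcol : (fun i => Q i j) = chi B y s • (A.per *ᵥ v) := by
    have h1 : Q *ᵥ (A.per *ᵥ y) = chi B y s • (A.per *ᵥ v) := by
      rw [Matrix.mulVec_mulVec, ← hPQ, ← Matrix.mulVec_mulVec, hPw, Matrix.mulVec_smul]
    have h2 : A.per *ᵥ y = Pi.single j 1 := by
      rw [hy, Matrix.mulVec_mulVec, Matrix.mul_nonsing_inv _ hpu, Matrix.one_mulVec]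
    rw [h2, Matrix.mulVec_single_one] at h1
    exact h1
  have ht : chi B y s ≠ 0 := by
    intro h0
    rw [h0, zero_smul] at hcol
    exact hj hcol
  refine ⟨(chi B y s)⁻¹, fun i => Q i j, inv_ne_zero ht, fun i => hQa i j, ?_⟩
  rw [hcol, smul_smul, inv_mul_cancel₀ ht, one_smul]

/-- the trace form -/
theorem e_formula (K : CMF E) (ξ : E) (x y : E) :
    ((K.e ξ x y : ℚ) : ℂ) = ∑ φ : E →+* ℂ, φ ξ * φ x * cj φ y := by
  have h1 : K.e ξ x y = Algebra.trace ℚ E (ξ * x * K.bar y) := rfl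
  have h2 := trace_eq_sum_embeddings ℂ (K := ℚ) (L := E) (x := ξ * x * K.bar y)
  rw [eq_ratCast] at h2
  rw [h1, h2, ← Equiv.sum_comp (RingHom.equivRatAlgHom E ℂ)]
  refine Finset.sum_congr rfl fun φ _ => ?_
  show φ (ξ * x * K.bar y) = _
  rw [map_mul, map_mul, K.bar_spec]
  rfl

/-- conjugation of characters -/
def cjS : SE E → SE E := Sum.map cj cj

theorem eSum_formula (K : CMF E) (ξ ξ' : E) (x y : E × E) :
    ((SPF.eSum (K.e ξ) (K.e ξ') x y : ℚ) : ℂ) =
      ∑ s : SE E, ev s (ξ, ξ') * ev s x * ev (cjS s) y := by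
  have h1 : SPF.eSum (K.e ξ) (K.e ξ') x y = K.e ξ x.1 y.1 + K.e ξ' x.2 y.2 := rfl
  rw [h1, Rat.cast_add, e_formula, e_formula, Fintype.sum_sum_type]
  rfl

end Chr

end ABV2_

open ABV2_ in
theorem abv2_proof (hABV : SPF.Stmt_ABV) (hHM : SPF.Stmt_HM2) (hSUM : SPF.Stmt_SUM)
    (hRLB : SPF.Stmt_RLB) (hLeg : Stmt_Leg) : Stmt_ABV2 := by
  classical
  intro E _ _ K Φ Φ' ξ ξ' c c' hT hT' hS hS'
  obtain ⟨hbar, hpos, hSS⟩ := hS
  obtain ⟨hbar', hpos', hSS'⟩ := hS'
  -- the sum
  have hSSs := hSS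
  have hSSs' := hSS'
  obtain ⟨-, B₁, L₁, -, hB₁, hP₁, -⟩ := hSSs
  obtain ⟨-, B₂, L₂, -, hB₂, hP₂, -⟩ := hSSs'
  have hsum := (hSUM E E _ _ _ _ B₁ B₂ _ _ _ _ _ _ hB₁ hP₁ hB₂ hP₂).2 ⟨hSS, hSS'⟩
  -- relabelling
  set n := Fintype.card ({φ // φ ∈ Φ} ⊕ {φ // φ ∈ Φ'}) with hn
  let f : ({φ // φ ∈ Φ} ⊕ {φ // φ ∈ Φ'}) ≃ Fin n := Fintype.equivFin _
  let si : Fin n → SE E := fun i => Sum.map Subtype.val Subtype.val (f.symm i)
  let cS : SE E → ℂ := Sum.elim c c'
  let e := SPF.eSum (K.e ξ) (K.e ξ')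
  let ζ : (E × E) →ₗ[ℚ] (Fin n → ℂ) :=
    { toFun := fun x i => ev (si i) x
      map_add' := by
        intro x y
        funext i
        exact map_add _ _ _
      map_smul' := by
        intro r x
        funext i
        rw [ev_smul, RingHom.id_apply, Pi.smul_apply, Rat.smul_def] }
  have hSn : SS e ζ (fun i => cS (si i)) := by
    refine hRLB _ _ _ f _ _ ζ _ (fun i => cS (si i)) ?_ ?_ hsum
    · intro x i
      show ev (si (f i)) x = _
      simp only [si, Equiv.symm_apply_apply]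
      rcases i with i | i <;> rfl
    · intro i
      simp only [si, Equiv.symm_apply_apply]
      rcases i with i | i <;> rfl
  have hSn' := hSn
  obtain ⟨hc0, B, L, F, hB, hP, -, -, -⟩ := hSn'
  obtain ⟨A, hA⟩ := hABV n _ e ζ _ hSn B L hB hP
  have hA' : ∀ j i, A.lat j i = cS (si i) * ev (si i) (B j) := hA
  -- multiplications are endomorphisms
  have hE : ∀ x : E × E, ∃ ρ : Matrix (Idx n) (Idx n) ℂ, (∀ r s, Alg (ρ r s)) ∧
      A.per * (Algebra.leftMulMatrix B x).map (algebraMap ℚ ℂ) = ρ * A.per := by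
    intro x
    obtain ⟨ρ, h1, -, h2⟩ := hHM n n A A (Matrix.diagonal fun i => ev (si i) x)
      (Algebra.leftMulMatrix B x) (by
        intro j
        funext i
        have h3 : ev (si i) (x * B j) =
            ∑ k, ((Algebra.leftMulMatrix B x k j : ℚ) : ℂ) * ev (si i) (B k) := by
          rw [ev_repr B (si i) (x * B j)]
          refine Finset.sum_congr rfl fun k _ => ?_
          rw [Algebra.leftMulMatrix_eq_repr_mul]
        rw [Matrix.mulVec_diagonal, hA', Finset.sum_apply,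
          show ev (si i) x * (cS (si i) * ev (si i) (B j)) = cS (si i) * ev (si i) (x * B j) by
            rw [map_mul]; ring, h3, Finset.mul_sum]
        refine Finset.sum_congr rfl fun k _ => ?_
        rw [Pi.smul_apply, smul_eq_mul, hA']
        ring)
    exact ⟨ρ, h1, h2⟩
  have hprv : ∀ (v : Idx n → ℂ) (i : Fin n), pr (A.per *ᵥ v) i = cS (si i) * chi B v (si i) := by
    intro v i
    show (A.per *ᵥ v) (Sum.inl i) = _
    rw [Matrix.mulVec, dotProduct]
    unfold chi
    rw [Finset.mul_sum]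
    refine Finset.sum_congr rfl fun k _ => ?_
    have h1 : A.per (Sum.inl i) k = A.lat k i := rfl
    rw [h1, hA']
    ring
  let inT : SE E → Prop := fun s => Sum.elim (fun φ => φ ∈ Φ) (fun φ => φ ∈ Φ') s
  have hsiT : ∀ i, inT (si i) := by
    intro i
    simp only [si]
    rcases f.symm i with φ | φ
    · exact φ.2
    · exact φ.2
  have hTsi : ∀ s, inT s → ∃ i, si i = s := by
    intro s hs
    rcases s with φ | φ
    · refine ⟨f (Sum.inl ⟨φ, hs⟩), ?_⟩
      simp only [si, Equiv.symm_apply_apply, Sum.map_inl]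
    · refine ⟨f (Sum.inr ⟨φ, hs⟩), ?_⟩
      simp only [si, Equiv.symm_apply_apply, Sum.map_inr]
  have hsi_inj : Function.Injective si := by
    intro i j hij
    have h1 : Function.Injective (Sum.map Subtype.val Subtype.val :
        ({φ // φ ∈ Φ} ⊕ {φ // φ ∈ Φ'}) → SE E) :=
      Sum.map_injective.2 ⟨Subtype.val_injective, Subtype.val_injective⟩
    exact f.symm.injective (h1 hij)
  -- periods of the first kind
  have key1 : ∀ (s : SE E) (v : Idx n → ℂ), chi B v s = 1 → (∀ s', s' ≠ s → chi B v s' = 0) →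
      inT s → ∃ a : Idx n → ℂ, (∀ j, Alg (a j)) ∧ A.per *ᵥ v = cS s • a ∧ pr a ≠ 0 := by
    intro s v h1 h0 hs
    obtain ⟨t, a, ht, ha, hta⟩ := eigen B A hE s v h1 h0
    obtain ⟨i, hi⟩ := hTsi s hs
    have h2 := hprv v i
    rw [hi, h1, mul_one, hta] at h2
    have h3 : t * a (Sum.inl i) = cS s := h2
    have hcs : cS s ≠ 0 := by rw [← hi]; exact hc0 i
    have h4 : a (Sum.inl i) ≠ 0 := by
      intro h; rw [h, mul_zero] at h3; exact hcs h3.symm
    refine ⟨(a (Sum.inl i))⁻¹ • a, fun j => ?_, ?_, ?_⟩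
    · rw [Pi.smul_apply, smul_eq_mul]
      exact ((ha _).inv).mul (ha j)
    · rw [hta, smul_smul, ← h3, mul_assoc, mul_inv_cancel₀ h4, mul_one]
    · intro h
      have h5 := congrFun h i
      have h6 : (a (Sum.inl i))⁻¹ * a (Sum.inl i) = 0 := h5
      rw [inv_mul_cancel₀ h4] at h6
      exact one_ne_zero h6
  obtain ⟨J', hJ', hLegE⟩ := legE A e B ζ L (fun i => cS (si i)) hHM hLeg hB hP hA
  -- periods of the second kind
  have key2 : ∀ (s : SE E) (v : Idx n → ℂ), chi B v s = 1 → (∀ s', s' ≠ s → chi B v s' = 0) →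
      ¬ inT s → ∃ a : Idx n → ℂ, (∀ j, Alg (a j)) ∧ A.per *ᵥ v = (tpi / cS (cjS s)) • a ∧
        pr a = 0 := by
    intro s v h1 h0 hs
    obtain ⟨t, a, ht, ha, hta⟩ := eigen B A hE s v h1 h0
    have hpra : pr a = 0 := by
      funext i
      have h2 := hprv v i
      rw [h0 (si i) (fun h => hs (h ▸ hsiT i)), mul_zero, hta] at h2
      have h3 : t * a (Sum.inl i) = 0 := h2
      rcases mul_eq_zero.1 h3 with h4 | h4
      · exact absurd h4 ht
      · exact h4
    have hs' : inT (cjS s) := by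
      rcases s with φ | φ
      · by_contra hcon
        exact hs ((hT φ).2 hcon)
      · by_contra hcon
        exact hs ((hT' φ).2 hcon)
    obtain ⟨v', hv'⟩ := chi_surj B (fun s' => if s' = cjS s then 1 else 0)
    obtain ⟨a', ha', hta', -⟩ := key1 (cjS s) v' (by rw [hv', if_pos rfl])
      (fun s' h => by rw [hv', if_neg h]) hs'
    have hpair : (A.per *ᵥ v) ⬝ᵥ (J' *ᵥ (A.per *ᵥ v')) = tpi * ev s (ξ, ξ') := by
      have e1 : (A.per *ᵥ v) ⬝ᵥ (J' *ᵥ (A.per *ᵥ v')) = v ⬝ᵥ ((A.perᵀ * J' * A.per) *ᵥ v') := by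
        rw [← Matrix.mulVec_mulVec, ← Matrix.mulVec_mulVec, Matrix.dotProduct_mulVec v,
          Matrix.vecMul_transpose]
      have e2 : v ⬝ᵥ (Emat e B *ᵥ v') = ev s (ξ, ξ') := by
        have e3 : v ⬝ᵥ (Emat e B *ᵥ v') =
            ∑ s' : SE E, ev s' (ξ, ξ') * chi B v s' * chi B v' (cjS s') := by
          have e4 : ∀ s' : SE E, ev s' (ξ, ξ') * chi B v s' * chi B v' (cjS s') =
              ∑ j, ∑ k, v j * v' k * (ev s' (ξ, ξ') * ev s' (B j) * ev (cjS s') (B k)) := by
            intro s'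
            unfold chi
            rw [mul_assoc, Finset.sum_mul_sum, Finset.mul_sum]
            refine Finset.sum_congr rfl fun j _ => ?_
            rw [Finset.mul_sum]
            exact Finset.sum_congr rfl fun k _ => by ring
          rw [Finset.sum_congr rfl fun s' _ => e4 s', Finset.sum_comm, dotProduct]
          refine Finset.sum_congr rfl fun j _ => ?_
          rw [Finset.sum_comm, Matrix.mulVec, dotProduct, Finset.mul_sum]
          refine Finset.sum_congr rfl fun k _ => ?_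
          rw [← Finset.mul_sum, ← eSum_formula K ξ ξ' (B j) (B k)]
          show v j * (((e (B j) (B k) : ℚ) : ℂ) * v' k) = _
          ring
        rw [e3, Finset.sum_eq_single s]
        · rw [h1, hv', if_pos rfl]; ring
        · intro s' _ hne
          rw [h0 s' hne]; ring
        · intro h; exact absurd (Finset.mem_univ _) h
      rw [e1, hLegE, Matrix.smul_mulVec, dotProduct_smul, e2, smul_eq_mul]
    set D : ℂ := a ⬝ᵥ (J' *ᵥ a') with hD
    have hDa : Alg D := by
      rw [hD, dotProduct]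
      exact alg_sum _ _ fun k _ => (ha k).mul (alg_mulVec _ _ hJ' ha' k)
    have hcs : cS (cjS s) ≠ 0 := by
      obtain ⟨i, hi⟩ := hTsi _ hs'
      rw [← hi]; exact hc0 i
    have hrel : t * (cS (cjS s) * D) = tpi * ev s (ξ, ξ') := by
      rw [← hpair, hta, hta', Matrix.mulVec_smul, dotProduct_smul, smul_dotProduct, smul_eq_mul,
        smul_eq_mul, ← hD]
      ring
    have hxi : ev s (ξ, ξ') ≠ 0 := by
      rcases s with φ | φ
      · intro h
        have h2 := hpos (cj φ) hs'
        have h3 : φ ξ = 0 := h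
        have h4 : cj φ ξ = (starRingEnd ℂ) (φ ξ) := rfl
        rw [h4, h3, map_zero] at h2
        simp at h2
      · intro h
        have h2 := hpos' (cj φ) hs'
        have h3 : φ ξ' = 0 := h
        have h4 : cj φ ξ' = (starRingEnd ℂ) (φ ξ') := rfl
        rw [h4, h3, map_zero] at h2
        simp at h2
    have hD0 : D ≠ 0 := by
      intro h
      rw [h, mul_zero, mul_zero] at hrel
      exact (mul_ne_zero tpi_ne_zero hxi) hrel.symm
    refine ⟨(ev s (ξ, ξ') / D) • a, fun j => ?_, ?_, ?_⟩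
    · rw [Pi.smul_apply, smul_eq_mul, div_eq_mul_inv]
      exact ((ev_alg s _).mul hDa.inv).mul (ha j)
    · rw [hta, smul_smul]
      congr 1
      field_simp
      linear_combination hrel
    · funext i
      have h2 := congrFun hpra i
      show (ev s (ξ, ξ') / D) * a (Sum.inl i) = 0
      have h3 : a (Sum.inl i) = 0 := h2
      rw [h3, mul_zero]
  refine ⟨n, A, B, ?_, ?_⟩
  · intro φ v h1 h2 h3
    have g1 : chi B v (Sum.inl φ) = 1 := h1
    have g0 : ∀ s', s' ≠ Sum.inl φ → chi B v s' = 0 := by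
      intro s' hs'
      rcases s' with ψ | ψ
      · exact h2 ψ (fun h => hs' (by rw [h]))
      · exact h3 ψ
    by_cases hφ : φ ∈ Φ
    · obtain ⟨a, ha, hpa, hpra⟩ := key1 (Sum.inl φ) v g1 g0 hφ
      refine ⟨a, ha, ?_, ⟨fun _ => hpra, fun _ => hφ⟩⟩
      rw [hpa]
      unfold ext
      rw [if_pos hφ]
      rfl
    · obtain ⟨a, ha, hpa, hpra⟩ := key2 (Sum.inl φ) v g1 g0 hφ
      refine ⟨a, ha, ?_, ⟨fun h => absurd h hφ, fun h => absurd hpra h⟩⟩
      rw [hpa]
      unfold ext
      rw [if_neg hφ]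
      rfl
  · intro φ v h1 h2 h3
    have g1 : chi B v (Sum.inr φ) = 1 := h1
    have g0 : ∀ s', s' ≠ Sum.inr φ → chi B v s' = 0 := by
      intro s' hs'
      rcases s' with ψ | ψ
      · exact h3 ψ
      · exact h2 ψ (fun h => hs' (by rw [h]))
    by_cases hφ : φ ∈ Φ'
    · obtain ⟨a, ha, hpa, hpra⟩ := key1 (Sum.inr φ) v g1 g0 hφ
      refine ⟨a, ha, ?_, ⟨fun _ => hpra, fun _ => hφ⟩⟩
      rw [hpa]
      unfold ext
      rw [if_pos hφ]
      rfl
    · obtain ⟨a, ha, hpa, hpra⟩ := key2 (Sum.inr φ) v g1 g0 hφ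
      refine ⟨a, ha, ?_, ⟨fun h => absurd h hφ, fun h => absurd hpra h⟩⟩
      rw [hpa]
      unfold ext
      rw [if_neg hφ]
      rfl

end

end Pool.Agent.SPG
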