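import Pool.Agent.SPG.Stmts

/-!
# SPG, module ADDE: all relations between the types follow from the relations with four terms
-/

open scoped BigOperators

namespace Pool.Agent.SPG

open Pool.Agent.DRB
open Pool.Agent.SPF (Alg CMF IsType cj zT IsPStr SympBasis SS TT SDat IsTh)

noncomputable section

namespace ADDE_

section comb

set_option linter.unusedSectionVars false

variable {X : Type} [Fintype X] [DecidableEq X] {M : Type} [AddCommGroup M]

/-- abstract types -/
def IsT (c : X → X) (Φ : Finset X) : Prop := ∀ x, x ∈ Φ ↔ c x ∉ Φ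

/-- flip the elements of `S` in `Φ₀` -/
def flip (c : X → X) (Φ₀ S : Finset X) : Finset X := (Φ₀ \ S) ∪ (S.image c)

variable {c : X → X}

theorem mem_flip (hc : ∀ x, c (c x) = x) (Φ₀ S : Finset X) (x : X) :
    x ∈ flip c Φ₀ S ↔ (x ∈ Φ₀ ∧ x ∉ S) ∨ c x ∈ S := by
  unfold flip
  rw [Finset.mem_union, Finset.mem_sdiff, Finset.mem_image]
  constructor
  · rintro (h | ⟨y, hy, rfl⟩)
    · exact Or.inl h
    · right; rwa [hc]
  · rintro (h | h)
    · exact Or.inl h
    · exact Or.inr ⟨c x, h, hc x⟩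

theorem flip_isT (hc : ∀ x, c (c x) = x) {Φ₀ S : Finset X} (h0 : IsT c Φ₀) (hS : S ⊆ Φ₀) :
    IsT c (flip c Φ₀ S) := by
  intro x
  rw [mem_flip hc, mem_flip hc, hc]
  have h1 := h0 x
  have h2 : x ∈ S → x ∈ Φ₀ := fun h => hS h
  have h3 : c x ∈ S → c x ∈ Φ₀ := fun h => hS h
  tauto

theorem flip_of (hc : ∀ x, c (c x) = x) {Φ₀ Φ : Finset X} (h0 : IsT c Φ₀) (h : IsT c Φ) :
    flip c Φ₀ (Φ₀ \ Φ) = Φ := by
  ext x
  rw [mem_flip hc, Finset.mem_sdiff, Finset.mem_sdiff]
  have h1 := h0 x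
  have h2 := h x
  tauto

theorem flip_empty (hc : ∀ x, c (c x) = x) (Φ₀ : Finset X) : flip c Φ₀ ∅ = Φ₀ := by
  ext x
  rw [mem_flip hc]
  simp

/-- The expansion of `f` in terms of the elementary flips. -/
theorem expand (hc : ∀ x, c (c x) = x) (f : Finset X → M)
    (four : ∀ Φ₁ Φ₂ Φ₃ Φ₄, IsT c Φ₁ → IsT c Φ₂ → IsT c Φ₃ → IsT c Φ₄ →
      (∀ φ, (if φ ∈ Φ₁ then 1 else 0) + (if φ ∈ Φ₂ then 1 else 0) =
        (if φ ∈ Φ₃ then 1 else 0) + (if φ ∈ Φ₄ then (1 : ℕ) else 0)) →
      f Φ₁ + f Φ₂ = f Φ₃ + f Φ₄) {Φ₀ : Finset X} (h0 : IsT c Φ₀) (S : Finset X) :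
    S ⊆ Φ₀ → f (flip c Φ₀ S) = f Φ₀ + ∑ x ∈ S, (f (flip c Φ₀ {x}) - f Φ₀) := by
  induction S using Finset.induction_on with
  | empty =>
    intro _
    rw [flip_empty hc, Finset.sum_empty, add_zero]
  | insert x S hx ih =>
    intro hS
    have hxΦ : x ∈ Φ₀ := hS (Finset.mem_insert_self x S)
    have hSΦ : S ⊆ Φ₀ := fun y hy => hS (Finset.mem_insert_of_mem hy)
    have hx' : ({x} : Finset X) ⊆ Φ₀ := Finset.singleton_subset_iff.2 hxΦ
    have h4 := four (flip c Φ₀ (insert x S)) Φ₀ (flip c Φ₀ S) (flip c Φ₀ {x})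
      (flip_isT hc h0 hS) h0 (flip_isT hc h0 hSΦ) (flip_isT hc h0 hx') (by
        intro y
        have e1 := mem_flip hc Φ₀ (insert x S) y
        have e2 := mem_flip hc Φ₀ S y
        have e3 := mem_flip hc Φ₀ {x} y
        rw [Finset.mem_insert, Finset.mem_insert] at e1
        rw [Finset.mem_singleton, Finset.mem_singleton] at e3
        by_cases a4 : y = x
        · have hy : y ∈ Φ₀ := by rw [a4]; exact hxΦ
          have hyS : y ∉ S := by rw [a4]; exact hx
          have hcy : c y ∉ Φ₀ := (h0 y).1 hy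
          have hcyS : c y ∉ S := fun h => hcy (hSΦ h)
          have hcyx : c y ≠ x := fun h => hcy (by rw [h]; exact hxΦ)
          have b1 : y ∉ flip c Φ₀ (insert x S) := by
            rw [e1]
            rintro (⟨-, h⟩ | h | h)
            · exact h (Or.inl a4)
            · exact hcyx h
            · exact hcyS h
          have b2 : y ∈ flip c Φ₀ S := by rw [e2]; exact Or.inl ⟨hy, hyS⟩
          have b3 : y ∉ flip c Φ₀ {x} := by
            rw [e3]
            rintro (⟨-, h⟩ | h)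
            · exact h a4
            · exact hcyx h
          rw [if_neg b1, if_pos hy, if_pos b2, if_neg b3]
        · by_cases a5 : c y = x
          · have hcy : c y ∈ Φ₀ := by rw [a5]; exact hxΦ
            have hy : y ∉ Φ₀ := fun h => (h0 y).1 h hcy
            have hyS : y ∉ S := fun h => hy (hSΦ h)
            have hcyS : c y ∉ S := by rw [a5]; exact hx
            have b1 : y ∈ flip c Φ₀ (insert x S) := by rw [e1]; exact Or.inr (Or.inl a5)
            have b2 : y ∉ flip c Φ₀ S := by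
              rw [e2]
              rintro (⟨h, -⟩ | h)
              · exact hy h
              · exact hcyS h
            have b3 : y ∈ flip c Φ₀ {x} := by rw [e3]; exact Or.inr a5
            rw [if_pos b1, if_neg hy, if_neg b2, if_pos b3]
          · have b1 : y ∈ flip c Φ₀ (insert x S) ↔ y ∈ flip c Φ₀ S := by
              rw [e1, e2]
              constructor
              · rintro (⟨h, h'⟩ | h | h)
                · exact Or.inl ⟨h, fun h'' => h' (Or.inr h'')⟩
                · exact absurd h a5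
                · exact Or.inr h
              · rintro (⟨h, h'⟩ | h)
                · exact Or.inl ⟨h, fun h'' => h''.elim a4 h'⟩
                · exact Or.inr (Or.inr h)
            have b3 : y ∈ flip c Φ₀ {x} ↔ y ∈ Φ₀ := by
              rw [e3]
              constructor
              · rintro (⟨h, -⟩ | h)
                · exact h
                · exact absurd h a5
              · intro h
                exact Or.inl ⟨h, a4⟩
            by_cases c1 : y ∈ flip c Φ₀ S
            · rw [if_pos (b1.2 c1), if_pos c1]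
              by_cases c2 : y ∈ Φ₀
              · rw [if_pos c2, if_pos (b3.2 c2)]
              · rw [if_neg c2, if_neg (fun h => c2 (b3.1 h))]
            · rw [if_neg (fun h => c1 (b1.1 h)), if_neg c1]
              by_cases c2 : y ∈ Φ₀
              · rw [if_pos c2, if_pos (b3.2 c2)]
              · rw [if_neg c2, if_neg (fun h => c2 (b3.1 h))])
    rw [Finset.sum_insert hx]
    have h5 := ih hSΦ
    have h6 : f (flip c Φ₀ (insert x S)) = f (flip c Φ₀ S) + f (flip c Φ₀ {x}) - f Φ₀ := by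
      rw [← h4]; abel
    rw [h6, h5]
    abel

/-- All relations. -/
theorem all [Nonempty X] (hc : ∀ x, c (c x) = x) (f : Finset X → M) (T : M)
    (four : ∀ Φ₁ Φ₂ Φ₃ Φ₄, IsT c Φ₁ → IsT c Φ₂ → IsT c Φ₃ → IsT c Φ₄ →
      (∀ φ, (if φ ∈ Φ₁ then 1 else 0) + (if φ ∈ Φ₂ then 1 else 0) =
        (if φ ∈ Φ₃ then 1 else 0) + (if φ ∈ Φ₄ then (1 : ℕ) else 0)) →
      f Φ₁ + f Φ₂ = f Φ₃ + f Φ₄)
    (twi : ∀ Φ Φ', IsT c Φ → (∀ φ, φ ∈ Φ' ↔ φ ∉ Φ) → f Φ + f Φ' = T)
    (κ : Type) [Fintype κ] (Φ : κ → Finset X) (a : κ → ℤ) (s : ℤ) (hΦ : ∀ k, IsT c (Φ k))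
    (hs : ∀ φ, (∑ k, if φ ∈ Φ k then a k else 0) = s) : ∑ k, a k • f (Φ k) = s • T := by
  classical
  rcases isEmpty_or_nonempty κ with hκ | ⟨⟨k₀⟩⟩
  · obtain ⟨x⟩ := (inferInstance : Nonempty X)
    have h1 := hs x
    rw [Finset.univ_eq_empty, Finset.sum_empty] at h1
    rw [Finset.univ_eq_empty, Finset.sum_empty, ← h1, zero_smul]
  · set Φ₀ := Φ k₀ with hΦ₀
    have h0 : IsT c Φ₀ := hΦ k₀
    set D : X → M := fun x => f (flip c Φ₀ {x}) - f Φ₀ with hD
    have h1 : ∀ k, f (Φ k) = f Φ₀ + ∑ x ∈ Φ₀, (if c x ∈ Φ k then (1 : ℤ) else 0) • D x := by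
      intro k
      have h2 := expand hc f four h0 (Φ₀ \ Φ k) Finset.sdiff_subset
      rw [flip_of hc h0 (hΦ k)] at h2
      rw [h2]
      congr 1
      have h3 : Φ₀ \ Φ k = Φ₀.filter (fun x => c x ∈ Φ k) := by
        ext x
        rw [Finset.mem_sdiff, Finset.mem_filter]
        have h4 := hΦ k x
        tauto
      rw [h3, Finset.sum_filter]
      refine Finset.sum_congr rfl (fun x _ => ?_)
      split_ifs
      · rw [one_smul]
      · rw [zero_smul]
    have h2 : ∑ k, a k • f (Φ k) = (∑ k, a k) • f Φ₀ +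
        ∑ x ∈ Φ₀, (∑ k, if c x ∈ Φ k then a k else 0) • D x := by
      have e1 : ∀ k ∈ Finset.univ, a k • f (Φ k) = a k • f Φ₀ +
          ∑ x ∈ Φ₀, (if c x ∈ Φ k then a k else 0) • D x := by
        intro k _
        rw [h1 k, smul_add, Finset.smul_sum]
        congr 1
        refine Finset.sum_congr rfl (fun x _ => ?_)
        rw [smul_smul]
        split_ifs
        · rw [mul_one]
        · rw [mul_zero]
      rw [Finset.sum_congr rfl e1, Finset.sum_add_distrib, ← Finset.sum_smul, Finset.sum_comm]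
      congr 1
      refine Finset.sum_congr rfl (fun x _ => ?_)
      rw [Finset.sum_smul]
    obtain ⟨x₀, hx₀⟩ : ∃ x, x ∈ Φ₀ := by
      obtain ⟨x⟩ := (inferInstance : Nonempty X)
      by_cases hx : x ∈ Φ₀
      · exact ⟨x, hx⟩
      · refine ⟨c x, ?_⟩
        by_contra h
        exact hx ((h0 x).2 h)
    have h3 : ∑ k, a k = 2 * s := by
      have e1 := hs x₀
      have e2 := hs (c x₀)
      have e3 : ∑ k, a k = (∑ k, if x₀ ∈ Φ k then a k else 0) +
          ∑ k, if c x₀ ∈ Φ k then a k else 0 := by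
        rw [← Finset.sum_add_distrib]
        refine Finset.sum_congr rfl (fun k _ => ?_)
        have e4 := hΦ k x₀
        by_cases e5 : x₀ ∈ Φ k
        · rw [if_pos e5, if_neg (e4.1 e5), add_zero]
        · rw [if_neg e5, if_pos (by by_contra h; exact e5 (e4.2 h)), zero_add]
      rw [e3, e1, e2]; ring
    have h4 : ∑ x ∈ Φ₀, (∑ k, if c x ∈ Φ k then a k else 0) • D x = s • ∑ x ∈ Φ₀, D x := by
      rw [Finset.smul_sum]
      exact Finset.sum_congr rfl (fun x _ => by rw [hs (c x)])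
    have h5 : f Φ₀ + f (flip c Φ₀ Φ₀) = T := by
      apply twi Φ₀ _ h0
      intro x
      rw [mem_flip hc]
      have := h0 x
      tauto
    have h6 := expand hc f four h0 Φ₀ (Finset.Subset.refl _)
    rw [h2, h3, h4, ← h5, h6, hD]
    simp only [smul_add, mul_smul, two_smul, ofNat_smul_eq_nsmul]
    abel

end comb

/-- the group of the nonzero algebraic numbers -/
def H : Subgroup ℂˣ where
  carrier := {u | Alg (u : ℂ)}
  mul_mem' := by
    intro a b ha hb
    change Alg ((a * b : ℂˣ) : ℂ)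
    rw [Units.val_mul]
    exact IsAlgebraic.mul ha hb
  one_mem' := by
    change Alg ((1 : ℂˣ) : ℂ)
    rw [Units.val_one]
    exact isAlgebraic_one
  inv_mem' := by
    intro a ha
    change Alg ((a⁻¹ : ℂˣ) : ℂ)
    rw [Units.val_inv_eq_inv_val]
    exact IsAlgebraic.inv ha

/-- the class of a complex number modulo algebraic numbers -/
def q (z : ℂ) (hz : z ≠ 0) : Additive (ℂˣ ⧸ H) := Additive.ofMul (QuotientGroup.mk (Units.mk0 z hz))

theorem q_mul (z w : ℂ) (hz : z ≠ 0) (hw : w ≠ 0) :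
    q z hz + q w hw = q (z * w) (mul_ne_zero hz hw) := by
  unfold q
  rw [← ofMul_mul, ← QuotientGroup.mk_mul]
  congr 2
  exact Units.ext (by rw [Units.val_mul, Units.val_mk0, Units.val_mk0, Units.val_mk0])

theorem q_eq (z w : ℂ) (hz : z ≠ 0) (hw : w ≠ 0) : q z hz = q w hw ↔ Alg (z / w) := by
  unfold q
  rw [Additive.ofMul.injective.eq_iff, eq_comm, QuotientGroup.eq]
  have h1 : (((Units.mk0 w hw)⁻¹ * Units.mk0 z hz : ℂˣ) : ℂ) = z / w := by
    rw [Units.val_mul, Units.val_inv_eq_inv_val, Units.val_mk0, Units.val_mk0, div_eq_inv_mul]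
  change Alg _ ↔ _
  rw [h1]

theorem q_zpow (z : ℂ) (hz : z ≠ 0) (n : ℤ) : n • q z hz = q (z ^ n) (zpow_ne_zero n hz) := by
  unfold q
  rw [← ofMul_zpow, ← QuotientGroup.mk_zpow]
  congr 2
  exact Units.ext (by rw [Units.val_zpow_eq_zpow_val, Units.val_mk0, Units.val_mk0])

theorem q_prod {κ : Type} (S : Finset κ) (z : κ → ℂ) (hz : ∀ k, z k ≠ 0) :
    ∑ k ∈ S, q (z k) (hz k) = q (∏ k ∈ S, z k) (Finset.prod_ne_zero_iff.2 fun k _ => hz k) := by
  classical
  induction S using Finset.induction_on with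
  | empty =>
    rw [Finset.sum_empty]
    unfold q
    have h1 : Units.mk0 (∏ k ∈ (∅ : Finset κ), z k)
        (Finset.prod_ne_zero_iff.2 fun k _ => hz k) = 1 :=
      Units.ext (by rw [Units.val_mk0, Finset.prod_empty, Units.val_one])
    rw [h1, QuotientGroup.mk_one, ofMul_one]
  | insert k S hk ih =>
    rw [Finset.sum_insert hk, ih, q_mul]
    congr 1
    rw [Finset.prod_insert hk]

end ADDE_

open ADDE_ in
theorem adde_proof : Stmt_ADDE := by
  intro E _ _ K Θ hT κ _ Φ a s hΦ hs φ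
  classical
  have hcc : ∀ x : E →+* ℂ, cj (cj x) = x := by
    intro x
    ext y
    simp [cj]
  let f : Finset (E →+* ℂ) → Additive (ℂˣ ⧸ H) := fun Φ =>
    if h : IsType Φ then q (Θ Φ φ) (hT.nz Φ h φ) else 0
  have hf : ∀ Φ (h : IsType Φ), f Φ = q (Θ Φ φ) (hT.nz Φ h φ) := fun Φ h => dif_pos h
  have hne : Nonempty (E →+* ℂ) := by infer_instance
  have hall := ADDE_.all (X := E →+* ℂ) (c := cj) hcc f (q tpi tpi_ne_zero) (by
    intro Φ₁ Φ₂ Φ₃ Φ₄ h1 h2 h3 h4 h5
    rw [hf Φ₁ h1, hf Φ₂ h2, hf Φ₃ h3, hf Φ₄ h4, q_mul, q_mul, q_eq]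
    exact hT.four Φ₁ Φ₂ Φ₃ Φ₄ h1 h2 h3 h4 h5 φ) (by
    intro Ψ Ψ' h1 h2
    have h3 : IsType Ψ' := by
      intro x
      rw [h2 x, h2 (cj x), not_not, h1 x, not_not]
    rw [hf Ψ h1, hf Ψ' h3, q_mul, q_eq]
    exact hT.twi Ψ Ψ' h1 h2 φ) κ Φ a s hΦ hs
  have h1 : ∑ k, a k • f (Φ k) =
      ∑ k, q (Θ (Φ k) φ ^ a k) (zpow_ne_zero _ (hT.nz _ (hΦ k) φ)) := by
    refine Finset.sum_congr rfl (fun k _ => ?_)
    rw [hf _ (hΦ k), q_zpow]
  rw [h1, q_prod Finset.univ (fun k => Θ (Φ k) φ ^ a k)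
    (fun k => zpow_ne_zero _ (hT.nz _ (hΦ k) φ)), q_zpow, q_eq] at hall
  exact hall

end

end Pool.Agent.SPG
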