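import Pool.Agent.SPG.Stmts
import Pool.Agent.SPF.OutStmts

open scoped BigOperators Topology
open Matrix

namespace Pool.Agent.SPG

open Pool.Agent.DRB
open Pool.Agent.SPF (Alg CMF IsType cj zT IsPStr SympBasis SS TT SDat IsTh)

noncomputable section

namespace CMP_

theorem pr_per {g : ℕ} (A : AbVar g) (v : Idx g → ℂ) (k : Fin g) :
    pr (A.per *ᵥ v) k = ∑ j, v j * A.lat j k := by
  simp only [pr, Matrix.mulVec, dotProduct, AbVar.per, Matrix.of_apply, Sum.elim_inl]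
  exact Finset.sum_congr rfl fun j _ => mul_comm _ _

theorem alg_of_mul {x a : ℂ} (ha : Alg a) (ha0 : a ≠ 0) (h : Alg (x * a)) : Alg x := by
  have h1 : x = (x * a) * a⁻¹ := by
    field_simp
  rw [h1]
  exact h.mul ha.inv

end CMP_

theorem cmp_proof (hABV : SPF.Stmt_ABV) (hHM1 : SPF.Stmt_HM1) (hRLB : SPF.Stmt_RLB) : Stmt_CMP := by
  classical
  intro E _ _ K Φ ξ c hΦ hS g A u a P hu hP ha hper htyp φ₀ hφ₀
  obtain ⟨-, -, hSS⟩ := hS
  let n : ℕ := Fintype.card {φ // φ ∈ Φ}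
  let f : {φ // φ ∈ Φ} ≃ Fin n := Fintype.equivFin _
  let τ : Fin n → (E →+* ℂ) := fun i => (f.symm i).1
  have hSS' : SS (K.e ξ) (zT τ) (fun i => c (τ i)) := by
    refine hRLB E _ _ f (K.e ξ) _ (zT τ) _ (fun i => c (τ i)) (fun x i => ?_) (fun i => ?_) hSS
    · simp [zT, τ]
    · simp [τ]
  obtain ⟨hc, B, L, F, hB, hL, -, -, -⟩ := id hSS'
  obtain ⟨A0, hA0⟩ := hABV n E (K.e ξ) (zT τ) (fun i => c (τ i)) hSS' B L hB hL
  have hr : ∀ j, ∃ r : Idx g → ℚ, ∀ k, ∑ φ : E →+* ℂ, φ (B j) * u φ k = r k := by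
    intro j
    choose r hr using hu (B j)
    exact ⟨r, hr⟩
  choose r hr using hr
  let M : Matrix (Fin g) (Fin n) ℂ := Matrix.of fun k i => pr (A.per *ᵥ u (τ i)) k / c (τ i)
  have hzero : ∀ φ, φ ∉ Φ → pr (A.per *ᵥ u φ) = 0 := by
    intro φ hφ
    have h1 : pr (a φ) = 0 := by
      by_contra hcon
      exact hφ ((htyp φ).2 hcon)
    funext k
    rw [hper φ]
    have := congrFun h1 k
    simp only [pr, Pi.smul_apply, Pi.zero_apply, smul_eq_mul] at this ⊢
    rw [this, mul_zero]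
  have hM := hHM1 n g A0 A M (Matrix.of fun k j => r j k) (by
    intro j
    funext k
    have h1 : M.mulVec (A0.lat j) k = ∑ i, pr (A.per *ᵥ u (τ i)) k * (τ i) (B j) := by
      simp only [Matrix.mulVec, dotProduct, M, Matrix.of_apply]
      refine Finset.sum_congr rfl fun i _ => ?_
      rw [hA0]
      have h2 : (zT τ) (B j) i = τ i (B j) := rfl
      rw [h2]
      have h3 := hc i
      beta_reduce at h3
      field_simp
    have h2 : ∑ i, pr (A.per *ᵥ u (τ i)) k * (τ i) (B j) =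
        ∑ φ : E →+* ℂ, pr (A.per *ᵥ u φ) k * φ (B j) := by
      rw [← f.sum_comp]
      have h3 : ∀ i : {φ // φ ∈ Φ}, pr (A.per *ᵥ u (τ (f i))) k * (τ (f i)) (B j) =
          pr (A.per *ᵥ u i.1) k * i.1 (B j) := by
        intro i
        simp [τ]
      rw [Finset.sum_congr rfl fun i _ => h3 i]
      rw [← Finset.sum_subtype (F := inferInstance) Φ (fun x => Iff.rfl)
        (fun φ => pr (A.per *ᵥ u φ) k * φ (B j))]
      refine Finset.sum_subset (Finset.subset_univ _) fun φ _ hφ => ?_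
      rw [hzero φ hφ, Pi.zero_apply, zero_mul]
    rw [h1, h2]
    simp only [CMP_.pr_per, Finset.sum_apply, Pi.smul_apply, smul_eq_mul, Finset.sum_mul,
      Matrix.of_apply]
    rw [Finset.sum_comm]
    refine Finset.sum_congr rfl fun l _ => ?_
    rw [← hr j l, Finset.sum_mul]
    refine Finset.sum_congr rfl fun φ _ => ?_
    ring)
  obtain ⟨k, hk⟩ : ∃ k, pr (a φ₀) k ≠ 0 := by
    by_contra hcon
    push Not at hcon
    exact (htyp φ₀).1 hφ₀ (funext hcon)
  have h1 := hM k (f ⟨φ₀, hφ₀⟩)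
  have h2 : M k (f ⟨φ₀, hφ₀⟩) = P φ₀ / c φ₀ * a φ₀ (Sum.inl k) := by
    simp only [M, Matrix.of_apply, τ, Equiv.symm_apply_apply]
    rw [hper φ₀]
    simp only [pr, Pi.smul_apply, smul_eq_mul]
    ring
  rw [h2] at h1
  exact CMP_.alg_of_mul (ha φ₀ (Sum.inl k)) hk h1

end

end Pool.Agent.SPG
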