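import Pool.Agent.SPG.Stmts
import Pool.Agent.DRB.Aut1

/-! Module EXTA: embeddings of a number field in the complex numbers extend to automorphisms. -/

set_option autoImplicit false

open scoped BigOperators Topology
open Matrix

namespace Pool.Agent.SPG

open Pool.Agent.DRB

theorem exta_proof : Stmt_EXTA := by
  intro L hL φ
  let F := algebraicClosure ℚ ℂ
  have hcl : IsAlgClosure ℚ F := algebraicClosure.isAlgClosure ℚ ℂ
  have hG : IsGalois ℚ F := IsAlgClosure.isGalois ℚ F
  have hint : ∀ z : L, IsAlgebraic ℚ z := fun z => Algebra.IsAlgebraic.isAlgebraic z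
  have hLF : L ≤ F := by
    intro z hz
    have h1 := (hint ⟨z, hz⟩).algebraMap (A := ℂ)
    exact mem_algebraicClosure_iff.2 h1
  have hφF : ∀ z : L, φ z ∈ F := by
    intro z
    have h1 : IsAlgebraic ℚ ((RingHom.toRatAlgHom φ) z) := IsAlgebraic.algHom (RingHom.toRatAlgHom φ) (hint z)
    exact mem_algebraicClosure_iff.2 h1
  let φ' : L →ₐ[ℚ] F := (RingHom.toRatAlgHom φ).codRestrict F.toSubalgebra hφF
  let _ : Algebra L F := (IntermediateField.inclusion hLF).toRingHom.toAlgebra
  have _ : IsScalarTower ℚ L F := IsScalarTower.of_algebraMap_eq (fun x =>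
    ((IntermediateField.inclusion hLF).commutes x).symm)
  let ψ : F →ₐ[ℚ] F := AlgHom.liftNormal φ' F
  have hψ : ∀ z : L, ψ (algebraMap L F z) = φ' z := fun z => AlgHom.liftNormal_commutes φ' F z
  have hbij : Function.Bijective ψ := Algebra.IsAlgebraic.algHom_bijective ψ
  let τ : F ≃+* F := (AlgEquiv.ofBijective ψ hbij).toRingEquiv
  obtain ⟨ι, v, hv⟩ := exists_isTranscendenceBasis' F ℂ
  obtain ⟨σ, hσ, -⟩ := Aut1X.ext_aut v hv τ (Equiv.refl ι)
  obtain ⟨σ', hσ'⟩ := Aut1X.to_alg σ
  refine ⟨σ', fun z => ?_⟩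
  rw [hσ']
  have h3 := hσ (algebraMap L F z)
  have h4 : τ (algebraMap L F z) = φ' z := hψ z
  rw [h4] at h3
  exact h3

end Pool.Agent.SPG
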