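import Pool.Agent.SPG.Stmts
import Pool.Agent.DRB.H53

open scoped BigOperators Topology
open Matrix

namespace Pool.Agent.SPG

open Pool.Agent.DRB

noncomputable section

namespace H54A_

theorem prod2 (k : ℕ) (f : Fin k → ℂ) (hf : ∀ r, f r ≠ 0) (c : ℤ) (i i' : Fin k) :
    ∏ r, f r ^ (c * ((if r = i then (1 : ℤ) else 0) - (if r = i' then (1 : ℤ) else 0))) =
    (f i * (f i')⁻¹) ^ c := by
  have h : ∀ r, f r ^ (c * ((if r = i then (1 : ℤ) else 0) - (if r = i' then (1 : ℤ) else 0))) =
      ((f r ^ (if r = i then (1 : ℤ) else 0)) * (f r ^ (if r = i' then (1 : ℤ) else 0))⁻¹) ^ c := by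
    intro r
    rw [mul_comm c, _root_.zpow_mul, zpow_sub₀ (hf r)]
    rfl
  simp only [h]
  rw [Finset.prod_zpow, Finset.prod_mul_distrib, Finset.prod_inv_distrib,
      H53X.prod_ite, H53X.prod_ite]

end H54A_

open H5X H53X H54A_ in
theorem h54a_proof (hFinX : Stmt_FinX) (hForm : Stmt_Form)
    (hAut2 : Stmt_Aut2) (hGb1 : Stmt_Gb1) (hGb4 : Stmt_Gb4) (hGal : Stmt_Gal3)
    (hRos : Stmt_Ros) : Stmt_H54A := by
  classical
  intro g A hA d n M hn0 hT
  have hT' : InT d n M := hT
  have hcc : ∀ p : Matrix (Idx g) (Idx g) ℂ, cc (cc p) = p := by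
    intro p
    ext a b
    simp [cc]
  have hbar0 : ∀ i, ∃ j, cc (d.p i) = d.p j := fun i =>
    (d.comp _).1 (hGal g A _ (d.isComp i)).2.1
  choose bar hbar using hbar0
  have hS : IsS d cj bar := fun i => hbar i
  have hbb : ∀ i, bar (bar i) = i := by
    intro i
    apply d.p_injective
    rw [← hbar, ← hbar, hcc]
  have hL0 : ((L d : ℕ) : ℤ) ≠ 0 := by
    have := L_pos d
    omega
  -- a relation of the special form is impossible
  have hno : ∀ (i : Fin d.k) (c : ℤ), c ≠ 0 → i ≠ bar i → d.m i = 2 →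
      (∀ q ∈ Gam A, ((dl d q i * (dl d q (bar i))⁻¹) ^ c) ^ L d = 1) → False := by
    intro i c hc hij hmi hrel
    obtain ⟨Ω, Ω', hΩ1, hΩ2, hΩ⟩ := (hForm g A d).2 i (bar i) (hbar i).symm
    obtain ⟨J, J', hJ1, hJ2⟩ := existsJ hmi
    have hfin : {Y | ∃ q ∈ Gam A, Y = d.X q.1.val i * (J * Ω) *
          d.X (q.1⁻¹).val (bar i)}.Finite := by
      have hf := (fin_zpow (c := 2 * c * L d) (mul_ne_zero (mul_ne_zero two_ne_zero hc) hL0)).image
        (fun r : ℂ => r • (J * Ω))
      refine hf.subset ?_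
      rintro Y ⟨q, hq, rfl⟩
      refine ⟨dl d q i * (q.2.val)⁻¹, ?_, ?_⟩
      · have h1 := hrel q hq
        have h2 := dl_conj d hGb1 hForm hq (hbar i).symm
        rw [hmi] at h2
        have n1 := dl_ne d hGb1 hq i
        have n2 := dl_ne d hGb1 hq (bar i)
        have n5 : q.2.val ≠ 0 := q.2.ne_zero
        have h4 : dl d q i * (dl d q (bar i))⁻¹ =
            (dl d q i * (q.2.val)⁻¹) ^ (2 : ℤ) := by
          have e1 : dl d q (bar i) = q.2.val ^ 2 / dl d q i := by
            rw [← h2]
            field_simp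
          rw [e1, show (2 : ℤ) = ((2 : ℕ) : ℤ) by norm_num, zpow_natCast]
          field_simp
        rw [h4] at h1
        change (dl d q i * (q.2.val)⁻¹) ^ (2 * c * L d) = 1
        rw [_root_.zpow_mul, _root_.zpow_mul, zpow_natCast]
        exact h1
      · change (dl d q i * (q.2.val)⁻¹) • (J * Ω) = _
        have hcm := comm_gam hGb1 hq
        have h3 := hΩ q.1.val q.2.val hcm (hGb1 g A q hq).2
        have h5 := (d.X_inv hcm (bar i)).1
        have n5 : q.2.val ≠ 0 := q.2.ne_zero
        have h6 : Ω * d.X (q.1⁻¹).val (bar i) = (q.2.val)⁻¹ • ((d.X q.1.val i)ᵀ * Ω) := by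
          have h7 : (d.X q.1.val i)ᵀ * Ω = q.2.val • (Ω * d.X (q.1⁻¹).val (bar i)) := by
            rw [← Matrix.smul_mul, ← h3, Matrix.mul_assoc _ _ (d.X (q.1⁻¹).val (bar i)), h5,
              Matrix.mul_one]
          rw [h7, smul_smul, inv_mul_cancel₀ n5, one_smul]
        have h8 : d.X q.1.val i * (J * Ω) * d.X (q.1⁻¹).val (bar i) =
            d.X q.1.val i * J * (Ω * d.X (q.1⁻¹).val (bar i)) := by
          simp only [Matrix.mul_assoc]
        rw [h8, h6, Matrix.mul_smul, ← Matrix.mul_assoc, hJ2, Matrix.smul_mul, smul_smul, mul_comm]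
        rfl
    have h0 := (hFinX g A d).1 i (bar i) hij _ hfin
    have h1 : Ω = 0 := by
      have h2 : J' * (J * Ω) = 0 := by rw [h0, Matrix.mul_zero]
      rwa [← Matrix.mul_assoc, hJ1, Matrix.one_mul] at h2
    rw [h1, Matrix.zero_mul] at hΩ1
    have h3 := congrFun (congrFun hΩ1 ⟨0, d.mpos i⟩) ⟨0, d.mpos i⟩
    rw [Matrix.one_apply_eq] at h3
    exact zero_ne_one h3
  -- the group of odd relations
  let R : AddSubgroup (Matrix (Idx g) (Idx g) ℂ → ℤ) :=
    { carrier := {f | (∀ p, ¬ A.IsComp p → f p = 0) ∧ (∀ p, f (cc p) = - f p) ∧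
        InT d (fun i => f (d.p i)) 0}
      zero_mem' := ⟨fun _ _ => rfl, fun _ => by simp, inT_zero d⟩
      add_mem' := by
        rintro f f' ⟨h1, h2, h3⟩ ⟨h1', h2', h3'⟩
        refine ⟨fun p hp => ?_, fun p => ?_, ?_⟩
        · rw [Pi.add_apply, h1 p hp, h1' p hp, add_zero]
        · rw [Pi.add_apply, Pi.add_apply, h2, h2']
          ring
        · have h4 := inT_add d hGb1 h3 h3'
          rw [add_zero] at h4
          exact h4
      neg_mem' := by
        rintro f ⟨h1, h2, h3⟩
        refine ⟨fun p hp => ?_, fun p => ?_, ?_⟩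
        · rw [Pi.neg_apply, h1 p hp, neg_zero]
        · rw [Pi.neg_apply, Pi.neg_apply, h2]
        · have h4 := inT_neg d hGb1 h3
          rw [neg_zero] at h4
          exact h4 }
  have hcompcc : ∀ p, A.IsComp p → A.IsComp (cc p) := fun p hp => (hGal g A p hp).2.1
  -- no relation involves a component of multiplicity two
  have hR4 : ∀ f ∈ R, ∀ p, A.comDim p = 4 → f p = 0 := by
    by_contra hne
    push Not at hne
    obtain ⟨f₀, hf₀, p₀, hp₀, hfp₀⟩ := hne
    obtain ⟨p, hp, hp4, hpc, f, hf, c, hc, hfr⟩ := hA.u R (fun f hf => hf.1)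
      (fun f hf => hf.2.1) (by
        intro σ f hf
        obtain ⟨h1, h2, h3⟩ := hf
        have hσ : ∀ p, ¬ A.IsComp p → ¬ A.IsComp (p.map σ) := by
          intro p hp hp'
          apply hp
          have h4 := ((hGal g A _ hp').1 σ.symm).1
          have h5 : (p.map σ).map σ.symm = p := by
            ext a b
            simp
          rwa [h5] at h4
        refine ⟨fun p hp => h1 _ (hσ p hp), fun p => ?_, ?_⟩
        · change f ((cc p).map σ) = - f (p.map σ)
          by_cases hp : A.IsComp p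
          · rw [(hRos g A p hp).2 σ, h2]
          · rw [h1 _ (hσ p hp), h1 _ (hσ _ fun h' => hp (by rw [← hcc p]; exact hcompcc _ h')),
              neg_zero]
        · obtain ⟨s, hs⟩ := exists_s d hGal σ
          have h4 := inT_map d hGb1 hGb4 hGal hs h3
          have h5 : (fun i => f ((d.p i).map σ)) = (fun i => f (d.p i)) ∘ s := by
            funext i
            rw [Function.comp_apply, hs i]
          rw [h5]
          exact h4) ⟨f₀, hf₀, p₀, hp₀, hfp₀⟩
    obtain ⟨i, rfl⟩ := (d.comp p).1 hp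
    have hij : i ≠ bar i := by
      intro h
      apply hpc
      rw [hbar, ← h]
    have hmi : d.m i = 2 := by
      rw [d.dim] at hp4
      exact Nat.pow_left_injective (n := 2) (by norm_num) (by simpa using hp4)
    refine hno i c hc hij hmi ?_
    intro q hq
    have h1 := inT_pow d hGb1 hGb4 hGal hAut2 hf.2.2 q hq
    rw [← h1]
    congr 1
    unfold H53X.ch
    rw [_root_.zpow_zero, mul_one]
    have h2 : ∀ r l, ind (d.p r) (d.p l) = if r = l then (1 : ℤ) else 0 := by
      intro r l
      unfold ind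
      by_cases h : r = l
      · rw [if_pos h, if_pos (by rw [h])]
      · rw [if_neg h, if_neg fun h' => h (d.p_injective h')]
    simp only [hfr, hbar, h2]
    rw [prod2 _ _ (dl_ne d hGb1 hq)]
  -- symmetry
  have hTb : InT d (n ∘ bar) M := inT_map d hGb1 hGb4 hGal hS hT'
  have hsym : ∀ i, d.m i = 2 → n (bar i) = n i := by
    have h1 := inT_add d hGb1 hT' (inT_neg d hGb1 hTb)
    rw [add_neg_cancel] at h1
    let f : Matrix (Idx g) (Idx g) ℂ → ℤ := fun p =>
      if h : ∃ i, p = d.p i then n h.choose - n (bar h.choose) else 0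
    have hf1 : ∀ i, f (d.p i) = n i - n (bar i) := by
      intro i
      have h : ∃ j, d.p i = d.p j := ⟨i, rfl⟩
      have h2 : h.choose = i := d.p_injective h.choose_spec.symm
      simp only [f]
      rw [dif_pos h, h2]
    have hf2 : ∀ p, ¬ A.IsComp p → f p = 0 := by
      intro p hp
      simp only [f]
      rw [dif_neg]
      intro h
      exact hp ((d.comp p).2 h)
    have hmem : f ∈ R := by
      refine ⟨hf2, fun p => ?_, ?_⟩
      · by_cases hp : A.IsComp p
        · obtain ⟨i, rfl⟩ := (d.comp p).1 hp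
          rw [hbar, hf1, hf1, hbb]
          ring
        · rw [hf2 p hp, hf2 _ fun h' => hp (by rw [← hcc p]; exact hcompcc _ h'), neg_zero]
      · have h5 : (fun i => f (d.p i)) = n + -(n ∘ bar) := by
          funext i
          rw [hf1]
          simp [sub_eq_add_neg]
        rw [h5]
        exact h1
    intro i hmi
    have h6 := hf1 i
    have h7 : f (d.p i) = 0 := hR4 f hmem (d.p i) (by rw [d.dim, hmi]; norm_num)
    omega
  intro i j hij hmi
  have h1 : j = bar i := by
    apply d.p_injective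
    rw [hij, hbar]
  rw [h1, hsym i hmi]

end

end Pool.Agent.SPG
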