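import Pool.Agent.SPG.Stmts

set_option linter.unusedSectionVars false
set_option linter.unusedSimpArgs false
set_option linter.unusedVariables false

/-!
# Module H54B: relations between the CM characters of the group are Hodge relations
-/

open scoped BigOperators Topology
open Matrix

namespace Pool.Agent.SPG

open Pool.Agent.DRB
open Pool.Agent.SPF (Alg)

noncomputable section

namespace H54B_

/-! ### algebraic numbers -/

theorem alg_zpow {x : ℂ} (hx : Alg x) (k : ℤ) : Alg (x ^ k) := by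
  obtain ⟨n, rfl | rfl⟩ := k.eq_nat_or_neg
  · rw [zpow_natCast]; exact hx.pow n
  · rw [_root_.zpow_neg, zpow_natCast]; exact (hx.pow n).inv

theorem alg_div {x y : ℂ} (hx : Alg x) (hy : Alg y) : Alg (x / y) := by
  rw [div_eq_mul_inv]; exact hx.mul hy.inv

theorem alg_of_zpow {z : ℂ} (k : ℤ) (hk : k ≠ 0) (h : Alg (z ^ k)) : Alg z := by
  have key : ∀ n : ℕ, 0 < n → Alg (z ^ n) → Alg z := fun n hn h1 =>
    (IsIntegral.of_pow hn (h1.isIntegral)).isAlgebraic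
  obtain ⟨n, rfl | rfl⟩ := k.eq_nat_or_neg
  · rw [zpow_natCast] at h
    exact key n (by omega) h
  · rw [_root_.zpow_neg, zpow_natCast] at h
    have h2 := h.inv
    rw [inv_inv] at h2
    exact key n (by omega) h2

theorem alg_prod {κ : Type} (t : Finset κ) (f : κ → ℂ) (h : ∀ i ∈ t, Alg (f i)) :
    Alg (∏ i ∈ t, f i) := by
  classical
  induction t using Finset.induction_on with
  | empty => simpa using (isAlgebraic_one : IsAlgebraic ℚ (1 : ℂ))
  | insert a t ha ih =>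
      rw [Finset.prod_insert ha]
      exact IsAlgebraic.mul (h a (Finset.mem_insert_self a t))
        (ih fun i hi => h i (Finset.mem_insert_of_mem hi))

theorem tpi_zpow (hL : Stmt_Lind) (k : ℤ) (h : Alg (tpi ^ k)) : k = 0 := by
  by_contra hk
  have h1 : Alg tpi := alg_of_zpow k hk h
  have hI : Alg Complex.I := by
    have : IsIntegral ℚ (Complex.I ^ 2) := by
      rw [Complex.I_sq]; exact isIntegral_one.neg
    exact (IsIntegral.of_pow (by norm_num) this).isAlgebraic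
  have h2 : Alg (2 : ℂ) := by
    simpa using (isAlgebraic_algebraMap (A := ℂ) (2 : ℚ))
  have h3 : (Real.pi : ℂ) = tpi / (2 * Complex.I) := by
    unfold tpi
    field_simp
  apply hL
  rw [h3]
  exact alg_div h1 (h2.mul hI)

section

variable {g : ℕ} (A : AbVar g)

/-- torsion relation -/
def Tor (n : Matrix (Idx g) (Idx g) ℂ →₀ ℤ) (m : ℤ) : Prop :=
  ∀ q ∈ Gam A, ∃ N : ℕ, 1 ≤ N ∧ ∀ y : Matrix (Idx g) (Idx g) ℂ → ℂ,
      (∀ p ∈ n.support, q.1.val * p = y p • p) →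
        ((n.prod fun p k => y p ^ k) * q.2.val ^ m) ^ N = 1

variable {A}

theorem cm_ne {p : Matrix (Idx g) (Idx g) ℂ} (hp : A.IsCM p) : p ≠ 0 := hp.1.2.1

theorem smul_inj {p : Matrix (Idx g) (Idx g) ℂ} (hp : p ≠ 0) {a b : ℂ} (h : a • p = b • p) :
    a = b := by
  have h1 : (a - b) • p = 0 := by rw [sub_smul, h, sub_self]
  rcases smul_eq_zero.1 h1 with h2 | h2
  · exact sub_eq_zero.1 h2
  · exact absurd h2 hp

theorem exists_Y (hP : Stmt_PHOL) (hG : Stmt_Gb1) (q : GL (Idx g) ℂ × ℂˣ) (hq : q ∈ Gam A) :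
    ∃ Y : Matrix (Idx g) (Idx g) ℂ → ℂ, (∀ p, Y p ≠ 0) ∧
      ∀ p, A.IsCM p → q.1.val * p = Y p • p := by
  classical
  have hc : A.Comm q.1.val := fun α hα => (hG g A q hq).1 α hα
  have h : ∀ p : Matrix (Idx g) (Idx g) ℂ, ∃ y : ℂ, y ≠ 0 ∧ (A.IsCM p → q.1.val * p = y • p) := by
    intro p
    by_cases hp : A.IsCM p
    · obtain ⟨y, hy⟩ := (hP g A p hp).2.2.2.2 q.1.val hc
      refine ⟨y, ?_, fun _ => hy⟩
      rintro rfl
      rw [zero_smul] at hy
      apply cm_ne hp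
      have : q.1⁻¹.val * (q.1.val * p) = 0 := by rw [hy, Matrix.mul_zero]
      rw [← Matrix.mul_assoc] at this
      have h2 : q.1⁻¹.val * q.1.val = 1 := by
        rw [← Units.val_mul, inv_mul_cancel, Units.val_one]
      rw [h2, Matrix.one_mul] at this
      exact this
    · exact ⟨1, one_ne_zero, fun h => absurd h hp⟩
  choose Y h1 h2 using h
  exact ⟨Y, h1, h2⟩

/-- torsion in terms of a fixed function of eigenvalues -/
theorem tor_at {n : Matrix (Idx g) (Idx g) ℂ →₀ ℤ} (hn : ∀ p ∈ n.support, A.IsCM p) {m : ℤ}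
    (q : GL (Idx g) ℂ × ℂˣ) (Y : Matrix (Idx g) (Idx g) ℂ → ℂ)
    (hY : ∀ p, A.IsCM p → q.1.val * p = Y p • p) {N : ℕ}
    (h : ((n.prod fun p k => Y p ^ k) * q.2.val ^ m) ^ N = 1) :
    ∀ y : Matrix (Idx g) (Idx g) ℂ → ℂ, (∀ p ∈ n.support, q.1.val * p = y p • p) →
        ((n.prod fun p k => y p ^ k) * q.2.val ^ m) ^ N = 1 := by
  intro y hy
  have : (n.prod fun p k => y p ^ k) = n.prod fun p k => Y p ^ k := by
    refine Finsupp.prod_congr fun p hp => ?_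
    have h1 := hy p hp
    rw [hY p (hn p hp)] at h1
    rw [smul_inj (cm_ne (hn p hp)) h1]
  rw [this]
  exact h

theorem tor_zero : Tor A 0 0 := by
  intro q hq
  refine ⟨1, le_refl _, fun y _ => ?_⟩
  simp

theorem tor_add (hP : Stmt_PHOL) (hG : Stmt_Gb1) {n n' : Matrix (Idx g) (Idx g) ℂ →₀ ℤ}
    (hn : ∀ p ∈ n.support, A.IsCM p) (hn' : ∀ p ∈ n'.support, A.IsCM p)
    (hs : ∀ p ∈ (n + n').support, A.IsCM p) {m m' : ℤ}
    (h : Tor A n m) (h' : Tor A n' m') : Tor A (n + n') (m + m') := by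
  classical
  intro q hq
  obtain ⟨Y, hY0, hY⟩ := exists_Y hP hG q hq
  obtain ⟨N, hN, h1⟩ := h q hq
  obtain ⟨N', hN', h1'⟩ := h' q hq
  refine ⟨N * N', Nat.mul_pos hN hN', tor_at hs q Y hY ?_⟩
  have e1 := h1 Y fun p hp => hY p (hn p hp)
  have e2 := h1' Y fun p hp => hY p (hn' p hp)
  rw [Finsupp.prod_add_index (fun a _ => zpow_zero _) (fun a _ b c => zpow_add₀ (hY0 a) b c),
    zpow_add₀ (Units.ne_zero _)]
  have : (n.prod fun p k => Y p ^ k) * (n'.prod fun p k => Y p ^ k) *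
      (q.2.val ^ m * q.2.val ^ m') = ((n.prod fun p k => Y p ^ k) * q.2.val ^ m) *
      ((n'.prod fun p k => Y p ^ k) * q.2.val ^ m') := by ring
  rw [this, mul_pow, pow_mul, e1, one_pow, one_mul, mul_comm N N', pow_mul, e2, one_pow]

theorem tor_neg (hP : Stmt_PHOL) (hG : Stmt_Gb1) {n : Matrix (Idx g) (Idx g) ℂ →₀ ℤ}
    (hn : ∀ p ∈ n.support, A.IsCM p) (hs : ∀ p ∈ (-n).support, A.IsCM p) {m : ℤ}
    (h : Tor A n m) : Tor A (-n) (-m) := by
  classical
  intro q hq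
  obtain ⟨Y, hY0, hY⟩ := exists_Y hP hG q hq
  obtain ⟨N, hN, h1⟩ := h q hq
  refine ⟨N, hN, tor_at hs q Y hY ?_⟩
  have e1 := h1 Y fun p hp => hY p (hn p hp)
  rw [Finsupp.prod_neg_index (fun a => zpow_zero _)]
  have : (n.prod fun a b => Y a ^ (-b)) = (n.prod fun p k => Y p ^ k)⁻¹ := by
    unfold Finsupp.prod
    rw [← Finset.prod_inv_distrib]
    exact Finset.prod_congr rfl fun p _ => _root_.zpow_neg _ _
  rw [this, _root_.zpow_neg, ← mul_inv, inv_pow, e1, inv_one]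

/-- the group of torsion relations -/
def RR (hP : Stmt_PHOL) (hG : Stmt_Gb1) (A : AbVar g) :
    AddSubgroup (Matrix (Idx g) (Idx g) ℂ →₀ ℤ) where
  carrier := {n | (∀ p ∈ n.support, A.IsCM p) ∧ ∃ m, Tor A n m}
  zero_mem' := ⟨fun p hp => by simp at hp, 0, tor_zero⟩
  add_mem' := by
    classical
    rintro n n' ⟨hn, m, h⟩ ⟨hn', m', h'⟩
    have hs : ∀ p ∈ (n + n').support, A.IsCM p := by
      intro p hp
      rcases Finset.mem_union.1 (Finsupp.support_add hp) with h | h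
      · exact hn p h
      · exact hn' p h
    exact ⟨hs, m + m', tor_add hP hG hn hn' hs h h'⟩
  neg_mem' := by
    rintro n ⟨hn, m, h⟩
    have hs : ∀ p ∈ (-n).support, A.IsCM p := by
      intro p hp
      rw [Finsupp.support_neg] at hp
      exact hn p hp
    exact ⟨hs, -m, tor_neg hP hG hn hs h⟩

theorem map_injective (σ : ℂ ≃ₐ[ℚ] ℂ) :
    Function.Injective fun p : Matrix (Idx g) (Idx g) ℂ => p.map σ := by
  intro p p' h
  ext i j
  have := congrFun (congrFun h i) j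
  simpa using this

theorem map_mul' (σ : ℂ ≃ₐ[ℚ] ℂ) (x y : Matrix (Idx g) (Idx g) ℂ) :
    (x * y).map σ = x.map σ * y.map σ := by
  ext i j
  simp [Matrix.mul_apply, map_sum, map_mul]

/-- stability under automorphisms -/
theorem RR_gal (hP : Stmt_PHOL) (hG : Stmt_Gb1) (hG4 : Stmt_Gb4) (σ : ℂ ≃ₐ[ℚ] ℂ)
    (n : Matrix (Idx g) (Idx g) ℂ →₀ ℤ) (hn : n ∈ RR hP hG A) :
    n.mapDomain (fun p => p.map σ) ∈ RR hP hG A := by
  classical
  obtain ⟨hn, m, h⟩ := hn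
  have hs : ∀ p ∈ (n.mapDomain (fun p => p.map σ)).support, A.IsCM p := by
    intro p hp
    obtain ⟨p', hp', rfl⟩ := Finset.mem_image.1 (Finsupp.mapDomain_support hp)
    exact (hP g A p' (hn p' hp')).1 σ
  refine ⟨hs, m, ?_⟩
  intro q hq
  let q' : GL (Idx g) ℂ × ℂˣ :=
    (Units.map (RingHom.mapMatrix (σ.symm : ℂ →+* ℂ)).toMonoidHom q.1,
      Units.map ((σ.symm : ℂ →+* ℂ) : ℂ →* ℂ) q.2)
  have hq' : q' ∈ Gam A := hG4 g A σ.symm q hq q' rfl rfl
  obtain ⟨Y, hY0, hY⟩ := exists_Y hP hG q hq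
  obtain ⟨Y', hY0', hY'⟩ := exists_Y hP hG q' hq'
  obtain ⟨N, hN, h1⟩ := h q' hq'
  refine ⟨N, hN, tor_at hs q Y hY ?_⟩
  have e1 := h1 Y' fun p hp => hY' p (hn p hp)
  have e2 : ∀ p ∈ n.support, Y (p.map σ) = σ (Y' p) := by
    intro p hp
    have h2 := hY' p (hn p hp)
    have h3 := congrArg (fun x : Matrix (Idx g) (Idx g) ℂ => x.map σ) h2
    simp only [map_mul'] at h3
    have h4 : q'.1.val.map σ = q.1.val := by
      ext i j
      show σ (σ.symm (q.1.val i j)) = q.1.val i j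
      exact σ.apply_symm_apply _
    have h5 : (Y' p • p).map σ = σ (Y' p) • p.map σ := by
      ext i j
      simp
    rw [h4, h5, hY _ ((hP g A p (hn p hp)).1 σ)] at h3
    exact smul_inj (cm_ne ((hP g A p (hn p hp)).1 σ)) h3
  rw [Finsupp.prod_mapDomain_index_inj (map_injective σ)]
  have e3 : (n.prod fun p k => Y (p.map σ) ^ k) = σ (n.prod fun p k => Y' p ^ k) := by
    unfold Finsupp.prod
    rw [map_prod]
    refine Finset.prod_congr rfl fun p hp => ?_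
    show Y (p.map σ) ^ (n p) = σ (Y' p ^ (n p))
    rw [e2 p hp, map_zpow₀]
  have e4 : q.2.val ^ m = σ (q'.2.val ^ m) := by
    rw [map_zpow₀]
    congr 1
    exact (σ.apply_symm_apply _).symm
  rw [e3, e4, ← map_mul, ← map_pow, e1, map_one]

/-! ### types -/

theorem typ_neg (hP : Stmt_PHOL) {n : Matrix (Idx g) (Idx g) ℂ →₀ ℤ}
    (hn : ∀ p ∈ n.support, A.IsCM p) (σ : ℂ ≃ₐ[ℚ] ℂ) :
    A.typ n (σ.trans conjE) = - A.typ n σ := by
  classical
  unfold AbVar.typ Finsupp.sum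
  rw [← Finset.sum_neg_distrib]
  refine Finset.sum_congr rfl fun p hp => ?_
  have h1 : p.map (σ.trans conjE) = cc (p.map σ) := by
    ext i j; rfl
  have h2 := (hP g A _ ((hP g A p (hn p hp)).1 σ)).2.2.1
  by_cases h : A.Hol (p.map σ)
  · have h3 : ¬ A.Hol (p.map (σ.trans conjE)) := by
      rw [h1, h2]; exact not_not.2 h
    simp only [h, h3, if_true, if_false]
  · have h3 : A.Hol (p.map (σ.trans conjE)) := by
      rw [h1, h2]; exact h
    simp only [h, h3, if_true, if_false, neg_neg]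

theorem two_hw {n : Matrix (Idx g) (Idx g) ℂ →₀ ℤ} (σ : ℂ ≃ₐ[ℚ] ℂ) :
    2 * A.hw n σ = A.typ n σ + ∑ p ∈ n.support, n p := by
  classical
  unfold AbVar.typ AbVar.hw Finsupp.sum
  rw [← Finset.sum_add_distrib, Finset.mul_sum]
  refine Finset.sum_congr rfl fun p hp => ?_
  by_cases h : A.Hol (p.map σ)
  · simp only [h, if_true]; ring
  · simp only [h, if_false]; ring

theorem typ_res {L : IntermediateField ℚ ℂ} {n : Matrix (Idx g) (Idx g) ℂ →₀ ℤ}
    (hL : ∀ p ∈ n.support, ∀ i j, p i j ∈ L) (σ τ : ℂ ≃ₐ[ℚ] ℂ) (h : ∀ z ∈ L, σ z = τ z) :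
    A.typ n σ = A.typ n τ := by
  classical
  unfold AbVar.typ Finsupp.sum
  refine Finset.sum_congr rfl fun p hp => ?_
  have : p.map σ = p.map τ := by
    ext i j; exact h _ (hL p hp i j)
  simp only [this]

/-- a type of `L` -/
theorem base_type {L : IntermediateField ℚ ℂ} (hL : CMSub L) :
    LType L {σ : ℂ ≃ₐ[ℚ] ℂ | 0 < (σ Complex.I).im} := by
  have key : ∀ σ : ℂ ≃ₐ[ℚ] ℂ, σ Complex.I = Complex.I ∨ σ Complex.I = -Complex.I := by
    intro σ
    have : (σ Complex.I) ^ 2 = Complex.I ^ 2 := by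
      rw [← map_pow, Complex.I_sq, map_neg, map_one]
    exact sq_eq_sq_iff_eq_or_eq_neg.1 this
  constructor
  · intro σ τ h
    show 0 < (σ Complex.I).im ↔ 0 < (τ Complex.I).im
    rw [h _ hL.i]
  · intro σ
    show 0 < (σ Complex.I).im ↔ ¬ 0 < ((starRingEnd ℂ) (σ Complex.I)).im
    rcases key σ with h | h
    · rw [h]; simp
    · rw [h]; simp

/-- the type attached to a function with values `0, c, -c` -/
theorem tri_type {L : IntermediateField ℚ ℂ} (hL : CMSub L) (f : (ℂ ≃ₐ[ℚ] ℂ) → ℤ) (c : ℤ)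
    (hc : c ≠ 0) (hres : ∀ σ τ : ℂ ≃ₐ[ℚ] ℂ, (∀ z ∈ L, σ z = τ z) → f σ = f τ)
    (hodd : ∀ σ, f (σ.trans conjE) = - f σ) (hv : ∀ σ, f σ = 0 ∨ f σ = c ∨ f σ = -c) :
    LType L {σ | f σ = c ∨ (f σ = 0 ∧ σ ∈ {σ : ℂ ≃ₐ[ℚ] ℂ | 0 < (σ Complex.I).im})} := by
  have h0 := base_type hL
  constructor
  · intro σ τ h
    have h1 := hres σ τ h
    have h2 := h0.res σ τ h
    simp only [Set.mem_ofPred_eq] at h2 ⊢
    rw [h1, h2]
  · intro σ
    have h2 := h0.odd σ
    simp only [Set.mem_ofPred_eq] at h2 ⊢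
    rw [hodd σ]
    rcases hv σ with h | h | h
    · rw [h]
      constructor
      · rintro (h3 | ⟨-, h3⟩)
        · exact absurd h3.symm hc
        · rintro (h4 | ⟨-, h4⟩)
          · exact hc (by omega)
          · exact (h2.1 h3) h4
      · intro h3
        refine Or.inr ⟨rfl, h2.2 fun h4 => h3 (Or.inr ⟨by simp, h4⟩)⟩
    · rw [h]
      constructor
      · intro _
        rintro (h4 | ⟨h4, -⟩) <;> omega
      · intro _; exact Or.inl rfl
    · rw [h]
      constructor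
      · rintro (h4 | ⟨h4, -⟩) <;> omega
      · intro h3
        exact absurd (Or.inl (neg_neg c)) h3

theorem alg_quot_swap {x y : ℂ} (hy : y ≠ 0) (hx : x ≠ 0) (h : Alg (x / y)) (h' : Alg x) : Alg y := by
  have : y = x / (x / y) := by field_simp
  rw [this]
  exact alg_div h' h

/-- periods in terms of the table: the monomial of the table times a power of `2 π i` is algebraic -/
theorem table_alg (hT : Stmt_TRL) (hX : Stmt_PEX) (hPT : Stmt_PTH)
    {L : IntermediateField ℚ ℂ} (hL : CMSub L)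
    {θ : Set (ℂ ≃ₐ[ℚ] ℂ) → (ℂ ≃ₐ[ℚ] ℂ) → ℂ} (hθ : Tab L θ)
    (hLp : ∀ p, A.IsCM p → ∀ i j, p i j ∈ L) (hP : Stmt_PHOL)
    {n : Matrix (Idx g) (Idx g) ℂ →₀ ℤ} (hn : ∀ p ∈ n.support, A.IsCM p) {m : ℤ}
    (h : Tor A n m) (σ : ℂ ≃ₐ[ℚ] ℂ) :
    Alg ((∏ p ∈ n.support, θ (Psi A p) σ ^ n p) * tpi ^ m) := by
  classical
  have hex : ∀ p : Matrix (Idx g) (Idx g) ℂ, ∃ P : ℂ, A.IsCM p → IsPer A p P := by
    intro p
    by_cases hp : A.IsCM p
    · obtain ⟨P, hP'⟩ := (hX g A p hp).2.1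
      exact ⟨P, fun _ => hP'⟩
    · exact ⟨0, fun h => absurd h hp⟩
  choose P hPer using hex
  have h1 := hT g A n m hn h P hPer σ
  have h2 : ∀ p ∈ n.support, Alg (P (p.map σ) / θ (Psi A p) σ) := by
    intro p hp
    exact (hPT g A L θ hL hθ p (hn p hp) (hLp p (hn p hp))).2 σ _
      (hPer _ ((hP g A p (hn p hp)).1 σ))
  have h3 : ∀ p ∈ n.support, P (p.map σ) ≠ 0 := fun p hp =>
    (hPer _ ((hP g A p (hn p hp)).1 σ)).1
  have h4 : ∀ p ∈ n.support, θ (Psi A p) σ ≠ 0 := fun p hp =>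
    hθ.nz _ (hPT g A L θ hL hθ p (hn p hp) (hLp p (hn p hp))).1 σ
  have h5 : Alg (∏ p ∈ n.support, (P (p.map σ) / θ (Psi A p) σ) ^ n p) :=
    alg_prod _ _ fun p hp => alg_zpow (h2 p hp) _
  have h6 : (∏ p ∈ n.support, θ (Psi A p) σ ^ n p) * tpi ^ m =
      ((n.prod fun p k => P (p.map σ) ^ k) * tpi ^ m) /
        ∏ p ∈ n.support, (P (p.map σ) / θ (Psi A p) σ) ^ n p := by
    have e1 : (∏ p ∈ n.support, (P (p.map σ) / θ (Psi A p) σ) ^ n p) =
        (∏ p ∈ n.support, P (p.map σ) ^ n p) / ∏ p ∈ n.support, θ (Psi A p) σ ^ n p := by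
      rw [← Finset.prod_div_distrib]
      exact Finset.prod_congr rfl fun p _ => div_zpow _ _ _
    have e2 : (∏ p ∈ n.support, P (p.map σ) ^ n p) ≠ 0 :=
      Finset.prod_ne_zero_iff.2 fun p hp => zpow_ne_zero _ (h3 p hp)
    have e3 : (∏ p ∈ n.support, θ (Psi A p) σ ^ n p) ≠ 0 :=
      Finset.prod_ne_zero_iff.2 fun p hp => zpow_ne_zero _ (h4 p hp)
    rw [e1]
    show _ = ((∏ p ∈ n.support, P (p.map σ) ^ n p) * tpi ^ m) / _
    field_simp
  rw [h6]
  exact alg_div h1 h5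

end

end H54B_

open H54B_ in
theorem h54b_proof (h1 : Stmt_LFLD) (h2 : Stmt_PHOL) (h3 : Stmt_PEX) (h4 : Stmt_PTH)
    (h5 : Stmt_TBLC) (h6 : Stmt_TRL) (h7 : DRB.Stmt_Gb4) (h8 : DRB.Stmt_Gb1)
    (h9 : DRB.Stmt_Lind) : Stmt_H54B := by
  intro g A hTrit n m hn htor
  classical
  obtain ⟨L, hL, hLp⟩ := h1 g A
  obtain ⟨θ, hθ⟩ := h5 L hL
  have hR1 : ∀ n ∈ RR h2 h8 A, ∀ p ∈ n.support, A.IsCM p := fun n hn => hn.1
  have main : ∀ n ∈ RR h2 h8 A, ∀ σ, A.typ n σ = 0 := by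
    by_contra hcon
    push Not at hcon
    obtain ⟨n₀, ⟨hn₀, m₀, hT⟩, c, ⟨σ₀, hσ₀⟩, hv⟩ := hTrit (RR h2 h8 A) hR1
      (fun σ n hn => RR_gal h2 h8 h7 σ n hn) hcon
    have hc : c ≠ 0 := by
      rintro rfl
      rcases hv σ₀ with h | h | h
      · exact hσ₀ h
      · exact hσ₀ h
      · exact hσ₀ (by simpa using h)
    have hodd := typ_neg (A := A) h2 hn₀
    have hres := typ_res (A := A) (L := L) (n := n₀) (fun p hp => hLp p (hn₀ p hp))
    have hΨ := tri_type hL (A.typ n₀) c hc hres hodd hv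
    have hΨ' := tri_type hL (A.typ n₀) (-c) (neg_ne_zero.2 hc) hres hodd (by
      intro σ
      rcases hv σ with h | h | h
      · exact Or.inl h
      · exact Or.inr (Or.inr (by rw [h, neg_neg]))
      · exact Or.inr (Or.inl h))
    set Ψ : Set (ℂ ≃ₐ[ℚ] ℂ) := {σ | A.typ n₀ σ = c ∨ (A.typ n₀ σ = 0 ∧
      σ ∈ {σ : ℂ ≃ₐ[ℚ] ℂ | 0 < (σ Complex.I).im})} with hΨdef
    set Ψ' : Set (ℂ ≃ₐ[ℚ] ℂ) := {σ | A.typ n₀ σ = -c ∨ (A.typ n₀ σ = 0 ∧
      σ ∈ {σ : ℂ ≃ₐ[ℚ] ℂ | 0 < (σ Complex.I).im})} with hΨdef'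
    have hne : Ψ ≠ Ψ' := by
      intro h
      have h10 := Set.ext_iff.1 h σ₀
      simp only [hΨdef, hΨdef', Set.mem_ofPred_eq] at h10
      rcases hv σ₀ with h | h | h
      · exact hσ₀ h
      · rw [h] at h10
        rcases h10.1 (Or.inl rfl) with h11 | ⟨h11, -⟩ <;> omega
      · rw [h] at h10
        rcases h10.2 (Or.inl rfl) with h11 | ⟨h11, -⟩ <;> omega
    have hind : ∀ σ, (if σ ∈ Ψ then -c else 0) + (if σ ∈ Ψ' then c else 0) = - A.typ n₀ σ := by
      intro σ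
      simp only [hΨdef, hΨdef', Set.mem_ofPred_eq]
      rcases hv σ with h | h | h
      · rw [h]
        by_cases hp : 0 < (σ Complex.I).im
        · simp [hp]
        · have e1 : (0 : ℤ) ≠ c := fun h => hc h.symm
          have e2 : (0 : ℤ) ≠ -c := fun h => hc (by omega)
          simp [hp, e1]
      · rw [h]
        have e1 : c ≠ -c := by omega
        simp [e1, hc]
      · rw [h]
        have e1 : -c ≠ c := by omega
        have e2 : -c ≠ 0 := by omega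
        simp [e1, hc]
    set S : ℤ := ∑ p ∈ n₀.support, n₀ p with hS
    have hadd : ∀ σ, Alg ((∏ k : n₀.support ⊕ Bool,
        θ (Sum.elim (fun p : n₀.support => Psi A p.1) (fun b => if b = true then Ψ else Ψ') k) σ ^
          (Sum.elim (fun p : n₀.support => 2 * n₀ p.1) (fun b => if b = true then -c else c) k)) /
            tpi ^ S) := by
      refine hθ.add (n₀.support ⊕ Bool) _ _ S ?_ ?_
      · rintro (p | (_ | _))
        · exact (h4 g A L θ hL hθ p.1 (hn₀ _ p.2) (hLp _ (hn₀ _ p.2))).1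
        · exact hΨ'
        · exact hΨ
      · intro σ
        have e1 : (∑ k : n₀.support ⊕ Bool, if σ ∈ (Sum.elim (fun p : n₀.support => Psi A p.1)
            (fun b => if b = true then Ψ else Ψ') k) then
              (Sum.elim (fun p : n₀.support => 2 * n₀ p.1) (fun b => if b = true then -c else c) k)
              else 0) = 2 * A.hw n₀ σ + ((if σ ∈ Ψ then -c else 0) + (if σ ∈ Ψ' then c else 0)) := by
          rw [Fintype.sum_sum_type, Fintype.sum_bool]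
          refine congrArg₂ (· + ·) ?_ ?_
          · simp only [Sum.elim_inl]
            unfold AbVar.hw Finsupp.sum
            rw [Finset.mul_sum, ← Finset.sum_coe_sort n₀.support]
            refine Finset.sum_congr rfl fun p _ => ?_
            show (if A.Hol (p.1.map σ) then 2 * n₀ p.1 else 0) =
              2 * (if A.Hol (p.1.map σ) then n₀ p.1 else 0)
            split_ifs <;> simp
          · by_cases hσ1 : σ ∈ Ψ <;> by_cases hσ2 : σ ∈ Ψ' <;> simp [hσ1, hσ2]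
        refine (Eq.trans ?_ e1).trans ?_
        · refine Finset.sum_congr rfl fun k _ => ?_
          split_ifs <;> rfl
        · rw [hind σ, two_hw σ]
          ring
    have hX : ∀ σ, Alg ((θ Ψ σ / θ Ψ' σ) ^ c * tpi ^ (S + 2 * m₀)) := by
      intro σ
      have e1 := hadd σ
      have e2 := table_alg h6 h3 h4 hL hθ hLp h2 hn₀ hT σ
      rw [Fintype.prod_sum_type, Fintype.prod_bool] at e1
      simp only [Sum.elim_inl, Sum.elim_inr] at e1
      have e3 : (∏ p : n₀.support, θ (Psi A p.1) σ ^ (2 * n₀ p.1)) =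
          (∏ p ∈ n₀.support, θ (Psi A p) σ ^ n₀ p) ^ 2 := by
        rw [← Finset.prod_pow, ← Finset.prod_coe_sort n₀.support]
        refine Finset.prod_congr rfl fun p _ => ?_
        rw [mul_comm, _root_.zpow_mul]
        norm_cast
      have e3' : (∏ p ∈ n₀.support, θ (Psi A p) σ ^ n₀ p) ≠ 0 :=
        Finset.prod_ne_zero_iff.2 fun p hp => zpow_ne_zero _
          (hθ.nz _ (h4 g A L θ hL hθ p (hn₀ _ hp) (hLp _ (hn₀ _ hp))).1 σ)
      have e4 : θ Ψ σ ≠ 0 := hθ.nz _ hΨ σ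
      have e5 : θ Ψ' σ ≠ 0 := hθ.nz _ hΨ' σ
      have e6 := tpi_ne_zero
      have e7 : (θ Ψ σ / θ Ψ' σ) ^ c * tpi ^ (S + 2 * m₀) =
          ((∏ p ∈ n₀.support, θ (Psi A p) σ ^ n₀ p) * tpi ^ m₀) ^ 2 /
          ((∏ p : n₀.support, θ (Psi A p.1) σ ^ (2 * n₀ p.1)) *
            (θ (if true = true then Ψ else Ψ') σ ^ (if true = true then -c else c) *
             θ (if false = true then Ψ else Ψ') σ ^ (if false = true then -c else c)) / tpi ^ S) := by
        rw [e3]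
        simp only [if_true, Bool.false_eq_true, if_false]
        rw [div_zpow, zpow_add₀ e6, _root_.zpow_mul, _root_.zpow_neg]
        have e8 : (tpi ^ (2 : ℤ)) ^ m₀ = (tpi ^ m₀) ^ 2 := by
          rw [← _root_.zpow_mul, mul_comm, _root_.zpow_mul]; norm_cast
        rw [e8]
        have e9 : θ Ψ σ ^ c ≠ 0 := zpow_ne_zero _ e4
        have e10 : θ Ψ' σ ^ c ≠ 0 := zpow_ne_zero _ e5
        have e11 : tpi ^ S ≠ 0 := zpow_ne_zero _ e6
        have e12 : tpi ^ m₀ ≠ 0 := zpow_ne_zero _ e6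
        field_simp
      rw [e7]
      exact alg_div (e2.pow 2) e1
    have hcon1 : ∀ σ : ℂ ≃ₐ[ℚ] ℂ, Alg ((θ Ψ σ / θ Ψ' σ) * (θ Ψ (σ.trans conjE) / θ Ψ' (σ.trans conjE))) := by
      intro σ
      have e1 := hθ.con Ψ hΨ σ
      have e2 := hθ.con Ψ' hΨ' σ
      have e5 : θ Ψ' σ ≠ 0 := hθ.nz _ hΨ' σ
      have e6 : θ Ψ' (σ.trans conjE) ≠ 0 := hθ.nz _ hΨ' _
      have e7 := tpi_ne_zero
      have e8 : (θ Ψ σ / θ Ψ' σ) * (θ Ψ (σ.trans conjE) / θ Ψ' (σ.trans conjE)) =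
          (θ Ψ σ * θ Ψ (σ.trans conjE) / tpi) / (θ Ψ' σ * θ Ψ' (σ.trans conjE) / tpi) := by
        field_simp
      rw [e8]
      exact alg_div e1 e2
    have hzero : S + 2 * m₀ = 0 := by
      have σ : ℂ ≃ₐ[ℚ] ℂ := AlgEquiv.refl
      have e1 := (hX σ).mul (hX (σ.trans conjE))
      have e2 : Alg (((θ Ψ σ / θ Ψ' σ) * (θ Ψ (σ.trans conjE) / θ Ψ' (σ.trans conjE))) ^ c) :=
        alg_zpow (hcon1 σ) c
      have e3 : tpi ^ (2 * (S + 2 * m₀)) =
          ((θ Ψ σ / θ Ψ' σ) ^ c * tpi ^ (S + 2 * m₀) *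
            ((θ Ψ (σ.trans conjE) / θ Ψ' (σ.trans conjE)) ^ c * tpi ^ (S + 2 * m₀))) /
          ((θ Ψ σ / θ Ψ' σ) * (θ Ψ (σ.trans conjE) / θ Ψ' (σ.trans conjE))) ^ c := by
        have f1 : (θ Ψ σ / θ Ψ' σ) ^ c ≠ 0 :=
          zpow_ne_zero _ (div_ne_zero (hθ.nz _ hΨ σ) (hθ.nz _ hΨ' σ))
        have f2 : (θ Ψ (σ.trans conjE) / θ Ψ' (σ.trans conjE)) ^ c ≠ 0 :=
          zpow_ne_zero _ (div_ne_zero (hθ.nz _ hΨ _) (hθ.nz _ hΨ' _))
        rw [mul_zpow, two_mul, zpow_add₀ tpi_ne_zero (S + 2 * m₀) (S + 2 * m₀), eq_div_iff (mul_ne_zero f1 f2)]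
        ring
      have e4 : Alg (tpi ^ (2 * (S + 2 * m₀))) := by
        rw [e3]
        exact alg_div e1 e2
      have := tpi_zpow h9 _ e4
      omega
    apply hne
    refine hθ.uniq Ψ Ψ' hΨ hΨ' fun σ => ?_
    have e1 := hX σ
    rw [hzero, zpow_zero, mul_one] at e1
    exact alg_of_zpow c hc e1
  have hmem : n ∈ RR h2 h8 A := ⟨hn, m, htor⟩
  have htyp := main n hmem
  refine ⟨hn, fun σ => ?_⟩
  have hS : ∀ τ, 2 * A.hw n τ = ∑ p ∈ n.support, n p := fun τ => by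
    rw [two_hw τ, htyp τ, zero_add]
  have hconst : ∀ τ, A.hw n τ = A.hw n σ := fun τ => by
    have e1 := hS τ
    have e2 := hS σ
    omega
  have hadd : Alg ((∏ k : n.support, θ (Psi A k.1) σ ^ (n k.1)) / tpi ^ (A.hw n σ)) := by
    refine hθ.add n.support (fun p => Psi A p.1) (fun p => n p.1) (A.hw n σ) ?_ ?_ σ
    · rintro p
      exact (h4 g A L θ hL hθ p.1 (hn _ p.2) (hLp _ (hn _ p.2))).1
    · intro τ
      rw [← hconst τ]
      unfold AbVar.hw Finsupp.sum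
      rw [← Finset.sum_coe_sort n.support]
      refine Finset.sum_congr rfl fun p _ => ?_
      show _ = (if A.Hol (p.1.map τ) then n p.1 else 0)
      by_cases h : A.Hol (p.1.map τ)
      · rw [if_pos h, if_pos (show τ ∈ Psi A p.1 from h)]
      · rw [if_neg h, if_neg (show τ ∉ Psi A p.1 from h)]
  have e2 := table_alg h6 h3 h4 hL hθ hLp h2 hn htor σ
  have e3 : (∏ k : n.support, θ (Psi A k.1) σ ^ (n k.1)) =
      ∏ p ∈ n.support, θ (Psi A p) σ ^ n p := by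
    rw [← Finset.prod_coe_sort n.support]
  rw [e3] at hadd
  have e3' : (∏ p ∈ n.support, θ (Psi A p) σ ^ n p) ≠ 0 :=
    Finset.prod_ne_zero_iff.2 fun p hp => zpow_ne_zero _
      (hθ.nz _ (h4 g A L θ hL hθ p (hn _ hp) (hLp _ (hn _ hp))).1 σ)
  have e4 : tpi ^ (A.hw n σ + m) = ((∏ p ∈ n.support, θ (Psi A p) σ ^ n p) * tpi ^ m) /
      ((∏ p ∈ n.support, θ (Psi A p) σ ^ n p) / tpi ^ (A.hw n σ)) := by
    have f1 : tpi ^ (A.hw n σ) ≠ 0 := zpow_ne_zero _ tpi_ne_zero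
    rw [zpow_add₀ tpi_ne_zero]
    field_simp
  have e5 : Alg (tpi ^ (A.hw n σ + m)) := by
    rw [e4]
    exact alg_div e2 hadd
  exact tpi_zpow h9 _ e5

end

end Pool.Agent.SPG
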