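import Pool.Agent.SPG.Stmts

/-!
# LFLD: the field of definition of the CM components
-/

open scoped BigOperators Topology
open Matrix

namespace Pool.Agent.SPG

open Pool.Agent.DRB
open Pool.Agent.SPF (Alg CMF IsType cj zT IsPStr SympBasis SS TT SDat IsTh)

namespace LFLD_

lemma sq_eq {a b : ℂ} (h : a ^ 2 = b ^ 2) : a = b ∨ a = -b := sq_eq_sq_iff_eq_or_eq_neg.mp h

lemma I_sq' : Complex.I ^ 2 = -1 := Complex.I_sq

lemma w_sq : ((Real.sqrt 3 : ℂ) * Complex.I) ^ 2 = -3 := by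
  rw [mul_pow, Complex.I_sq, ← Complex.ofReal_pow, Real.sq_sqrt (by norm_num)]
  norm_num

lemma map_root {z : ℂ} {n : ℤ} (h : z ^ 2 = (n : ℂ)) (σ : ℂ ≃ₐ[ℚ] ℂ) : σ z = z ∨ σ z = -z := by
  apply sq_eq
  rw [← map_pow, h, map_intCast]

lemma conj_root {z : ℂ} {n : ℤ} (h : z ^ 2 = (n : ℂ)) :
    (starRingEnd ℂ) z = z ∨ (starRingEnd ℂ) z = -z := by
  apply sq_eq
  rw [← map_pow, h, map_intCast]

lemma cm_root {z : ℂ} {n : ℤ} (h : z ^ 2 = (n : ℂ)) (σ : ℂ ≃ₐ[ℚ] ℂ) :
    σ ((starRingEnd ℂ) z) = (starRingEnd ℂ) (σ z) := by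
  rcases map_root h σ with h1 | h1 <;> rcases conj_root h with h2 | h2 <;>
    simp [h1, h2]

end LFLD_

open LFLD_ in
theorem lfld_proof (hDec : Stmt_Dec) (hGal : Stmt_Gal3) (hRos : Stmt_Ros) : Stmt_LFLD := by
  intro g A
  obtain ⟨d⟩ := hDec g A
  let T : Set ℂ := {z | ∃ p, A.IsCM p ∧ ∃ i j, z = p i j}
  let U : Set ℂ := {Complex.I, (Real.sqrt 3 : ℂ) * Complex.I}
  have hTfin : T.Finite := by
    have h1 : (Set.range fun x : Fin d.k × Idx g × Idx g => d.p x.1 x.2.1 x.2.2).Finite :=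
      Set.finite_range _
    refine h1.subset ?_
    rintro z ⟨p, hp, i, j, rfl⟩
    obtain ⟨l, hl⟩ := (d.comp p).1 hp.1
    refine ⟨(l, i, j), ?_⟩
    simp [hl]
  have hI2 : Complex.I ^ 2 = ((-1 : ℤ) : ℂ) := by rw [Complex.I_sq]; norm_num
  have hw2 : ((Real.sqrt 3 : ℂ) * Complex.I) ^ 2 = ((-3 : ℤ) : ℂ) := by rw [w_sq]; norm_num
  have hroot : ∀ (z : ℂ) (n : ℤ), z ^ 2 = (n : ℂ) → IsIntegral ℚ z := by
    intro z n hz
    refine ⟨Polynomial.X ^ 2 - Polynomial.C (n : ℚ), ?_, ?_⟩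
    · exact Polynomial.monic_X_pow_sub_C _ (by norm_num)
    · simp only [Polynomial.eval₂_sub, Polynomial.eval₂_pow, Polynomial.eval₂_X, Polynomial.eval₂_C]
      rw [hz]
      simp
  have hint : ∀ z ∈ T ∪ U, IsIntegral ℚ z := by
    rintro z (⟨p, hp, i, j, rfl⟩ | hz)
    · exact ((hGal g A p hp.1).2.2.2 i j).isIntegral
    · rcases hz with rfl | rfl
      · exact hroot _ _ hI2
      · exact hroot _ _ hw2
  have hSfin : (T ∪ U).Finite := hTfin.union (by
    show Set.Finite {Complex.I, (Real.sqrt 3 : ℂ) * Complex.I}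
    exact Set.toFinite _)
  let L := IntermediateField.adjoin ℚ (T ∪ U)
  have hsub : ∀ z ∈ T ∪ U, z ∈ L := fun z hz => IntermediateField.subset_adjoin ℚ _ hz
  have hTL : ∀ p, A.IsCM p → ∀ i j, p i j ∈ L := fun p hp i j => hsub _ (Or.inl ⟨p, hp, i, j, rfl⟩)
  have hIL : Complex.I ∈ L := hsub _ (Or.inr (Or.inl rfl))
  have hwL : (Real.sqrt 3 : ℂ) * Complex.I ∈ L := hsub _ (Or.inr (Or.inr rfl))
  refine ⟨L, ⟨?_, ?_, ?_, hIL, hwL⟩, hTL⟩
  · have : Finite (T ∪ U : Set ℂ) := hSfin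
    exact IntermediateField.finiteDimensional_adjoin (K := ℚ) (S := T ∪ U) hint
  · intro σ z hz
    have key : L ≤ L.comap (σ : ℂ →ₐ[ℚ] ℂ) := by
      rw [IntermediateField.adjoin_le_iff]
      rintro y (⟨p, hp, i, j, rfl⟩ | hy)
      · have hq : A.IsCM (p.map σ) := by
          obtain ⟨h1, h2⟩ := (hGal g A p hp.1).1 σ
          exact ⟨h1, h2.trans hp.2⟩
        have := hTL _ hq i j
        exact this
      · rcases hy with rfl | rfl
        · show σ Complex.I ∈ L
          rcases map_root hI2 σ with h | h <;> rw [h]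
          · exact hIL
          · exact neg_mem hIL
        · show σ ((Real.sqrt 3 : ℂ) * Complex.I) ∈ L
          rcases map_root hw2 σ with h | h <;> rw [h]
          · exact hwL
          · exact neg_mem hwL
    exact key hz
  · intro σ z hz
    induction hz using IntermediateField.adjoin_induction with
    | mem y hy =>
      rcases hy with ⟨p, hp, i, j, rfl⟩ | hy
      · have := (hRos g A p hp.1).2 σ
        have h2 := congrFun (congrFun this i) j
        simpa [cc, Matrix.map_apply] using h2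
      · rcases hy with rfl | rfl
        · exact cm_root hI2 σ
        · exact cm_root hw2 σ
    | algebraMap q => simp
    | add x y hx hy h1 h2 => simp only [map_add, h1, h2]
    | inv x hx h1 => simp only [map_inv₀, h1]
    | mul x y hx hy h1 h2 => simp only [map_mul, h1, h2]

end Pool.Agent.SPG
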