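import Pool.Agent.SPG.Stmts
import Pool.Agent.DRB.MAIN3

open scoped BigOperators Topology
open Matrix

namespace Pool.Agent.SPG

open Pool.Agent.DRB
open Pool.Agent.DRB.MAIN3X

noncomputable section

namespace MAIN4_

variable {g : ℕ} {A : AbVar g}

theorem exists_setup4 (hDec : Stmt_Dec) (hGal : Stmt_Gal3) (hMix : Stmt_Mix) (hA : A.Rank2CM) :
    Nonempty (Setup A) := by
  obtain ⟨d⟩ := hDec g A
  have hex : ∀ i, ∃ j, d.p j = cc (d.p i) := by
    intro i
    obtain ⟨j, hj⟩ := (d.comp _).1 (hGal g A (d.p i) (d.isComp i)).2.1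
    exact ⟨j, hj.symm⟩
  choose c hc using hex
  refine ⟨⟨d, c, hc, fun i => ?_, fun i => ?_, fun i hi h => ?_⟩⟩
  · have h := hA.le (d.p i) (d.isComp i)
    rw [d.dim] at h
    have h0 := d.mpos i
    have : d.m i ≤ 2 := by
      by_contra hcon
      push Not at hcon
      have : 3 ^ 2 ≤ d.m i ^ 2 := Nat.pow_le_pow_left hcon 2
      omega
    omega
  · have h := (hGal g A (d.p i) (d.isComp i)).2.2.1
    rw [← hc i, d.dim, d.dim] at h
    exact Nat.pow_left_injective (n := 2) (by norm_num) h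
  · have h2 := (hMix g A (d.p i) (d.isComp i) (by rw [← hc i, h])).2
    rw [d.dim, hi] at h2
    exact h2 (by norm_num)

variable (s : Setup A)

theorem h3_proof4 (hGb1 : Stmt_Gb1) (hLnk : Stmt_LNK4) (hA : A.Rank2CM) (r r' : RR s) (hr : r ≠ r')
    (P : Matrix (Fin 2) (Fin 2) ℂ) (hP : P ≠ 0) :
    ∃ γ ∈ Gm3 s, ∀ a : ℂ, (γ.1 r').val * P * ((γ.1 r)⁻¹).val ≠ a • P := by
  obtain ⟨P', hP'⟩ := rx_surj r'.2.1 r.2.1 P
  obtain ⟨q, hq, h⟩ := hLnk g A hA s.d r'.1 r.1 r'.2.1 r.2.1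
    (fun h => hr (Subtype.ext h.symm))
    (fun h => by
      rw [← s.hc] at h
      have h1 := s.d.p_injective h
      have h2 := r.2.2
      have h3 := r'.2.2
      rw [← h1] at h3
      rw [h1, c_c, ← h1] at h2
      exact hr (Subtype.ext (le_antisymm h2 h3)))
    P' (by rintro rfl; exact hP (by rw [← hP']; rfl))
  obtain ⟨γ, hγ, he⟩ := lift3 s hGb1 hq
  refine ⟨γ, hγ, fun a ha => h a (rx_inj r'.2.1 r.2.1 ?_)⟩
  rw [he, Phi_fst, Phi_inv, ← hP', ← rx_smul, ← rx_mul, ← rx_mul] at ha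
  exact ha

theorem bhyp4 (hGb1 : Stmt_Gb1) (hIrrX : Stmt_IrrX) (hFinX : Stmt_FinX) (hLnk : Stmt_LNK4)
    (hTors3 : Stmt_Tors3) (hA : A.Rank2CM) : BHyp3 (Gm3 s) where
  h1 := fun r v hv => h1_proof3 s hGb1 hIrrX r v hv
  h2 := fun r X hX hX0 => h2_proof3 s hGb1 hFinX r X hX hX0
  h3 := fun r r' hr P hP => h3_proof4 s hGb1 hLnk hA r r' hr P hP
  h4 := fun r => h4_proof3 s hGb1 hTors3 r

/-- A matrix commuting with the endomorphisms acts by a scalar on the CM components. -/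
theorem mul_p {x : Matrix (Idx g) (Idx g) ℂ} (hx : A.Comm x) (i : Fin s.d.k) (hi : s.d.m i = 1) :
    x * s.d.p i = (s.d.X x i).det • s.d.p i := by
  refine s.d.ext_B fun l a b => ?_
  rw [← Matrix.mulVec_mulVec, Matrix.smul_mulVec, s.d.hp]
  by_cases h : l = i
  · subst h
    rw [if_pos rfl, s.d.X_spec hx]
    have h1 : ∀ a', a' = a := by
      intro a'
      have h2 := a.2
      have h3 := a'.2
      exact Fin.ext (by omega)
    rw [Finset.sum_eq_single a]
    · have h4 : (s.d.X x l).det = s.d.X x l a a := by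
        rw [← sum_det_one hi (s.d.X x l) a, Finset.sum_eq_single a]
        · intro a' _ h'
          exact absurd (h1 a') h'
        · intro h
          exact absurd (Finset.mem_univ _) h
      rw [h4]
    · intro a' _ h'
      exact absurd (h1 a') h'
    · intro h
      exact absurd (Finset.mem_univ _) h
  · rw [if_neg (by exact h), Matrix.mulVec_zero, smul_zero]

theorem p_ne (i : Fin s.d.k) : s.d.p i ≠ 0 := (s.d.isComp i).2.1

/-- The character of the CM components with exponents `nn`. -/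
def chr (n : Fin s.d.k → ℤ) : Matrix (Idx g) (Idx g) ℂ →₀ ℤ :=
  Finsupp.mapDomain s.d.p (Finsupp.equivFunOnFinite.symm n)

theorem chr_supp (n : Fin s.d.k → ℤ) (p : Matrix (Idx g) (Idx g) ℂ) (hp : p ∈ (chr s n).support) :
    ∃ i, p = s.d.p i ∧ n i ≠ 0 := by
  classical
  unfold chr at hp
  rw [Finsupp.mapDomain_support_of_injective s.d.p_injective] at hp
  obtain ⟨i, hi, rfl⟩ := Finset.mem_image.1 hp
  refine ⟨i, rfl, ?_⟩
  simpa using hi

theorem chr_supp' (n : Fin s.d.k → ℤ) (i : Fin s.d.k) (hi : n i ≠ 0) :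
    s.d.p i ∈ (chr s n).support := by
  classical
  unfold chr
  rw [Finsupp.mapDomain_support_of_injective s.d.p_injective]
  refine Finset.mem_image.2 ⟨i, ?_, rfl⟩
  simpa using hi

theorem chr_prod (n : Fin s.d.k → ℤ) (y : Matrix (Idx g) (Idx g) ℂ → ℂ) :
    ((chr s n).prod fun p k => y p ^ k) = ∏ i, y (s.d.p i) ^ n i := by
  unfold chr
  rw [Finsupp.prod_mapDomain_index_inj s.d.p_injective, Finsupp.prod_fintype]
  · rfl
  · intro i
    exact _root_.zpow_zero _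

/-- Evaluation of the character on a matrix which commutes with the endomorphisms. -/
theorem chr_eval (n : Fin s.d.k → ℤ) (hn : ∀ i, s.d.m i = 2 → n i = 0)
    {x : Matrix (Idx g) (Idx g) ℂ} (hx : A.Comm x) (y : Matrix (Idx g) (Idx g) ℂ → ℂ)
    (hy : ∀ p ∈ (chr s n).support, x * p = y p • p) :
    ((chr s n).prod fun p k => y p ^ k) = ∏ i, (s.d.X x i).det ^ n i := by
  rw [chr_prod]
  refine Finset.prod_congr rfl fun i _ => ?_
  by_cases hi : n i = 0
  · rw [hi, _root_.zpow_zero, _root_.zpow_zero]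
  · have hm : s.d.m i = 1 := by
      rcases s.hm i with h | h
      · exact h
      · exact absurd (hn i h) hi
    have h1 := hy _ (chr_supp' s n i hi)
    rw [mul_p s hx i hm] at h1
    have h2 : ((s.d.X x i).det - y (s.d.p i)) • s.d.p i = 0 := by
      rw [sub_smul, h1, sub_self]
    rcases smul_eq_zero.1 h2 with h3 | h3
    · rw [sub_eq_zero.1 h3]
    · exact absurd h3 (p_ne s i)

theorem exists_y {x : Matrix (Idx g) (Idx g) ℂ} (hx : A.Comm x) (n : Fin s.d.k → ℤ)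
    (hn : ∀ i, s.d.m i = 2 → n i = 0) :
    ∃ y : Matrix (Idx g) (Idx g) ℂ → ℂ, ∀ p ∈ (chr s n).support, x * p = y p • p := by
  have h : ∀ p : Matrix (Idx g) (Idx g) ℂ, ∃ y : ℂ, p ∈ (chr s n).support → x * p = y • p := by
    intro p
    by_cases hp : p ∈ (chr s n).support
    · obtain ⟨i, rfl, hi⟩ := chr_supp s n p hp
      have hm : s.d.m i = 1 := by
        rcases s.hm i with h | h
        · exact h
        · exact absurd (hn i h) hi
      exact ⟨_, fun _ => mul_p s hx i hm⟩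
    · exact ⟨0, fun h => absurd h hp⟩
  choose y hy using h
  exact ⟨y, hy⟩

section Rel

variable (a : RR s → ℤ) (n : CX s → ℤ) (m : ℤ)

theorem rel_one4 (hForm : Stmt_Form) (hH54A : Stmt_H54A) (hH54B : Stmt_H54B) (hGb1 : Stmt_Gb1)
    (hA : A.Rank2CM) (hT : A.Trit)
    (h : ∀ δ ∈ Gm3 s, ∃ N : ℕ, 1 ≤ N ∧
      ((∏ r, (δ.1 r).val.det ^ a r) * (∏ i, (δ.2.1 i).val ^ n i) * δ.2.2.val ^ m) ^ N = 1)
    (q : CG A) (hq : IsSim q) (hH : A.HodgeRels q.1.1 q.1.2) :
    (∏ r, (((Phi s q).1 r).val.det) ^ a r) * (∏ i, ((Phi s q).2.1 i).val ^ n i) *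
      (Phi s q).2.2.val ^ m = 1 := by
  have hν : q.1.2.val ≠ 0 := q.1.2.ne_zero
  have hreal : ∀ i, s.c i = i → nn s a n i = 0 := by
    intro i hi
    have n1 : ¬ s.d.m i = 1 := fun h => s.h1 i h hi
    have n2 : ¬ (s.d.m i = 2 ∧ i < s.c i) := fun h => absurd h.2 (by rw [hi]; exact lt_irrefl _)
    unfold nn
    rw [dif_neg n1, dif_neg n2, add_zero]
  have htor : ∀ p ∈ Gam A, ∃ N : ℕ, 1 ≤ N ∧
      ((∏ i, (s.d.X p.1.val i).det ^ nn s a n i) * p.2.val ^ (m + ∑ i, mu s a n i)) ^ N = 1 := by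
    intro p hp
    obtain ⟨N, hN, hN'⟩ := h (Phi s ⟨p, gam_comm hGb1 hp⟩)
      ((mem_Gm3 s _).2 ⟨⟨p, gam_comm hGb1 hp⟩, hp, rfl⟩)
    refine ⟨N, hN, ?_⟩
    rw [rel_value s a n m hForm ⟨p, gam_comm hGb1 hp⟩ (hGb1 g A p hp).2] at hN'
    exact hN'
  have r1 := hH54A g A hA s.d (nn s a n) (m + ∑ i, mu s a n i)
    (fun i hi => hreal i (s.d.p_injective (by rw [s.hc, hi]))) htor
  rw [rel_value s a n m hForm q hq]
  have r4 : ∀ i, s.d.m i = 2 → nn s a n i = 0 := by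
    intro i hi
    rcases le_or_gt (s.c i) i with hlt | hlt
    · unfold nn
      rw [dif_neg (by omega), dif_neg (fun h => absurd h.2 (not_lt.2 hlt)), add_zero]
    · rw [← r1 i (s.c i) (s.hc i) hi]
      have h2 : s.d.m (s.c i) = 2 := by rw [s.hmc, hi]
      unfold nn
      rw [dif_neg (by omega), dif_neg (fun h => absurd h.2 (by rw [c_c]; exact not_lt.2 hlt.le)),
        add_zero]
  have hsupp : ∀ p ∈ (chr s (nn s a n)).support, A.IsCM p := by
    intro p hp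
    obtain ⟨i, rfl, hi⟩ := chr_supp s _ p hp
    have hm : s.d.m i = 1 := by
      rcases s.hm i with h | h
      · exact h
      · exact absurd (r4 i h) hi
    refine ⟨s.d.isComp i, ?_⟩
    rw [s.d.dim, hm]
    norm_num
  have hodge := hH54B g A hT (chr s (nn s a n)) (m + ∑ i, mu s a n i) hsupp (by
    intro p hp
    obtain ⟨N, hN, hN'⟩ := htor p hp
    refine ⟨N, hN, fun y hy => ?_⟩
    rw [chr_eval s (nn s a n) r4 (gam_comm hGb1 hp) y hy]
    exact hN')
  obtain ⟨y, hy⟩ := exists_y s q.2 (nn s a n) r4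
  have hfin := hH (chr s (nn s a n)) (m + ∑ i, mu s a n i) hodge y hy
  rw [chr_eval s (nn s a n) r4 q.2 y hy] at hfin
  exact hfin

end Rel

end MAIN4_

open MAIN4_ in
theorem main4_proof (hDec : Stmt_Dec) (hGal3 : Stmt_Gal3) (hMix : Stmt_Mix) (hForm : Stmt_Form)
    (hFinX : Stmt_FinX) (hIrrX : Stmt_IrrX) (hTors3 : Stmt_Tors3) (hLnk : Stmt_LNK4)
    (hH54A : Stmt_H54A) (hH54B : Stmt_H54B) (hAB4 : Stmt_AB4) (hTrans : Stmt_Trans)
    (hGt3 : Stmt_Gt3) (hGb1 : Stmt_Gb1) (hGb2 : Stmt_Gb2) (hRev : Stmt_Rev) (hRevh : Stmt_REVH) :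
    MainStatement4 := by
  intro g A hA x ν
  refine ⟨fun h => ⟨(hRev g A x ν h).1, (hRev g A x ν h).2, hRevh g A x ν h⟩, ?_⟩
  rintro ⟨hc, hs, hH⟩ t D hD
  have hT : A.Trit := hA.cm.elim (hAB4 g A) id
  obtain ⟨s⟩ := exists_setup4 hDec hGal3 hMix hA
  choose C hC1 hC2 using exists_coef s hForm
  obtain ⟨t', D', hD'⟩ := hTrans (BIdx (RR s) (CX s)) (Idx g) (tJ s) t (Jmap s C)
    (Jmap_inj s C hC2) D
  have hst : ∀ δ ∈ Gm3 s, D'.map (TAct t' (bm δ) δ.2.2.val) ≤ D' := by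
    intro δ hδ
    obtain ⟨q, hq, rfl⟩ := (mem_Gm3 s δ).1 hδ
    refine (hD' (bm (Phi s q)) q.1.1.val q.1.2.val q.1.2.ne_zero (fun v => ?_)).2
      (hGb2 g A t D hD q.1 hq)
    exact Jmap_equiv s C q (fun i => hC1 i q (hGb1 g A q.1 hq).2) v _
  let q : CG A := ⟨(x, ν), hc⟩
  have hq : IsSim q := hs
  have hfin := hGt3 (RR s) (CX s) (Gm3 s) (bhyp4 s hGb1 hIrrX hFinX hLnk hTors3 hA) t' D' hst
    (Phi s q) (fun a n m h => rel_one4 s a n m hForm hH54A hH54B hGb1 hA hT h q hq hH)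
  have hle : D.map (TAct t x.val ν.val) ≤ D :=
    (hD' (bm (Phi s q)) x.val ν.val ν.ne_zero
      (fun v => Jmap_equiv s C q (fun i => hC1 i q hq) v _)).1 hfin
  have hinj : Function.Injective (TAct t x.val ν.val) := by
    have : (TAct t (x⁻¹).val (ν⁻¹).val).comp (TAct t x.val ν.val) = LinearMap.id := by
      rw [← TAct_comp, ← Units.val_mul, ← Units.val_mul, inv_mul_cancel, inv_mul_cancel,
        Units.val_one, Units.val_one, TAct_one]
    intro u v huv
    have h3 := congrArg (TAct t (x⁻¹).val (ν⁻¹).val) huv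
    have h4 : ∀ w, TAct t (x⁻¹).val (ν⁻¹).val (TAct t x.val ν.val w) = w := by
      intro w
      exact congrArg (fun L : (TIdx t (Idx g) → ℂ) →ₗ[ℂ] (TIdx t (Idx g) → ℂ) => L w) this
    rw [h4, h4] at h3
    exact h3
  refine Submodule.eq_of_le_of_finrank_eq hle ?_
  exact (LinearEquiv.finrank_eq (Submodule.equivMapOfInjective _ hinj D)).symm

end

end Pool.Agent.SPG
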