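import Pool.Agent.SPG.Stmts
import Pool.Agent.DRB.Gb3

/-!
# SPG, module PEX: existence and uniqueness of the periods of the CM components
-/

open scoped BigOperators Topology
open Matrix

namespace Pool.Agent.SPG

open Pool.Agent.DRB
open Pool.Agent.SPF (Alg CMF IsType cj zT IsPStr SympBasis SS TT SDat IsTh)

noncomputable section

namespace PEX_

variable {g : ℕ}

/-- The action of an automorphism on the coordinates of `per v`. -/
theorem tau_per (A : AbVar g) {τ : ℂ ≃ₐ[ℚ] ℂ} (hτ : τ ∈ GalA) {q : Matrix (Idx g) (Idx g) ℂ}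
    (hq : q = A.per⁻¹ * A.per.map τ) {p : Matrix (Idx g) (Idx g) ℂ} {y : ℂ} (hy : q * p = y • p)
    {v : Idx g → ℂ} (hv : ∀ j, Alg (v j)) (hpv : p *ᵥ v = v) (k : Idx g) :
    τ ((A.per *ᵥ v) k) = y * (A.per *ᵥ v) k := by
  have h1 : τ ((A.per *ᵥ v) k) = ((A.per.map τ) *ᵥ v) k := by
    simp only [Matrix.mulVec, dotProduct, map_sum, map_mul, Matrix.map_apply]
    refine Finset.sum_congr rfl fun j _ => ?_
    rw [hτ _ (hv j)]
  have h2 : A.per.map τ = A.per * q := by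
    rw [hq, ← Matrix.mul_assoc, GB3X.per_mul_inv, Matrix.one_mul]
  have h3 : (A.per.map τ) *ᵥ v = y • (A.per *ᵥ v) := by
    calc (A.per.map τ) *ᵥ v = (A.per * q) *ᵥ (p *ᵥ v) := by rw [h2, hpv]
      _ = A.per *ᵥ ((q * p) *ᵥ v) := by
        rw [Matrix.mulVec_mulVec, Matrix.mulVec_mulVec, Matrix.mul_assoc]
      _ = y • (A.per *ᵥ v) := by
        rw [hy, Matrix.smul_mulVec, Matrix.mulVec_smul, hpv]
  rw [h1, h3, Pi.smul_apply, smul_eq_mul]

theorem per_ne (A : AbVar g) {v : Idx g → ℂ} (hv : v ≠ 0) : A.per *ᵥ v ≠ 0 := by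
  intro h
  apply hv
  have h1 : A.per⁻¹ *ᵥ (A.per *ᵥ v) = v := by
    rw [Matrix.mulVec_mulVec, GB3X.per_inv_mul, Matrix.one_mulVec]
  rw [← h1, h, Matrix.mulVec_zero]

/-- The action of an automorphism on a period. -/
theorem tau_P (A : AbVar g) {τ : ℂ ≃ₐ[ℚ] ℂ} (hτ : τ ∈ GalA) {q : Matrix (Idx g) (Idx g) ℂ}
    (hq : q = A.per⁻¹ * A.per.map τ) {p : Matrix (Idx g) (Idx g) ℂ} {y : ℂ} (hy : q * p = y • p)
    {P : ℂ} (hP : IsPer A p P) : τ P = y * P := by
  obtain ⟨_, v, a, hv, ha, hv0, hpv, hva⟩ := hP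
  have h1 := per_ne A hv0
  rw [hva] at h1
  have h2 : a ≠ 0 := by
    rintro rfl
    exact h1 (smul_zero _)
  obtain ⟨k, hk⟩ := Function.ne_iff.1 h2
  have hk' : a k ≠ 0 := hk
  have h3 := tau_per A hτ hq hy hv hpv k
  rw [hva, Pi.smul_apply, smul_eq_mul, map_mul, hτ _ (ha k)] at h3
  exact mul_right_cancel₀ hk' (by rw [h3, mul_assoc])

theorem alg_of_fixed (hAut2 : Stmt_Aut2) (z : ℂ) (h : ∀ τ ∈ GalA, τ z = z) : Alg z := by
  apply hAut2
  refine Set.Countable.mono (s₂ := {z}) ?_ (Set.countable_singleton z)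
  rintro w ⟨τ, hτ, rfl⟩
  rw [h τ hτ]
  rfl

theorem exists_scalar (hPHOL : Stmt_PHOL) (hGb1 : Stmt_Gb1) (A : AbVar g)
    {q : GL (Idx g) ℂ × ℂˣ} (hq : q ∈ Gam A) {p : Matrix (Idx g) (Idx g) ℂ} (hp : A.IsCM p) :
    ∃ y : ℂ, q.1.val * p = y • p :=
  (hPHOL g A p hp).2.2.2.2 q.1.val fun α hα => (hGb1 g A q hq).1 α hα

theorem cc_ne {p : Matrix (Idx g) (Idx g) ℂ} (hp : p ≠ 0) : cc p ≠ 0 := by
  intro h
  apply hp
  ext i j
  have h1 := congrFun (congrFun h i) j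
  simpa [cc] using h1

/-- The scalars on conjugate components. -/
theorem scal_mul (hRos : Stmt_Ros) (hLeg : Stmt_Leg) (A : AbVar g) {q : GL (Idx g) ℂ × ℂˣ}
    (hs : q.1.valᵀ * A.riem * q.1.val = q.2.val • A.riem) {p : Matrix (Idx g) (Idx g) ℂ}
    (hp : A.IsComp p) {y y' : ℂ} (h1 : q.1.val * p = y • p) (h2 : q.1.val * cc p = y' • cc p) :
    y * y' = q.2.val := by
  have hR := (hRos g A p hp).1
  have hidem : p * p = p := hp.1.2.1
  have hcc : cc p * cc p = cc p := by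
    have := congrArg cc hidem
    unfold cc at this ⊢
    rw [Matrix.map_mul] at this
    exact this
  have h3 : pᵀ * A.riem * cc p = A.riem * cc p := by
    rw [hR, Matrix.mul_assoc, hcc]
  have h4 : A.riem * cc p ≠ 0 := by
    intro h
    apply cc_ne hp.2.1
    have hu : IsUnit A.riem.det := (hLeg g A).2.2.1
    calc cc p = A.riem⁻¹ * (A.riem * cc p) := by
          rw [← Matrix.mul_assoc, Matrix.nonsing_inv_mul _ hu, Matrix.one_mul]
      _ = 0 := by rw [h, Matrix.mul_zero]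
  have h5 : (y * y') • (A.riem * cc p) = q.2.val • (A.riem * cc p) := by
    calc (y * y') • (A.riem * cc p) = (y * y') • (pᵀ * A.riem * cc p) := by rw [h3]
      _ = (y • p)ᵀ * A.riem * (y' • cc p) := by
        rw [Matrix.transpose_smul, Matrix.smul_mul, Matrix.smul_mul, Matrix.mul_smul, smul_smul]
      _ = (q.1.val * p)ᵀ * A.riem * (q.1.val * cc p) := by rw [h1, h2]
      _ = pᵀ * (q.1.valᵀ * A.riem * q.1.val) * cc p := by
        rw [Matrix.transpose_mul]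
        simp only [Matrix.mul_assoc]
      _ = q.2.val • (pᵀ * A.riem * cc p) := by
        rw [hs, Matrix.mul_smul, Matrix.smul_mul]
      _ = _ := by rw [h3]
  rw [← sub_eq_zero, ← sub_smul] at h5
  rcases smul_eq_zero.1 h5 with h | h
  · exact sub_eq_zero.1 h
  · exact absurd h h4

end PEX_

open PEX_ in
theorem pex_proof (hPHOL : Stmt_PHOL) (hGb1 : Stmt_Gb1) (hAut2 : Stmt_Aut2) (hLeg : Stmt_Leg)
    (hRos : Stmt_Ros) (_hDec : Stmt_Dec) (hGal3 : Stmt_Gal3) : Stmt_PEX := by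
  intro g A p hp
  have hcomp : A.IsComp p := hp.1
  have hidem : p * p = p := hcomp.1.2.1
  have key : ∀ v : Idx g → ℂ, (∀ j, Alg (v j)) → v ≠ 0 → p *ᵥ v = v →
      ∃ (P : ℂ) (a : Idx g → ℂ), P ≠ 0 ∧ (∀ j, Alg (a j)) ∧ A.per *ᵥ v = P • a := by
    intro v hv hv0 hpv
    obtain ⟨k, hk⟩ := Function.ne_iff.1 (per_ne A hv0)
    have hk' : (A.per *ᵥ v) k ≠ 0 := hk
    refine ⟨(A.per *ᵥ v) k, fun j => (A.per *ᵥ v) j / (A.per *ᵥ v) k, hk', fun j => ?_, ?_⟩
    · apply alg_of_fixed hAut2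
      intro τ hτ
      obtain ⟨q, hq, hq1, _⟩ := GB3X.exists_coc A hτ
      obtain ⟨y, hy⟩ := exists_scalar hPHOL hGb1 A hq hp
      have e1 := tau_per A hτ hq1 hy hv hpv j
      have e2 := tau_per A hτ hq1 hy hv hpv k
      have hy0 : y ≠ 0 := by
        rintro rfl
        rw [zero_mul] at e2
        exact hk' ((map_eq_zero τ).1 e2)
      rw [map_div₀, e1, e2, mul_div_mul_left _ _ hy0]
    · funext j
      rw [Pi.smul_apply, smul_eq_mul, mul_div_cancel₀ _ hk']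
  refine ⟨key, ?_, ?_, ?_⟩
  · have hne : ∃ i j, p i j ≠ 0 := by
      by_contra hcon
      push Not at hcon
      exact hcomp.2.1 (by ext i j; exact hcon i j)
    obtain ⟨i, j, hij⟩ := hne
    have halg := (hGal3 g A p hcomp).2.2.2
    have hv0 : (fun k => p k j) ≠ 0 := by
      intro h
      exact hij (congrFun h i)
    have hpv : p *ᵥ (fun k => p k j) = fun k => p k j := by
      funext k
      have := congrFun (congrFun hidem k) j
      rw [Matrix.mul_apply] at this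
      exact this
    obtain ⟨P, a, hP, ha, hva⟩ := key _ (fun k => halg k j) hv0 hpv
    exact ⟨P, hP, _, a, fun k => halg k j, ha, hv0, hpv, hva⟩
  · intro P P' hP hP'
    apply alg_of_fixed hAut2
    intro τ hτ
    obtain ⟨q, hq, hq1, _⟩ := GB3X.exists_coc A hτ
    obtain ⟨y, hy⟩ := exists_scalar hPHOL hGb1 A hq hp
    have e1 := tau_P A hτ hq1 hy hP
    have e2 := tau_P A hτ hq1 hy hP'
    have hy0 : y ≠ 0 := by
      rintro rfl
      rw [zero_mul] at e2
      exact hP'.1 ((map_eq_zero τ).1 e2)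
    rw [map_div₀, e1, e2, mul_div_mul_left _ _ hy0]
  · intro P P' hP hP'
    apply alg_of_fixed hAut2
    intro τ hτ
    obtain ⟨q, hq, hq1, hq2⟩ := GB3X.exists_coc A hτ
    obtain ⟨y, hy⟩ := exists_scalar hPHOL hGb1 A hq hp
    obtain ⟨y', hy'⟩ := exists_scalar hPHOL hGb1 A hq (hPHOL g A p hp).2.1
    have e1 := tau_P A hτ hq1 hy hP
    have e2 := tau_P A hτ hq1 hy' hP'
    have e3 := scal_mul hRos hLeg A (hGb1 g A q hq).2 hcomp hy hy'
    rw [hq2] at e3
    have ht := tpi_ne_zero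
    have ht' : τ tpi ≠ 0 := fun h => ht ((map_eq_zero τ).1 h)
    rw [map_div₀, map_mul, e1, e2, div_eq_div_iff ht' ht]
    have e4 : y * y' * tpi = τ tpi := by
      rw [e3, div_mul_cancel₀ _ ht]
    rw [← e4]
    ring

end

end Pool.Agent.SPG
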