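import Pool.Agent.SPG.Stmts
import Pool.Agent.DRB.Mix

/-!
# SPG, PHOL: Galois action, purity and types of the CM components
-/

set_option autoImplicit false

open scoped BigOperators Topology
open Matrix

namespace Pool.Agent.SPG

open Pool.Agent.DRB

noncomputable section

namespace PHOL_

variable {g : ℕ} (A : AbVar g)

/-- a vector fixed by a nonzero idempotent -/
theorem exists_fixed {p : Matrix (Idx g) (Idx g) ℂ} (hpp : p * p = p) (hp0 : p ≠ 0) :
    ∃ v : Idx g → ℂ, v ≠ 0 ∧ p *ᵥ v = v := by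
  have hw : ∃ w : Idx g → ℂ, p *ᵥ w ≠ 0 := by
    by_contra hcon
    push Not at hcon
    apply hp0
    ext i j
    have := congrFun (hcon (Pi.single j 1)) i
    rw [Matrix.mulVec_single_one] at this
    simpa using this
  obtain ⟨w, hw⟩ := hw
  exact ⟨p *ᵥ w, hw, by rw [Matrix.mulVec_mulVec, hpp]⟩

theorem entry (p : Matrix (Idx g) (Idx g) ℂ) (k : Fin g) (j : Idx g) :
    pr (A.per *ᵥ (p *ᵥ Pi.single j 1)) k = (A.per * p) (Sum.inl k) j := by
  rw [Matrix.mulVec_mulVec]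
  show ((A.per * p) *ᵥ Pi.single j 1) (Sum.inl k) = _
  rw [Matrix.mulVec_single_one]
  rfl

/-- The component is holomorphic iff one (every) nonzero vector of it is not in the kernel. -/
theorem hol_iff (hDec : Stmt_Dec) {p : Matrix (Idx g) (Idx g) ℂ} (hp : A.IsCM p)
    {v : Idx g → ℂ} (hv0 : v ≠ 0) (hpv : p *ᵥ v = v) :
    pr (A.per *ᵥ v) ≠ 0 ↔ A.Hol p := by
  obtain ⟨d⟩ := hDec g A
  obtain ⟨i, hi⟩ := (d.comp p).1 hp.1
  have hm : d.m i = 1 := by
    have h2 := d.dim i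
    have h3 : A.comDim p = 1 := hp.2
    rw [← hi, h3] at h2
    nlinarith [d.mpos i]
  have hpp : p * p = p := hp.1.1.2.1
  constructor
  · intro h
    by_contra hcon
    apply h
    have hcon' : ∀ (k : Fin g) (j : Idx g), (A.per * p) (Sum.inl k) j = 0 := by
      intro k j
      by_contra hk
      exact hcon ⟨k, j, hk⟩
    funext k
    rw [← hpv, Matrix.mulVec_mulVec]
    show ((A.per * p) *ᵥ v) (Sum.inl k) = 0
    have e : ((A.per * p) *ᵥ v) (Sum.inl k) = ∑ j, (A.per * p) (Sum.inl k) j * v j := rfl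
    rw [e]
    exact Finset.sum_eq_zero fun j _ => by rw [hcon' k j, zero_mul]
  · rintro ⟨k, j, hkj⟩ h
    have hv : v ∈ IrrX.kk A := (IrrX.mem_kk A v).2 h
    rw [hi] at hpv
    have h1 := MIXX.simple A d i hm hv0 hpv hv (p *ᵥ Pi.single j 1) (by
      rw [← hi, Matrix.mulVec_mulVec, hpp])
    have h2 := (IrrX.mem_kk A _).1 h1
    apply hkj
    rw [← entry A p k j, h2]
    rfl

theorem scalar (hDec : Stmt_Dec) {p : Matrix (Idx g) (Idx g) ℂ} (hp : A.IsCM p)
    (x : Matrix (Idx g) (Idx g) ℂ) (hx : A.Comm x) : ∃ y : ℂ, x * p = y • p := by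
  obtain ⟨d⟩ := hDec g A
  obtain ⟨i, hi⟩ := (d.comp p).1 hp.1
  have hm : d.m i = 1 := by
    have h2 := d.dim i
    have h3 : A.comDim p = 1 := hp.2
    rw [← hi, h3] at h2
    nlinarith [d.mpos i]
  have hsub : ∀ a a' : Fin (d.m i), a = a' := by
    intro a a'
    have h1 := a.2
    have h2 := a'.2
    exact Fin.ext (by omega)
  set a0 : Fin (d.m i) := ⟨0, d.mpos i⟩ with ha0
  refine ⟨d.X x i a0 a0, ?_⟩
  apply Matrix.toLin'.injective
  refine d.B.ext fun e => ?_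
  rw [Matrix.toLin'_apply, Matrix.toLin'_apply, ← Matrix.mulVec_mulVec, Matrix.smul_mulVec, hi,
    d.hp]
  by_cases he : e.1 = i
  · obtain ⟨j, a, b⟩ := e
    simp only at he
    subst he
    rw [if_pos rfl, d.X_spec hx, Finset.sum_eq_single a]
    · rw [hsub a a0]
    · intro c _ hc
      exact absurd (hsub c a) hc
    · intro h
      exact absurd (Finset.mem_univ _) h
  · rw [if_neg he, Matrix.mulVec_zero, smul_zero]

end PHOL_

theorem phol_proof (hDec : Stmt_Dec) (hGal : Stmt_Gal3) : Stmt_PHOL := by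
  intro g A p hp
  obtain ⟨h1, h2, h3, -⟩ := hGal g A p hp.1
  have hcm : A.IsCM (cc p) := ⟨h2, by rw [h3]; exact hp.2⟩
  refine ⟨fun σ => ⟨(h1 σ).1, by rw [(h1 σ).2]; exact hp.2⟩, hcm, ?_,
    fun v hv0 hpv => PHOL_.hol_iff A hDec hp hv0 hpv, fun x hx => PHOL_.scalar A hDec hp x hx⟩
  have hpp : p * p = p := hp.1.1.2.1
  obtain ⟨v, hv0, hpv⟩ := PHOL_.exists_fixed hpp hp.1.2.1
  have hcv : ∀ u : Idx g → ℂ, IrrX.sv IrrX.cj (p *ᵥ u) = cc p *ᵥ IrrX.sv IrrX.cj u := by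
    intro u
    rw [IrrX.sv_mulVec, ← MIXX.cc_eq_map]
  have hcv0 : ∀ u : Idx g → ℂ, u ≠ 0 → IrrX.sv IrrX.cj u ≠ 0 := fun u hu => IrrX.sv_ne IrrX.cj hu
  have hfix : cc p *ᵥ IrrX.sv IrrX.cj v = IrrX.sv IrrX.cj v := by
    rw [← hcv, hpv]
  rw [← PHOL_.hol_iff A hDec hp hv0 hpv, ← PHOL_.hol_iff A hDec hcm (hcv0 v hv0) hfix]
  constructor
  · intro ha hb
    -- both outside of the kernel
    obtain ⟨y, z, hyz, hy, hz⟩ := IrrX.kk_codisj A v
    have hy' : p *ᵥ y ∈ IrrX.kk A := MIXX.kk_endC A hp.1.1.1 hy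
    have hz' : cc p *ᵥ IrrX.sv IrrX.cj z ∈ IrrX.kk A := MIXX.kk_endC A hcm.1.1.1 hz
    have hy0 : p *ᵥ y = 0 := by
      by_contra hne
      have h4 := (PHOL_.hol_iff A hDec hp hne (by rw [Matrix.mulVec_mulVec, hpp])).2
        ((PHOL_.hol_iff A hDec hp hv0 hpv).1 hb)
      exact h4 ((IrrX.mem_kk A _).1 hy')
    have hz0 : p *ᵥ z = 0 := by
      by_contra hne
      have h5 := hcv0 _ hne
      rw [hcv] at h5
      have hpp' : cc p * cc p = cc p := hcm.1.1.2.1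
      have h4 := (PHOL_.hol_iff A hDec hcm h5 (by rw [Matrix.mulVec_mulVec, hpp'])).2
        ((PHOL_.hol_iff A hDec hcm (hcv0 v hv0) hfix).1 ha)
      exact h4 ((IrrX.mem_kk A _).1 hz')
    apply hv0
    rw [← hpv, hyz, Matrix.mulVec_add, hy0, hz0, add_zero]
  · intro hb ha
    apply hb
    intro hvk
    apply hv0
    exact IrrX.kk_disj A ((IrrX.mem_kk A v).2 hvk) ((IrrX.mem_kk A _).2 ha)

end

end Pool.Agent.SPG
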