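import Pool.Agent.SPG.Stmts
import Pool.Agent.DRB.T1e

set_option linter.unusedSectionVars false

/-!
# SPG / T3: different CM types have different periods
-/

open scoped BigOperators Topology
open Matrix

namespace Pool.Agent.SPG

open Pool.Agent.DRB
open Pool.Agent.SPF (Alg CMF IsType cj)

noncomputable section

namespace T3_

variable {E : Type} [Field E] [NumberField E]

theorem cj_cj (φ : E →+* ℂ) : cj (cj φ) = φ := by
  ext x
  simp [cj]

theorem cj_eq_iff (φ ψ : E →+* ℂ) : cj φ = ψ ↔ φ = cj ψ := by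
  constructor
  · intro h; rw [← h, cj_cj]
  · intro h; rw [h, cj_cj]

/-- The embeddings are linearly independent. -/
theorem emb_indep (a : (E →+* ℂ) → ℂ) (h : ∀ x : E, ∑ φ : E →+* ℂ, a φ * φ x = 0) : a = 0 := by
  have h1 := linearIndependent_monoidHom E ℂ
  have h2 : LinearIndependent ℂ (fun φ : E →+* ℂ => ((φ : E →* ℂ) : E → ℂ)) := by
    refine h1.comp (fun φ : E →+* ℂ => (φ : E →* ℂ)) ?_
    intro φ ψ hh
    ext x
    exact DFunLike.congr_fun hh x
  rw [Fintype.linearIndependent_iff] at h2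
  have h3 := h2 a (by
    funext x
    rw [Finset.sum_apply]
    simpa using h x)
  funext φ
  exact h3 φ

/-- The vectors of the values of the embeddings span. -/
theorem span_emb : Submodule.span ℂ (Set.range fun (x : E) (φ : E →+* ℂ) => φ x) = ⊤ := by
  classical
  by_contra h
  obtain ⟨f, hf, hle⟩ := Submodule.exists_le_ker_of_lt_top _ (lt_top_iff_ne_top.2 h)
  apply hf
  have key : ∀ s : (E →+* ℂ) → ℂ, f s = ∑ φ, f (Pi.single φ 1) * s φ := by
    intro s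
    have e : s = ∑ φ, s φ • (Pi.single φ (1 : ℂ) : (E →+* ℂ) → ℂ) := by
      funext ψ
      rw [Finset.sum_apply, Finset.sum_eq_single ψ]
      · simp
      · intro φ _ hne
        rw [Pi.smul_apply, Pi.single_eq_of_ne hne.symm, smul_zero]
      · intro hh; exact absurd (Finset.mem_univ _) hh
    conv_lhs => rw [e]
    rw [map_sum]
    exact Finset.sum_congr rfl fun φ _ => by rw [map_smul, smul_eq_mul, mul_comm]
  have h0 := emb_indep (fun φ => f (Pi.single φ 1)) (by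
    intro x
    rw [← key]
    exact hle (Submodule.subset_span ⟨x, rfl⟩))
  apply LinearMap.ext
  intro s
  rw [key s]
  simp [congrFun h0]

variable {g : ℕ} (β : Module.Basis (Idx g) ℚ (E × E))

/-- The two families of functionals. -/
def Mv : (Idx g → ℂ) →ₗ[ℂ] ((E →+* ℂ) → ℂ) × ((E →+* ℂ) → ℂ) where
  toFun v := (fun φ => ∑ k, v k * φ (β k).1, fun φ => ∑ k, v k * φ (β k).2)
  map_add' v w := by
    ext φ
    · simp only [Pi.add_apply, add_mul, Finset.sum_add_distrib, Prod.fst_add]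
    · simp only [Pi.add_apply, add_mul, Finset.sum_add_distrib, Prod.snd_add]
  map_smul' c v := by
    ext φ
    · simp only [Pi.smul_apply, smul_eq_mul, mul_assoc, ← Finset.mul_sum, Prod.smul_fst,
        RingHom.id_apply]
    · simp only [Pi.smul_apply, smul_eq_mul, mul_assoc, ← Finset.mul_sum, Prod.smul_snd,
        RingHom.id_apply]

theorem Mv_fst (v : Idx g → ℂ) (φ : E →+* ℂ) : (Mv β v).1 φ = ∑ k, v k * φ (β k).1 := rfl

theorem Mv_snd (v : Idx g → ℂ) (φ : E →+* ℂ) : (Mv β v).2 φ = ∑ k, v k * φ (β k).2 := rfl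

theorem map_rat_smul (φ : E →+* ℂ) (r : ℚ) (x : E) : φ (r • x) = (r : ℂ) * φ x := by
  rw [Algebra.smul_def, map_mul]
  congr 1
  exact map_ratCast φ r

/-- The rational vector of an element of `E × E`. -/
def rv (z : E × E) : Idx g → ℂ := fun k => ((β.repr z k : ℚ) : ℂ)

theorem Mv_rv (z : E × E) : Mv β (rv β z) = (fun φ => φ z.1, fun φ => φ z.2) := by
  have e := β.sum_repr z
  ext φ
  · rw [Mv_fst]
    have e1 : z.1 = ∑ k, (β.repr z k) • (β k).1 := by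
      conv_lhs => rw [← e]
      rw [Prod.fst_sum]
      rfl
    show ∑ k, ((β.repr z k : ℚ) : ℂ) * φ (β k).1 = φ z.1
    conv_rhs => rw [e1]
    rw [map_sum]
    exact Finset.sum_congr rfl fun k _ => (map_rat_smul φ _ _).symm
  · rw [Mv_snd]
    have e1 : z.2 = ∑ k, (β.repr z k) • (β k).2 := by
      conv_lhs => rw [← e]
      rw [Prod.snd_sum]
      rfl
    show ∑ k, ((β.repr z k : ℚ) : ℂ) * φ (β k).2 = φ z.2
    conv_rhs => rw [e1]
    rw [map_sum]
    exact Finset.sum_congr rfl fun k _ => (map_rat_smul φ _ _).symm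

theorem Mv_surj : Function.Surjective (Mv β) := by
  have h1 : ∀ s : (E →+* ℂ) → ℂ, ∃ v, Mv β v = (s, 0) := by
    intro s
    have hs : s ∈ Submodule.span ℂ (Set.range fun (x : E) (φ : E →+* ℂ) => φ x) := by
      rw [span_emb]; trivial
    induction hs using Submodule.span_induction with
    | mem s hs =>
      obtain ⟨x, rfl⟩ := hs
      refine ⟨rv β (x, 0), ?_⟩
      rw [Mv_rv]
      ext φ
      · rfl
      · exact map_zero φ
    | zero => exact ⟨0, by rw [map_zero]; rfl⟩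
    | add s t _ _ hs ht =>
      obtain ⟨v, hv⟩ := hs
      obtain ⟨w, hw⟩ := ht
      exact ⟨v + w, by rw [map_add, hv, hw]; ext φ <;> simp⟩
    | smul c s _ hs =>
      obtain ⟨v, hv⟩ := hs
      exact ⟨c • v, by rw [map_smul, hv]; ext φ <;> simp⟩
  have h2 : ∀ s : (E →+* ℂ) → ℂ, ∃ v, Mv β v = (0, s) := by
    intro s
    have hs : s ∈ Submodule.span ℂ (Set.range fun (x : E) (φ : E →+* ℂ) => φ x) := by
      rw [span_emb]; trivial
    induction hs using Submodule.span_induction with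
    | mem s hs =>
      obtain ⟨x, rfl⟩ := hs
      refine ⟨rv β (0, x), ?_⟩
      rw [Mv_rv]
      ext φ
      · exact map_zero φ
      · rfl
    | zero => exact ⟨0, by rw [map_zero]; rfl⟩
    | add s t _ _ hs ht =>
      obtain ⟨v, hv⟩ := hs
      obtain ⟨w, hw⟩ := ht
      exact ⟨v + w, by rw [map_add, hv, hw]; ext φ <;> simp⟩
    | smul c s _ hs =>
      obtain ⟨v, hv⟩ := hs
      exact ⟨c • v, by rw [map_smul, hv]; ext φ <;> simp⟩
  rintro ⟨s, t⟩
  obtain ⟨v, hv⟩ := h1 s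
  obtain ⟨w, hw⟩ := h2 t
  exact ⟨v + w, by rw [map_add, hv, hw]; ext φ <;> simp⟩

theorem Mv_inj : Function.Injective (Mv β) := by
  have hd : Module.finrank ℂ (Idx g → ℂ) =
      Module.finrank ℂ (((E →+* ℂ) → ℂ) × ((E →+* ℂ) → ℂ)) := by
    rw [Module.finrank_prod, Module.finrank_fintype_fun_eq_card,
      Module.finrank_fintype_fun_eq_card, NumberField.Embeddings.card,
      ← Module.finrank_eq_card_basis β, Module.finrank_prod]
  exact (LinearMap.injective_iff_surjective_of_finrank_eq_finrank hd).2 (Mv_surj β)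

/-- The equivalence. -/
def Me : (Idx g → ℂ) ≃ₗ[ℂ] ((E →+* ℂ) → ℂ) × ((E →+* ℂ) → ℂ) :=
  LinearEquiv.ofBijective (Mv β) ⟨Mv_inj β, Mv_surj β⟩

theorem Me_apply (v : Idx g → ℂ) : Me β v = Mv β v := rfl

open Classical in
/-- The dual vectors, first factor. -/
def u₁ (φ : E →+* ℂ) : Idx g → ℂ := (Me β).symm (Pi.single φ 1, 0)

open Classical in
/-- The dual vectors, second factor. -/
def u₂ (φ : E →+* ℂ) : Idx g → ℂ := (Me β).symm (0, Pi.single φ 1)

open Classical in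
theorem Mv_u₁ (φ : E →+* ℂ) : Mv β (u₁ β φ) = (Pi.single φ 1, 0) := by
  rw [← Me_apply]; exact (Me β).apply_symm_apply _

open Classical in
theorem Mv_u₂ (φ : E →+* ℂ) : Mv β (u₂ β φ) = (0, Pi.single φ 1) := by
  rw [← Me_apply]; exact (Me β).apply_symm_apply _

theorem expand (v : Idx g → ℂ) :
    v = ∑ φ, (Mv β v).1 φ • u₁ β φ + ∑ φ, (Mv β v).2 φ • u₂ β φ := by
  classical
  apply Mv_inj β
  rw [map_add, map_sum, map_sum]
  ext ψ
  · rw [Prod.fst_add, Prod.fst_sum, Prod.fst_sum, Pi.add_apply, Finset.sum_apply, Finset.sum_apply,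
      Finset.sum_eq_single ψ, Finset.sum_eq_zero]
    · rw [map_smul, Mv_u₁]; simp
    · intro φ _; rw [map_smul, Mv_u₂]; simp
    · intro φ _ hne
      rw [map_smul, Mv_u₁, Prod.smul_fst, Pi.smul_apply]
      show (Mv β v).1 φ • (Pi.single φ (1 : ℂ) : (E →+* ℂ) → ℂ) ψ = 0
      rw [Pi.single_eq_of_ne hne.symm, smul_zero]
    · intro hh; exact absurd (Finset.mem_univ _) hh
  · rw [Prod.snd_add, Prod.snd_sum, Prod.snd_sum, Pi.add_apply, Finset.sum_apply, Finset.sum_apply,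
      Finset.sum_eq_zero, Finset.sum_eq_single ψ]
    · rw [map_smul, Mv_u₂]; simp
    · intro φ _ hne
      rw [map_smul, Mv_u₂, Prod.smul_snd, Pi.smul_apply]
      show (Mv β v).2 φ • (Pi.single φ (1 : ℂ) : (E →+* ℂ) → ℂ) ψ = 0
      rw [Pi.single_eq_of_ne hne.symm, smul_zero]
    · intro hh; exact absurd (Finset.mem_univ _) hh
    · intro φ _; rw [map_smul, Mv_u₁]; simp

theorem Mv_cv_fst (v : Idx g → ℂ) (φ : E →+* ℂ) :
    (Mv β (cv v)).1 φ = (starRingEnd ℂ) ((Mv β v).1 (cj φ)) := by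
  rw [Mv_fst, Mv_fst, map_sum]
  refine Finset.sum_congr rfl fun k _ => ?_
  rw [map_mul]
  show (starRingEnd ℂ) (v k) * φ (β k).1 = (starRingEnd ℂ) (v k) * (starRingEnd ℂ)
    ((starRingEnd ℂ) (φ (β k).1))
  rw [Complex.conj_conj]

theorem Mv_cv_snd (v : Idx g → ℂ) (φ : E →+* ℂ) :
    (Mv β (cv v)).2 φ = (starRingEnd ℂ) ((Mv β v).2 (cj φ)) := by
  rw [Mv_snd, Mv_snd, map_sum]
  refine Finset.sum_congr rfl fun k _ => ?_
  rw [map_mul]
  show (starRingEnd ℂ) (v k) * φ (β k).2 = (starRingEnd ℂ) (v k) * (starRingEnd ℂ)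
    ((starRingEnd ℂ) (φ (β k).2))
  rw [Complex.conj_conj]

open T1EX in
theorem zz_zero (A : AbVar g) : zz A 0 = 0 := by
  have := zz_smul A 0 0
  rwa [zero_smul, zero_smul] at this

open T1EX in
theorem zz_sum (A : AbVar g) {κ : Type} (s : Finset κ) (f : κ → Idx g → ℂ) :
    zz A (∑ k ∈ s, f k) = ∑ k ∈ s, zz A (f k) := by
  classical
  induction s using Finset.induction_on with
  | empty => rw [Finset.sum_empty, Finset.sum_empty, zz_zero]
  | insert a s ha ih => rw [Finset.sum_insert ha, Finset.sum_insert ha, zz_add, ih]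

section Hodge

open T1EX

variable (A : AbVar g) (Φ Φ' : Finset (E →+* ℂ))

theorem zz_zero_of (h1 : ∀ φ, φ ∉ Φ → zz A (u₁ β φ) = 0) (h2 : ∀ φ, φ ∉ Φ' → zz A (u₂ β φ) = 0)
    (v : Idx g → ℂ) (k1 : ∀ φ ∈ Φ, (Mv β v).1 φ = 0) (k2 : ∀ φ ∈ Φ', (Mv β v).2 φ = 0) :
    zz A v = 0 := by
  rw [expand β v, zz_add, zz_sum, zz_sum, Finset.sum_eq_zero, Finset.sum_eq_zero, add_zero]
  · intro φ _
    rw [zz_smul]
    by_cases h : φ ∈ Φ'
    · rw [k2 φ h, zero_smul]
    · rw [h2 φ h, smul_zero]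
  · intro φ _
    rw [zz_smul]
    by_cases h : φ ∈ Φ
    · rw [k1 φ h, zero_smul]
    · rw [h1 φ h, smul_zero]

open Classical in
/-- A vector killed by the projection has no components in the types. -/
theorem comp_zero (t1 : IsType Φ) (t2 : IsType Φ')
    (h1 : ∀ φ, φ ∉ Φ → zz A (u₁ β φ) = 0) (h2 : ∀ φ, φ ∉ Φ' → zz A (u₂ β φ) = 0)
    (v : Idx g → ℂ) (hv : zz A v = 0) :
    (∀ φ ∈ Φ, (Mv β v).1 φ = 0) ∧ ∀ φ ∈ Φ', (Mv β v).2 φ = 0 := by
  obtain ⟨a1, ha1⟩ := Mv_surj β (fun φ => if φ ∈ Φ then 0 else (Mv β v).1 φ,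
    fun φ => if φ ∈ Φ' then 0 else (Mv β v).2 φ)
  obtain ⟨a2, ha2⟩ := Mv_surj β (fun φ => if φ ∈ Φ then (Mv β v).1 φ else 0,
    fun φ => if φ ∈ Φ' then (Mv β v).2 φ else 0)
  have e : v = a1 + a2 := by
    apply Mv_inj β
    rw [map_add, ha1, ha2]
    ext φ
    · show (Mv β v).1 φ = (if φ ∈ Φ then 0 else (Mv β v).1 φ) + (if φ ∈ Φ then (Mv β v).1 φ else 0)
      split_ifs <;> simp
    · show (Mv β v).2 φ = (if φ ∈ Φ' then 0 else (Mv β v).2 φ) + (if φ ∈ Φ' then (Mv β v).2 φ else 0)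
      split_ifs <;> simp
  have z1 : zz A a1 = 0 := by
    refine zz_zero_of β A Φ Φ' h1 h2 a1 ?_ ?_
    · intro φ hφ
      rw [ha1]
      exact if_pos hφ
    · intro φ hφ
      rw [ha1]
      exact if_pos hφ
  have z2 : zz A a2 = 0 := by
    rw [e, zz_add, z1, zero_add] at hv
    exact hv
  have z3 : zz A (cv a2) = 0 := by
    refine zz_zero_of β A Φ Φ' h1 h2 (cv a2) ?_ ?_
    · intro φ hφ
      rw [Mv_cv_fst, ha2]
      have : cj φ ∉ Φ := (t1 φ).1 hφ
      show (starRingEnd ℂ) (if cj φ ∈ Φ then (Mv β v).1 (cj φ) else 0) = 0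
      rw [if_neg this, map_zero]
    · intro φ hφ
      rw [Mv_cv_snd, ha2]
      have : cj φ ∉ Φ' := (t2 φ).1 hφ
      show (starRingEnd ℂ) (if cj φ ∈ Φ' then (Mv β v).2 (cj φ) else 0) = 0
      rw [if_neg this, map_zero]
  have z4 := eq_zero_of A z2 z3
  rw [z4, map_zero] at ha2
  refine ⟨?_, ?_⟩
  · intro φ hφ
    have := congrFun (congrArg Prod.fst ha2) φ
    simp only [if_pos hφ] at this
    exact this.symm
  · intro φ hφ
    have := congrFun (congrArg Prod.snd ha2) φ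
    simp only [if_pos hφ] at this
    exact this.symm

end Hodge

/-- The complexification of the diagonal. -/
def Dg : Submodule ℂ (Idx g → ℂ) where
  carrier := {v | (Mv β v).1 = (Mv β v).2}
  add_mem' := by
    intro v w hv hw
    simp only [Set.mem_ofPred_eq, map_add, Prod.fst_add, Prod.snd_add] at *
    rw [hv, hw]
  zero_mem' := by
    simp only [Set.mem_ofPred_eq, map_zero]
    rfl
  smul_mem' := by
    intro c v hv
    simp only [Set.mem_ofPred_eq, map_smul, Prod.smul_fst, Prod.smul_snd] at *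
    rw [hv]

theorem mem_Dg (v : Idx g → ℂ) : v ∈ Dg β ↔ (Mv β v).1 = (Mv β v).2 := Iff.rfl

theorem rat_Dg : RatSpan (Dg β) := by
  intro v hv
  rw [mem_Dg] at hv
  have key : ∀ s : (E →+* ℂ) → ℂ, ∀ w : Idx g → ℂ, Mv β w = (s, s) →
      w ∈ Submodule.span ℂ {v | v ∈ Dg β ∧ ∀ k, ∃ q : ℚ, v k = q} := by
    intro s
    have hs : s ∈ Submodule.span ℂ (Set.range fun (x : E) (φ : E →+* ℂ) => φ x) := by
      rw [span_emb]; trivial
    induction hs using Submodule.span_induction with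
    | mem s hs =>
      obtain ⟨x, rfl⟩ := hs
      intro w hw
      have e : w = rv β (x, x) := by
        apply Mv_inj β
        rw [hw, Mv_rv]
      rw [e]
      refine Submodule.subset_span ⟨?_, fun k => ⟨β.repr (x, x) k, rfl⟩⟩
      rw [mem_Dg, Mv_rv]
    | zero =>
      intro w hw
      have e : w = 0 := by
        apply Mv_inj β
        rw [hw, map_zero]
        rfl
      rw [e]
      exact Submodule.zero_mem _
    | add s t _ _ hs ht =>
      intro w hw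
      obtain ⟨w1, h1⟩ := Mv_surj β (s, s)
      obtain ⟨w2, h2⟩ := Mv_surj β (t, t)
      have e : w = w1 + w2 := by
        apply Mv_inj β
        rw [hw, map_add, h1, h2]
        rfl
      rw [e]
      exact Submodule.add_mem _ (hs w1 h1) (ht w2 h2)
    | smul c s _ hs =>
      intro w hw
      obtain ⟨w1, h1⟩ := Mv_surj β (s, s)
      have e : w = c • w1 := by
        apply Mv_inj β
        rw [hw, map_smul, h1]
        rfl
      rw [e]
      exact Submodule.smul_mem _ _ (hs w1 h1)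
  refine key (Mv β v).1 v ?_
  ext φ
  · rfl
  · rw [hv]

theorem ext_ne_zero {Φ : Finset (E →+* ℂ)} (t : IsType Φ) {c : (E →+* ℂ) → ℂ}
    (hc : ∀ φ ∈ Φ, c φ ≠ 0) (φ : E →+* ℂ) : ext Φ c φ ≠ 0 := by
  unfold ext
  by_cases h : φ ∈ Φ
  · rw [if_pos h]; exact hc φ h
  · rw [if_neg h]
    have h' : cj φ ∈ Φ := by
      rw [t (cj φ), cj_cj]; exact h
    exact div_ne_zero tpi_ne_zero (hc _ h')

theorem u₁_spec (φ : E →+* ℂ) : (∑ k, u₁ β φ k * φ (β k).1 = 1) ∧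
    (∀ ψ : E →+* ℂ, ψ ≠ φ → ∑ k, u₁ β φ k * ψ (β k).1 = 0) ∧
    ∀ ψ : E →+* ℂ, ∑ k, u₁ β φ k * ψ (β k).2 = 0 := by
  classical
  have h := Mv_u₁ β φ
  refine ⟨?_, ?_, ?_⟩
  · rw [← Mv_fst, h]
    show (Pi.single φ (1 : ℂ) : (E →+* ℂ) → ℂ) φ = 1
    exact Pi.single_eq_same _ _
  · intro ψ hne
    rw [← Mv_fst, h]
    show (Pi.single φ (1 : ℂ) : (E →+* ℂ) → ℂ) ψ = 0
    exact Pi.single_eq_of_ne hne _
  · intro ψ
    rw [← Mv_snd, h]; rfl

theorem u₂_spec (φ : E →+* ℂ) : (∑ k, u₂ β φ k * φ (β k).2 = 1) ∧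
    (∀ ψ : E →+* ℂ, ψ ≠ φ → ∑ k, u₂ β φ k * ψ (β k).2 = 0) ∧
    ∀ ψ : E →+* ℂ, ∑ k, u₂ β φ k * ψ (β k).1 = 0 := by
  classical
  have h := Mv_u₂ β φ
  refine ⟨?_, ?_, ?_⟩
  · rw [← Mv_snd, h]
    show (Pi.single φ (1 : ℂ) : (E →+* ℂ) → ℂ) φ = 1
    exact Pi.single_eq_same _ _
  · intro ψ hne
    rw [← Mv_snd, h]
    show (Pi.single φ (1 : ℂ) : (E →+* ℂ) → ℂ) ψ = 0
    exact Pi.single_eq_of_ne hne _
  · intro ψ
    rw [← Mv_fst, h]; rfl

end T3_

open T3_ T1EX in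
theorem t3_proof (hA : Stmt_ABV2) (hT : DRB.Stmt_T1p) : Stmt_T3 := by
  classical
  intro E _ _ K Φ Φ' ξ ξ' c c' t1 t2 S1 S2 hq
  have hc : ∀ φ ∈ Φ, c φ ≠ 0 := fun φ hφ => S1.2.2.1 ⟨φ, hφ⟩
  have hc' : ∀ φ ∈ Φ', c' φ ≠ 0 := fun φ hφ => S2.2.2.1 ⟨φ, hφ⟩
  obtain ⟨g, A, β, hb1, hb2⟩ := hA E K Φ Φ' ξ ξ' c c' t1 t2 S1 S2
  have k1 : ∀ φ : E →+* ℂ, ∃ a : Idx g → ℂ, (∀ j, Alg (a j)) ∧
      A.per *ᵥ (u₁ β φ) = ext Φ c φ • a ∧ (φ ∈ Φ ↔ pr a ≠ 0) := by
    intro φ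
    obtain ⟨x1, x2, x3⟩ := u₁_spec β φ
    exact hb1 φ _ x1 x2 x3
  have k2 : ∀ φ : E →+* ℂ, ∃ a : Idx g → ℂ, (∀ j, Alg (a j)) ∧
      A.per *ᵥ (u₂ β φ) = ext Φ' c' φ • a ∧ (φ ∈ Φ' ↔ pr a ≠ 0) := by
    intro φ
    obtain ⟨x1, x2, x3⟩ := u₂_spec β φ
    exact hb2 φ _ x1 x2 x3
  choose a ha1 ha2 ha3 using k1
  choose a' ha1' ha2' ha3' using k2
  have h1 : ∀ φ, φ ∉ Φ → zz A (u₁ β φ) = 0 := by
    intro φ hφ
    have : pr (a φ) = 0 := by
      by_contra hh; exact hφ ((ha3 φ).2 hh)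
    unfold zz
    rw [ha2 φ]
    show ext Φ c φ • pr (a φ) = 0
    rw [this, smul_zero]
  have h2 : ∀ φ, φ ∉ Φ' → zz A (u₂ β φ) = 0 := by
    intro φ hφ
    have : pr (a' φ) = 0 := by
      by_contra hh; exact hφ ((ha3' φ).2 hh)
    unfold zz
    rw [ha2' φ]
    show ext Φ' c' φ • pr (a' φ) = 0
    rw [this, smul_zero]
  have halg : AlgSpan ((Dg β).map A.per.mulVecLin) := by
    rintro w ⟨v, hv, rfl⟩
    have hv' : (Mv β v).1 = (Mv β v).2 := hv
    have e : v = ∑ φ, (Mv β v).1 φ • (u₁ β φ + u₂ β φ) := by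
      conv_lhs => rw [expand β v]
      rw [← hv', ← Finset.sum_add_distrib]
      exact Finset.sum_congr rfl fun φ _ => (smul_add _ _ _).symm
    rw [e, map_sum]
    refine Submodule.sum_mem _ fun φ _ => ?_
    rw [map_smul]
    refine Submodule.smul_mem _ _ ?_
    have ne := ext_ne_zero t2 hc' φ
    have e2 : A.per.mulVecLin (u₁ β φ + u₂ β φ) =
        ext Φ' c' φ • ((ext Φ c φ / ext Φ' c' φ) • a φ + a' φ) := by
      rw [Matrix.mulVecLin_apply, Matrix.mulVec_add, ha2, ha2', smul_add, smul_smul,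
        mul_div_cancel₀ _ ne]
    have hmem : u₁ β φ + u₂ β φ ∈ Dg β := by
      rw [mem_Dg, map_add, Mv_u₁, Mv_u₂]
      ext ψ
      simp
    rw [e2]
    refine Submodule.smul_mem _ _ (Submodule.subset_span ⟨?_, ?_⟩)
    · refine ⟨(ext Φ' c' φ)⁻¹ • (u₁ β φ + u₂ β φ), (Dg β).smul_mem _ hmem, ?_⟩
      rw [map_smul, e2, smul_smul, inv_mul_cancel₀ ne, one_smul]
    · intro j
      exact ((hq φ).mul (ha1 φ j)).add (ha1' φ j)
  have hsub : ∀ φ, φ ∈ Φ → φ ∈ Φ' := by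
    intro φ hφ
    by_contra hφ'
    have hmem : u₁ β φ + u₂ β φ ∈ Dg β := by
      rw [mem_Dg, map_add, Mv_u₁, Mv_u₂]
      ext ψ
      simp
    obtain ⟨x, hx, y, hy, hxy, hx0, hy0⟩ := hT g A (Dg β) (rat_Dg β) halg _ hmem
    have cx := (comp_zero β A Φ Φ' t1 t2 h1 h2 x hx0).1 φ hφ
    have cy := (comp_zero β A Φ Φ' t1 t2 h1 h2 (cv y) hy0).2 (cj φ) (by
      rw [t2 (cj φ), cj_cj]; exact hφ')
    rw [Mv_cv_snd, cj_cj, map_eq_zero] at cy
    have hy' : (Mv β y).1 φ = 0 := by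
      rw [(mem_Dg β y).1 hy]; exact cy
    have hs := congrArg (fun v => (Mv β v).1 φ) hxy
    simp only [map_add, Prod.fst_add, Pi.add_apply, cx, hy', Mv_u₁, Mv_u₂, Pi.single_eq_same,
      Pi.zero_apply, add_zero, one_ne_zero] at hs
  ext φ
  refine ⟨hsub φ, fun hφ => ?_⟩
  by_contra hn
  have hn' : cj φ ∈ Φ := by
    rw [t1 (cj φ), cj_cj]; exact hn
  exact (t2 φ).1 hφ (hsub _ hn')

end

end Pool.Agent.SPG
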