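import Pool.Agent.SPG.Stmts

/-! Module TAB1: the period table of a CM field. -/

set_option autoImplicit false
set_option linter.unusedSectionVars false

open scoped BigOperators Topology
open Matrix

namespace Pool.Agent.SPG

open Pool.Agent.DRB
open Pool.Agent.SPF (Alg CMF IsType cj zT IsPStr SympBasis SS TT SDat IsTh)

noncomputable section

namespace TAB1_

variable {E : Type} [Field E] [NumberField E]

theorem cj_cj (φ : E →+* ℂ) : cj (cj φ) = φ := by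
  ext x
  simp [cj]

theorem ext_in {Φ : Finset (E →+* ℂ)} {c : (E →+* ℂ) → ℂ} {φ : E →+* ℂ} (h : φ ∈ Φ) :
    ext Φ c φ = c φ := by
  unfold ext
  rw [if_pos h]

theorem ext_out {Φ : Finset (E →+* ℂ)} {c : (E →+* ℂ) → ℂ} {φ : E →+* ℂ} (h : φ ∉ Φ) :
    ext Φ c φ = tpi / c (cj φ) := by
  unfold ext
  rw [if_neg h]

theorem cj_mem {Φ : Finset (E →+* ℂ)} (hΦ : IsType Φ) {φ : E →+* ℂ} (h : φ ∉ Φ) : cj φ ∈ Φ := by
  by_contra h1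
  exact h ((hΦ φ).2 h1)

theorem S_nz (K : CMF E) {ξ : E} {Φ : Finset (E →+* ℂ)} {c : (E →+* ℂ) → ℂ} (h : K.S ξ Φ c)
    {φ : E →+* ℂ} (hφ : φ ∈ Φ) : c φ ≠ 0 := h.2.2.1 ⟨φ, hφ⟩

/-- the conjugate type -/
def ccl (Φ : Finset (E →+* ℂ)) : Finset (E →+* ℂ) := open Classical in Finset.univ.filter fun φ => φ ∉ Φ

theorem mem_ccl {Φ : Finset (E →+* ℂ)} {φ : E →+* ℂ} : φ ∈ ccl Φ ↔ φ ∉ Φ := by
  unfold ccl
  simp

theorem isType_of {Φ Φ' : Finset (E →+* ℂ)} (hΦ : IsType Φ) (h : ∀ φ, φ ∈ Φ' ↔ φ ∉ Φ) : IsType Φ' := by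
  intro φ
  rw [h φ, h (cj φ), hΦ φ]

theorem key_twi (hUNQ : SPF.Stmt_UNQ) (hTWI : SPF.Stmt_TWI) (K : CMF E)
    {Φ Φ' : Finset (E →+* ℂ)} (hΦ : IsType Φ) (h : ∀ φ, φ ∈ Φ' ↔ φ ∉ Φ) {ξ ξ' : E}
    {c c' : (E →+* ℂ) → ℂ} (hS : K.S ξ Φ c) (hS' : K.S ξ' Φ' c') (φ : E →+* ℂ) :
    Alg (ext Φ c φ * ext Φ' c' φ / tpi) := by
  have hΦ' : IsType Φ' := isType_of hΦ h
  have hcomp : ∀ ψ : E →+* ℂ, ψ.comp (K.bar : E →+* E) = cj ψ := by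
    intro ψ
    ext x
    exact K.bar_spec ψ x
  have h1 := hTWI E K Φ Φ' ξ c K.bar (fun x => rfl) (fun ψ => by
    rw [hcomp ψ, h ψ, hΦ ψ, not_not]) hS
  have h2 := hUNQ E K Φ' ξ' (K.bar ξ) c' _ hΦ' hS' h1
  have e0 := tpi_ne_zero
  by_cases hφ : φ ∈ Φ
  · have hφ' : φ ∉ Φ' := fun h3 => (h φ).1 h3 hφ
    have h3 : cj φ ∈ Φ' := cj_mem hΦ' hφ'
    have h4 := h2 _ h3
    rw [hcomp, cj_cj] at h4
    rw [ext_in hφ, ext_out hφ']
    have e1 := S_nz K hS hφ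
    have e2 := S_nz K hS' h3
    have h5 : c φ * (tpi / c' (cj φ)) / tpi = (c' (cj φ) / c φ)⁻¹ := by field_simp
    rw [h5]
    exact h4.inv
  · have hφ' : φ ∈ Φ' := (h φ).2 hφ
    have h3 : cj φ ∈ Φ := cj_mem hΦ hφ
    have h4 := h2 _ hφ'
    rw [hcomp] at h4
    rw [ext_out hφ, ext_in hφ']
    have e1 := S_nz K hS h3
    have h5 : tpi / c (cj φ) * c' φ / tpi = c' φ / c (cj φ) := by field_simp
    rw [h5]
    exact h4

theorem ext_nz (K : CMF E) {ξ : E} {Φ : Finset (E →+* ℂ)} {c : (E →+* ℂ) → ℂ} (hΦ : IsType Φ)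
    (h : K.S ξ Φ c) (φ : E →+* ℂ) : ext Φ c φ ≠ 0 := by
  by_cases hφ : φ ∈ Φ
  · rw [ext_in hφ]
    exact S_nz K h hφ
  · rw [ext_out hφ]
    exact div_ne_zero tpi_ne_zero (S_nz K h (cj_mem hΦ hφ))

end TAB1_

open TAB1_ in
theorem tab1_proof (hALLT : SPF.Stmt_ALLT) (hUNQ : SPF.Stmt_UNQ) (hR4 : SPF.Stmt_R4)
    (hTWI : SPF.Stmt_TWI) : Stmt_TAB1 := by
  classical
  intro E _ _ K hi hw
  have hex := hALLT E K hi hw
  choose! ξ c hS using hex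
  have htwi : ∀ Φ Φ', IsType Φ → (∀ φ, φ ∈ Φ' ↔ φ ∉ Φ) → ∀ φ,
      Alg (ext Φ (c Φ) φ * ext Φ' (c Φ') φ / tpi) := fun Φ Φ' hΦ h φ =>
    key_twi hUNQ hTWI K hΦ h (hS Φ hΦ) (hS Φ' (isType_of hΦ h)) φ
  refine ⟨fun Φ φ => ext Φ (c Φ) φ, ?_, ?_, ?_, ?_, ?_⟩
  · intro Φ hΦ φ
    exact ext_nz K hΦ (hS Φ hΦ) φ
  · intro Φ hΦ φ
    have e0 := tpi_ne_zero
    have h1 : ext Φ (c Φ) φ * ext Φ (c Φ) (cj φ) / tpi = 1 := by
      by_cases hφ : φ ∈ Φ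
      · have h2 : cj φ ∉ Φ := (hΦ φ).1 hφ
        rw [ext_in hφ, ext_out h2, cj_cj]
        have := S_nz K (hS Φ hΦ) hφ
        field_simp
      · have h2 : cj φ ∈ Φ := cj_mem hΦ hφ
        rw [ext_out hφ, ext_in h2]
        have := S_nz K (hS Φ hΦ) h2
        field_simp
    show Alg (ext Φ (c Φ) φ * ext Φ (c Φ) (cj φ) / tpi)
    rw [h1]
    exact isAlgebraic_one
  · exact htwi
  · -- the relations of length four
    have hmixed : ∀ Φ₁ Φ₂ Φ₃ Φ₄ : Finset (E →+* ℂ), IsType Φ₁ → IsType Φ₂ → IsType Φ₃ → IsType Φ₄ →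
        (∀ φ, (if φ ∈ Φ₁ then 1 else 0) + (if φ ∈ Φ₂ then 1 else 0) =
          (if φ ∈ Φ₃ then 1 else 0) + (if φ ∈ Φ₄ then (1 : ℕ) else 0)) →
        ∀ φ, φ ∈ Φ₁ → φ ∉ Φ₂ → φ ∈ Φ₃ → φ ∉ Φ₄ →
          Alg (ext Φ₁ (c Φ₁) φ * ext Φ₂ (c Φ₂) φ / (ext Φ₃ (c Φ₃) φ * ext Φ₄ (c Φ₄) φ)) := by
      intro Φ₁ Φ₂ Φ₃ Φ₄ t1 t2 t3 t4 h φ h1 h2 h3 h4
      have t2' : IsType (ccl Φ₂) := isType_of t2 fun _ => mem_ccl
      have t4' : IsType (ccl Φ₄) := isType_of t4 fun _ => mem_ccl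
      have hrel : ∀ ψ, (if ψ ∈ Φ₁ then 1 else 0) + (if ψ ∈ ccl Φ₄ then 1 else 0) =
          (if ψ ∈ Φ₃ then 1 else 0) + (if ψ ∈ ccl Φ₂ then (1 : ℕ) else 0) := by
        intro ψ
        have h5 := h ψ
        simp only [mem_ccl]
        by_cases a1 : ψ ∈ Φ₁ <;> by_cases a2 : ψ ∈ Φ₂ <;> by_cases a3 : ψ ∈ Φ₃ <;>
          by_cases a4 : ψ ∈ Φ₄ <;> simp_all
      have m2 : φ ∈ ccl Φ₂ := mem_ccl.2 h2
      have m4 : φ ∈ ccl Φ₄ := mem_ccl.2 h4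
      have h6 := hR4 E K hi hw Φ₁ (ccl Φ₄) Φ₃ (ccl Φ₂) _ _ _ _ _ _ _ _ t1 t4' t3 t2' hrel
        (hS _ t1) (hS _ t4') (hS _ t3) (hS _ t2') φ (by
          rw [Finset.mem_inter]
          exact ⟨h1, m4⟩)
      have h7 := htwi Φ₂ (ccl Φ₂) t2 (fun _ => mem_ccl) φ
      have h8 := htwi Φ₄ (ccl Φ₄) t4 (fun _ => mem_ccl) φ
      rw [ext_in m2] at h7
      rw [ext_in m4] at h8
      rw [ext_in h1, ext_in h3]
      have e0 := tpi_ne_zero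
      have e1 := S_nz K (hS _ t2') m2
      have e2 := S_nz K (hS _ t4') m4
      have e3 := S_nz K (hS _ t1) h1
      have e4 := S_nz K (hS _ t3) h3
      have e5 := ext_nz K t2 (hS _ t2) φ
      have e6 := ext_nz K t4 (hS _ t4) φ
      have h9 := (h6.mul h7).mul h8.inv
      have h10 : c Φ₁ φ * c (ccl Φ₄) φ / (c Φ₃ φ * c (ccl Φ₂) φ) *
          (ext Φ₂ (c Φ₂) φ * c (ccl Φ₂) φ / tpi) * (ext Φ₄ (c Φ₄) φ * c (ccl Φ₄) φ / tpi)⁻¹ =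
          c Φ₁ φ * ext Φ₂ (c Φ₂) φ / (c Φ₃ φ * ext Φ₄ (c Φ₄) φ) := by
        field_simp
      rw [h10] at h9
      exact h9
    intro Φ₁ Φ₂ Φ₃ Φ₄ t1 t2 t3 t4 h φ
    show Alg (ext Φ₁ (c Φ₁) φ * ext Φ₂ (c Φ₂) φ / (ext Φ₃ (c Φ₃) φ * ext Φ₄ (c Φ₄) φ))
    have h5 := h φ
    have hsw : ∀ ψ, (if ψ ∈ Φ₂ then 1 else 0) + (if ψ ∈ Φ₁ then 1 else 0) =
        (if ψ ∈ Φ₃ then 1 else 0) + (if ψ ∈ Φ₄ then (1 : ℕ) else 0) := by
      intro ψ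
      rw [add_comm]
      exact h ψ
    by_cases h1 : φ ∈ Φ₁
    · by_cases h2 : φ ∈ Φ₂
      · have h3 : φ ∈ Φ₃ := by
          by_contra h3
          rw [if_pos h1, if_pos h2, if_neg h3] at h5
          split_ifs at h5 <;> omega
        have h4 : φ ∈ Φ₄ := by
          by_contra h4
          rw [if_pos h1, if_pos h2, if_neg h4] at h5
          split_ifs at h5 <;> omega
        rw [ext_in h1, ext_in h2, ext_in h3, ext_in h4]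
        exact hR4 E K hi hw Φ₁ Φ₂ Φ₃ Φ₄ _ _ _ _ _ _ _ _ t1 t2 t3 t4 h (hS _ t1) (hS _ t2) (hS _ t3)
          (hS _ t4) φ (Finset.mem_inter.2 ⟨h1, h2⟩)
      · by_cases h3 : φ ∈ Φ₃
        · have h4 : φ ∉ Φ₄ := by
            intro h4
            rw [if_pos h1, if_neg h2, if_pos h3, if_pos h4] at h5
            omega
          exact hmixed Φ₁ Φ₂ Φ₃ Φ₄ t1 t2 t3 t4 h φ h1 h2 h3 h4
        · have h4 : φ ∈ Φ₄ := by
            by_contra h4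
            rw [if_pos h1, if_neg h2, if_neg h3, if_neg h4] at h5
            omega
          have h6 := hmixed Φ₁ Φ₂ Φ₄ Φ₃ t1 t2 t4 t3 (fun ψ => by
            rw [h ψ, add_comm]) φ h1 h2 h4 h3
          rw [mul_comm (ext Φ₄ (c Φ₄) φ)] at h6
          exact h6
    · by_cases h2 : φ ∈ Φ₂
      · by_cases h3 : φ ∈ Φ₃
        · have h4 : φ ∉ Φ₄ := by
            intro h4
            rw [if_neg h1, if_pos h2, if_pos h3, if_pos h4] at h5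
            omega
          have h6 := hmixed Φ₂ Φ₁ Φ₃ Φ₄ t2 t1 t3 t4 hsw φ h2 h1 h3 h4
          rw [mul_comm (ext Φ₂ (c Φ₂) φ)] at h6
          exact h6
        · have h4 : φ ∈ Φ₄ := by
            by_contra h4
            rw [if_neg h1, if_pos h2, if_neg h3, if_neg h4] at h5
            omega
          have h6 := hmixed Φ₂ Φ₁ Φ₄ Φ₃ t2 t1 t4 t3 (fun ψ => by
            rw [hsw ψ, add_comm]) φ h2 h1 h4 h3
          rw [mul_comm (ext Φ₂ (c Φ₂) φ), mul_comm (ext Φ₄ (c Φ₄) φ)] at h6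
          exact h6
      · have h3 : φ ∉ Φ₃ := by
          intro h3
          rw [if_neg h1, if_neg h2, if_pos h3] at h5
          split_ifs at h5 <;> omega
        have h4 : φ ∉ Φ₄ := by
          intro h4
          rw [if_neg h1, if_neg h2, if_pos h4] at h5
          split_ifs at h5 <;> omega
        rw [ext_out h1, ext_out h2, ext_out h3, ext_out h4]
        have m1 := cj_mem t1 h1
        have m2 := cj_mem t2 h2
        have m3 := cj_mem t3 h3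
        have m4 := cj_mem t4 h4
        have h6 := hR4 E K hi hw Φ₁ Φ₂ Φ₃ Φ₄ _ _ _ _ _ _ _ _ t1 t2 t3 t4 h (hS _ t1) (hS _ t2)
          (hS _ t3) (hS _ t4) (cj φ) (Finset.mem_inter.2 ⟨m1, m2⟩)
        have e0 := tpi_ne_zero
        have e1 := S_nz K (hS _ t1) m1
        have e2 := S_nz K (hS _ t2) m2
        have e3 := S_nz K (hS _ t3) m3
        have e4 := S_nz K (hS _ t4) m4
        have h7 : tpi / c Φ₁ (cj φ) * (tpi / c Φ₂ (cj φ)) / (tpi / c Φ₃ (cj φ) * (tpi / c Φ₄ (cj φ))) =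
            (c Φ₁ (cj φ) * c Φ₂ (cj φ) / (c Φ₃ (cj φ) * c Φ₄ (cj φ)))⁻¹ := by
          field_simp
        rw [h7]
        exact h6.inv
  · intro Φ hΦ
    exact ⟨ξ Φ, c Φ, hS Φ hΦ, fun φ => rfl⟩

end

end Pool.Agent.SPG
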