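import Pool.Agent.SPG.Stmts

/-!
# TBLC: the period table of a CM subfield of the complex numbers
-/

open scoped BigOperators
open Matrix

namespace Pool.Agent.SPG

open Pool.Agent.DRB
open Pool.Agent.SPF (Alg CMF IsType cj zT IsPStr SympBasis SS TT SDat IsTh)

namespace TBLC_

/-- restriction of an automorphism of the complex numbers to `L` -/
noncomputable def restr (L : IntermediateField ℚ ℂ) (σ : ℂ ≃ₐ[ℚ] ℂ) : L →+* ℂ :=
  ((σ : ℂ ≃+* ℂ) : ℂ →+* ℂ).comp (algebraMap L ℂ)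

theorem restr_apply (L : IntermediateField ℚ ℂ) (σ : ℂ ≃ₐ[ℚ] ℂ) (z : L) :
    restr L σ z = σ (z : ℂ) := rfl

theorem conjE_apply (z : ℂ) : conjE z = (starRingEnd ℂ) z := rfl

theorem cj_restr (L : IntermediateField ℚ ℂ) (σ : ℂ ≃ₐ[ℚ] ℂ) :
    cj (restr L σ) = restr L (σ.trans conjE) := by
  ext z
  rfl

theorem numField (L : IntermediateField ℚ ℂ) (h : FiniteDimensional ℚ L) : NumberField L :=
  { to_charZero := inferInstance
    to_finiteDimensional := h }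

theorem exists_restr (h1 : Stmt_EXTA) (L : IntermediateField ℚ ℂ) (h : FiniteDimensional ℚ L)
    (φ : L →+* ℂ) : ∃ σ : ℂ ≃ₐ[ℚ] ℂ, restr L σ = φ := by
  obtain ⟨σ, hσ⟩ := h1 L h φ
  exact ⟨σ, RingHom.ext fun z => hσ z⟩

/-- the conjugation of `L` -/
noncomputable def barL (L : IntermediateField ℚ ℂ) (hL : CMSub L) : L ≃+* L :=
  RingEquiv.ofRingHom
    (RingHom.codRestrict ((starRingEnd ℂ).comp (algebraMap L ℂ)) L.toSubfield.toSubring
      (fun z => hL.gal conjE z z.2))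
    (RingHom.codRestrict ((starRingEnd ℂ).comp (algebraMap L ℂ)) L.toSubfield.toSubring
      (fun z => hL.gal conjE z z.2))
    (by ext z; exact Complex.conj_conj _)
    (by ext z; exact Complex.conj_conj _)

theorem barL_apply (L : IntermediateField ℚ ℂ) (hL : CMSub L) (z : L) :
    ((barL L hL z : L) : ℂ) = (starRingEnd ℂ) (z : ℂ) := rfl

open Classical in
/-- the set of embeddings attached to a set of automorphisms -/
noncomputable def toPhi (L : IntermediateField ℚ ℂ) [NumberField L] (Ψ : Set (ℂ ≃ₐ[ℚ] ℂ)) :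
    Finset (L →+* ℂ) :=
  Finset.univ.filter fun φ => ∃ σ ∈ Ψ, restr L σ = φ

theorem mem_toPhi (L : IntermediateField ℚ ℂ) [NumberField L] {Ψ : Set (ℂ ≃ₐ[ℚ] ℂ)}
    (hΨ : LType L Ψ) (σ : ℂ ≃ₐ[ℚ] ℂ) : restr L σ ∈ toPhi L Ψ ↔ σ ∈ Ψ := by
  classical
  unfold toPhi
  rw [Finset.mem_filter]
  constructor
  · rintro ⟨-, τ, hτ, he⟩
    refine (hΨ.res τ σ ?_).1 hτ
    intro z hz
    have := RingHom.congr_fun he ⟨z, hz⟩
    rw [restr_apply, restr_apply] at this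
    exact this
  · intro h
    exact ⟨Finset.mem_univ _, σ, h, rfl⟩

theorem isType_toPhi (h1 : Stmt_EXTA) (L : IntermediateField ℚ ℂ) [NumberField L] (h : FiniteDimensional ℚ L)
    {Ψ : Set (ℂ ≃ₐ[ℚ] ℂ)} (hΨ : LType L Ψ) : IsType (toPhi L Ψ) := by
  intro φ
  obtain ⟨σ, rfl⟩ := exists_restr h1 L h φ
  rw [cj_restr, mem_toPhi L hΨ, mem_toPhi L hΨ]
  exact hΨ.odd σ

theorem trace_rat (E : Type) [Field E] [NumberField E] (y : E) :
    ∃ r : ℚ, ∑ φ : E →+* ℂ, φ y = r := by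
  refine ⟨Algebra.trace ℚ E y, ?_⟩
  have h := trace_eq_sum_embeddings (K := ℚ) (L := E) ℂ (x := y)
  rw [eq_ratCast] at h
  rw [h]
  exact Fintype.sum_equiv (RingHom.equivRatAlgHom E ℂ) (fun φ => φ y) (fun σ => σ y) (fun _ => rfl)

end TBLC_

open TBLC_

theorem tblc_proof (h1 : Stmt_EXTA) (h2 : Stmt_TAB1) (h3 : Stmt_ADDE) (h4 : Stmt_T3)
    (h5 : Stmt_CMP) : Stmt_TBLC := by
  classical
  intro L hL
  have hfin := hL.fin
  have : NumberField L := numField L hfin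
  set K : CMF L := ⟨barL L hL, by
    intro φ x
    obtain ⟨σ, rfl⟩ := exists_restr h1 L hfin φ
    rw [restr_apply, restr_apply, barL_apply]
    exact hL.cm σ x x.2⟩ with hK
  have hi : ∃ θ : L, θ ^ 2 = -1 := by
    refine ⟨⟨Complex.I, hL.i⟩, ?_⟩
    apply Subtype.ext
    simp
  have hw : ∃ θ : L, θ ^ 2 = -3 := by
    refine ⟨⟨(Real.sqrt 3 : ℂ) * Complex.I, hL.w⟩, ?_⟩
    apply Subtype.ext
    have h3' : ((Real.sqrt 3 : ℝ) : ℂ) ^ 2 = 3 := by
      rw [← Complex.ofReal_pow, Real.sq_sqrt (by norm_num)]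
      norm_num
    have h3'' : ((-3 : L) : ℂ) = -3 := rfl
    rw [h3'']
    show ((Real.sqrt 3 : ℂ) * Complex.I) ^ 2 = -3
    rw [mul_pow, h3', Complex.I_sq]
    norm_num
  obtain ⟨Θ, hΘ⟩ := h2 L K hi hw
  refine ⟨fun Ψ σ => Θ (toPhi L Ψ) (restr L σ), ?_, ?_, ?_, ?_, ?_⟩
  · intro Ψ hΨ σ
    exact hΘ.nz _ (isType_toPhi h1 L hfin hΨ) _
  · intro Ψ hΨ σ
    have := hΘ.con _ (isType_toPhi h1 L hfin hΨ) (restr L σ)
    rw [cj_restr] at this
    exact this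
  · intro κ _ Ψ a s hΨ hs σ
    refine h3 L K Θ hΘ κ (fun k => toPhi L (Ψ k)) a s (fun k => isType_toPhi h1 L hfin (hΨ k)) ?_ _
    intro φ
    obtain ⟨τ, rfl⟩ := exists_restr h1 L hfin φ
    rw [← hs τ]
    refine Finset.sum_congr rfl fun k _ => ?_
    by_cases hm : τ ∈ Ψ k
    · rw [if_pos hm, if_pos ((mem_toPhi L (hΨ k) τ).2 hm)]
    · rw [if_neg hm, if_neg (fun h => hm ((mem_toPhi L (hΨ k) τ).1 h))]
  · intro Ψ Ψ' hΨ hΨ' hq
    obtain ⟨ξ, c, hS, hc⟩ := hΘ.dat _ (isType_toPhi h1 L hfin hΨ)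
    obtain ⟨ξ', c', hS', hc'⟩ := hΘ.dat _ (isType_toPhi h1 L hfin hΨ')
    have he : toPhi L Ψ = toPhi L Ψ' := by
      refine h4 L K _ _ ξ ξ' c c' (isType_toPhi h1 L hfin hΨ) (isType_toPhi h1 L hfin hΨ') hS hS' ?_
      intro φ
      obtain ⟨σ, rfl⟩ := exists_restr h1 L hfin φ
      rw [← hc, ← hc']
      exact hq σ
    ext σ
    rw [← mem_toPhi L hΨ, he, mem_toPhi L hΨ']
  · intro Ψ hΨ g A w P a hw' hP ha hper hpr σ₀ hσ₀
    obtain ⟨ξ, c, hS, hc⟩ := hΘ.dat _ (isType_toPhi h1 L hfin hΨ)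
    have hsec : ∀ φ : L →+* ℂ, ∃ σ : ℂ ≃ₐ[ℚ] ℂ, restr L σ = φ ∧ (φ = restr L σ₀ → σ = σ₀) := by
      intro φ
      by_cases hφ : φ = restr L σ₀
      · exact ⟨σ₀, hφ.symm, fun _ => rfl⟩
      · obtain ⟨σ, hσ⟩ := exists_restr h1 L hfin φ
        exact ⟨σ, hσ, fun h => absurd h hφ⟩
    choose s hs hs0 using hsec
    have key := h5 L K (toPhi L Ψ) ξ c (isType_toPhi h1 L hfin hΨ) hS g A
      (fun φ j => s φ (w j)) (fun φ => a (s φ)) (fun φ => P (s φ)) ?_ (fun φ => hP _)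
      (fun φ j => ha _ j) (fun φ => hper _) ?_ (restr L σ₀) ((mem_toPhi L hΨ σ₀).2 hσ₀)
    · have e0 : s (restr L σ₀) = σ₀ := hs0 _ rfl
      rw [e0] at key
      have e1 : Θ (toPhi L Ψ) (restr L σ₀) = c (restr L σ₀) := by
        rw [hc]
        unfold ext
        rw [if_pos ((mem_toPhi L hΨ σ₀).2 hσ₀)]
      show Alg (P σ₀ / Θ (toPhi L Ψ) (restr L σ₀))
      rw [e1]
      exact key
    · intro x j
      obtain ⟨r, hr⟩ := trace_rat (↥L) (x * ⟨w j, hw' j⟩)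
      refine ⟨r, ?_⟩
      rw [← hr]
      refine Finset.sum_congr rfl fun φ _ => ?_
      rw [map_mul]
      congr 1
      have := RingHom.congr_fun (hs φ) ⟨w j, hw' j⟩
      rw [restr_apply] at this
      exact this
    · intro φ
      have := mem_toPhi L hΨ (s φ)
      rw [hs φ] at this
      rw [this]
      exact hpr (s φ)

end Pool.Agent.SPG
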