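import Pool.Agent.SPG.Stmts

/-!
# TRL: relations between characters of `Γ` give algebraic monomials in the periods
-/

set_option autoImplicit false

open scoped BigOperators Topology
open Matrix

namespace Pool.Agent.SPG

open Pool.Agent.DRB
open Pool.Agent.SPF (Alg)

noncomputable section

namespace TRL_

variable {g : ℕ} (A : AbVar g)

/-- The action of an automorphism on vectors. -/
def sv (σ : ℂ ≃ₐ[ℚ] ℂ) (v : Idx g → ℂ) : Idx g → ℂ := fun k => σ (v k)

theorem sv_mulVec (σ : ℂ ≃ₐ[ℚ] ℂ) (M : Matrix (Idx g) (Idx g) ℂ) (v : Idx g → ℂ) :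
    sv σ (M *ᵥ v) = (M.map σ) *ᵥ (sv σ v) := by
  funext k
  simp only [sv, Matrix.mulVec, dotProduct, map_sum, map_mul, Matrix.map_apply]

theorem sv_smul (σ : ℂ ≃ₐ[ℚ] ℂ) (c : ℂ) (v : Idx g → ℂ) : sv σ (c • v) = σ c • sv σ v := by
  funext k
  simp [sv]

theorem sv_fix {τ : ℂ ≃ₐ[ℚ] ℂ} (hτ : τ ∈ GalA) {v : Idx g → ℂ} (hv : ∀ j, Alg (v j)) : sv τ v = v := by
  funext k
  exact hτ _ (hv k)

theorem map_map_symm (σ : ℂ ≃ₐ[ℚ] ℂ) (M : Matrix (Idx g) (Idx g) ℂ) :
    (M.map σ).map σ.symm = M := by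
  ext i j
  simp

/-- The element of `Γ` attached to `σ` and `τ`. -/
theorem exists_q (σ τ : ℂ ≃ₐ[ℚ] ℂ) (hτ : τ ∈ GalA) : ∃ q ∈ Gam A,
    q.1.val = (A.per⁻¹ * A.per.map τ).map σ ∧ q.2.val = σ (τ tpi / tpi) := by
  have hP : IsUnit A.per.det := A.nondeg
  have hPτ : IsUnit (A.per.map τ).det := by
    have h1 : (A.per.map τ).det = τ A.per.det := by
      have := RingHom.map_det (τ : ℂ →+* ℂ) A.per
      exact this.symm
    rw [h1]
    exact hP.map τ
  have hdet : IsUnit ((A.per⁻¹ * A.per.map τ).map σ).det := by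
    have h1 : ((A.per⁻¹ * A.per.map τ).map σ).det = σ (A.per⁻¹ * A.per.map τ).det := by
      have := RingHom.map_det (σ : ℂ →+* ℂ) (A.per⁻¹ * A.per.map τ)
      exact this.symm
    rw [h1, Matrix.det_mul]
    apply IsUnit.map
    exact (Matrix.isUnit_nonsing_inv_det _ hP).mul hPτ
  have h2 : σ (τ tpi / tpi) ≠ 0 := by
    intro h
    have h3 : τ tpi / tpi = 0 := by simpa using h
    rcases div_eq_zero_iff.1 h3 with h4 | h4
    · exact tpi_ne_zero (by simpa using h4)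
    · exact tpi_ne_zero h4
  let x : GL (Idx g) ℂ := Matrix.GeneralLinearGroup.mk'' _ hdet
  refine ⟨(x, Units.mk0 _ h2), ?_, rfl, rfl⟩
  apply Subgroup.subset_closure
  exact ⟨σ, τ, hτ, rfl, rfl⟩

theorem prod_div {κ : Type} (n : κ →₀ ℤ) (a b : κ → ℂ) :
    (n.prod fun p k => (a p / b p) ^ k) = (n.prod fun p k => a p ^ k) / n.prod fun p k => b p ^ k := by
  unfold Finsupp.prod
  rw [← Finset.prod_div_distrib]
  refine Finset.prod_congr rfl fun p _ => ?_
  exact div_zpow _ _ _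

theorem map_prod {κ : Type} (σ : ℂ ≃ₐ[ℚ] ℂ) (n : κ →₀ ℤ) (a : κ → ℂ) :
    σ (n.prod fun p k => a p ^ k) = n.prod fun p k => (σ (a p)) ^ k := by
  unfold Finsupp.prod
  rw [_root_.map_prod]
  refine Finset.prod_congr rfl fun p _ => ?_
  exact map_zpow₀ _ _ _

theorem countable_orbit (z : ℂ) (hz : z ≠ 0)
    (h : ∀ τ ∈ GalA, ∃ N : ℕ, 1 ≤ N ∧ (τ z / z) ^ N = 1) : {w : ℂ | ∃ τ ∈ GalA, w = τ z}.Countable := by
  have h1 : {w : ℂ | ∃ τ ∈ GalA, w = τ z} ⊆
      ⋃ N : ℕ, ((Polynomial.nthRoots (N + 1) (z ^ (N + 1))).toFinset : Set ℂ) := by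
    rintro _ ⟨τ, hτ, rfl⟩
    obtain ⟨N, hN, h2⟩ := h τ hτ
    obtain ⟨k, rfl⟩ : ∃ k, N = k + 1 := ⟨N - 1, by omega⟩
    rw [Set.mem_iUnion]
    refine ⟨k, ?_⟩
    rw [Finset.mem_coe, Multiset.mem_toFinset, Polynomial.mem_nthRoots (Nat.succ_pos k)]
    rw [div_pow, div_eq_one_iff_eq (pow_ne_zero _ hz)] at h2
    exact h2
  apply Set.Countable.mono h1
  apply Set.countable_iUnion
  intro N
  exact (Finset.finite_toSet _).countable

end TRL_

open TRL_ in
theorem trl_proof (hPHOL : Stmt_PHOL) (hAut2 : DRB.Stmt_Aut2) (hGb1 : DRB.Stmt_Gb1) : Stmt_TRL := by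
  intro g A n m hCM hrel P hP σ
  set z : ℂ := (n.prod fun p k => P (p.map σ) ^ k) * tpi ^ m with hz
  have hper : ∀ p ∈ n.support, IsPer A (p.map σ) (P (p.map σ)) := fun p hp =>
    hP _ ((hPHOL g A p (hCM p hp)).1 σ)
  have hz0 : z ≠ 0 := by
    rw [hz]
    apply mul_ne_zero _ (zpow_ne_zero _ tpi_ne_zero)
    unfold Finsupp.prod
    rw [Finset.prod_ne_zero_iff]
    intro p hp
    exact zpow_ne_zero _ (hper p hp).1
  apply hAut2
  apply countable_orbit z hz0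
  intro τ hτ
  obtain ⟨q, hq, hq1, hq2⟩ := exists_q A σ.symm τ hτ
  obtain ⟨N, hN, hy⟩ := hrel q hq
  refine ⟨N, hN, ?_⟩
  have hcomm : A.Comm q.1.val := fun α hα => (hGb1 g A q hq).1 α hα
  have key : ∀ p ∈ n.support, q.1.val * p = (σ.symm (τ (P (p.map σ)) / P (p.map σ))) • p := by
    intro p hp
    obtain ⟨hP0, v, a, hv, ha, hv0, hpv, hPv⟩ := hper p hp
    obtain ⟨y, hy⟩ := (hPHOL g A p (hCM p hp)).2.2.2.2 q.1.val hcomm
    -- the eigenvalue
    have e1 : A.per.map τ *ᵥ v = τ (P (p.map σ)) • a := by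
      have := congrArg (sv τ) hPv
      rw [sv_mulVec, sv_smul, sv_fix hτ hv, sv_fix hτ ha] at this
      exact this
    have e2 : A.per⁻¹ *ᵥ a = (P (p.map σ))⁻¹ • v := by
      have hPer : IsUnit A.per.det := A.nondeg
      have h1 : A.per⁻¹ *ᵥ (A.per *ᵥ v) = v := by
        rw [Matrix.mulVec_mulVec, Matrix.nonsing_inv_mul _ hPer, Matrix.one_mulVec]
      rw [hPv, Matrix.mulVec_smul] at h1
      rw [← h1, smul_smul, inv_mul_cancel₀ hP0, one_smul]
    have e3 : (A.per⁻¹ * A.per.map τ) *ᵥ v = (τ (P (p.map σ)) / P (p.map σ)) • v := by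
      rw [← Matrix.mulVec_mulVec, e1, Matrix.mulVec_smul, e2, smul_smul]
      rfl
    have e4 : q.1.val *ᵥ sv σ.symm v =
        σ.symm (τ (P (p.map σ)) / P (p.map σ)) • sv σ.symm v := by
      rw [hq1, ← sv_mulVec, e3, sv_smul]
    have e5 : p *ᵥ sv σ.symm v = sv σ.symm v := by
      have := congrArg (sv σ.symm) hpv
      rw [sv_mulVec, map_map_symm] at this
      exact this
    have e6 : q.1.val *ᵥ sv σ.symm v = y • sv σ.symm v := by
      conv_lhs => rw [← e5]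
      rw [Matrix.mulVec_mulVec, hy, Matrix.smul_mulVec, e5]
    have hv1 : sv σ.symm v ≠ 0 := by
      intro h
      apply hv0
      funext k
      have h1 : σ.symm (v k) = 0 := congrFun h k
      simpa using h1
    have e7 : y = σ.symm (τ (P (p.map σ)) / P (p.map σ)) := by
      rw [e6] at e4
      exact smul_left_injective ℂ hv1 e4
    rw [hy, e7]
  have h1 := hy _ key
  have h2 : (n.prod fun p k => (σ.symm (τ (P (p.map σ)) / P (p.map σ))) ^ k) * q.2.val ^ m =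
      σ.symm (τ z / z) := by
    rw [← TRL_.map_prod σ.symm n (fun p => τ (P (p.map σ)) / P (p.map σ)),
      prod_div n (fun p => τ (P (p.map σ))) (fun p => P (p.map σ)), ← TRL_.map_prod τ, hq2, ← map_zpow₀,
      ← map_mul, div_zpow, ← map_zpow₀, div_mul_div_comm, ← map_mul]
  rw [h2, ← map_pow] at h1
  have h3 := congrArg σ h1
  rw [AlgEquiv.apply_symm_apply, map_one] at h3
  exact h3

end

end Pool.Agent.SPG
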