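import Pool.Agent.DRB.Assembly3
import Pool.Agent.SPF.Asm
import Pool.Agent.SPF.ALGD
import Pool.Agent.SPF.IRR
import Pool.Agent.SPG.AB4
import Pool.Agent.SPG.ABV2
import Pool.Agent.SPG.ADDE
import Pool.Agent.SPG.CMP
import Pool.Agent.SPG.EXTA
import Pool.Agent.SPG.H54A
import Pool.Agent.SPG.H54B
import Pool.Agent.SPG.LFLD
import Pool.Agent.SPG.LNK4
import Pool.Agent.SPG.MAIN4
import Pool.Agent.SPG.MU
import Pool.Agent.SPG.PEX
import Pool.Agent.SPG.PHOL
import Pool.Agent.SPG.PTH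
import Pool.Agent.SPG.REVH
import Pool.Agent.SPG.T3
import Pool.Agent.SPG.TAB1
import Pool.Agent.SPG.TBLC
import Pool.Agent.SPG.TRL

/-!
# De Rham-Betti conjecture, complex multiplication: assembly
-/

namespace Pool.Agent.SPG

theorem irrC : SPF.Stmt_IRR := SPF.irr_proof SPF.thu_proof

theorem algdC : SPF.Stmt_ALGD := SPF.algd_proof (SPF.spn_proof irrC) SPF.lalg_proof

theorem abvC : SPF.Stmt_ABV := SPF.p_ABV irrC algdC

theorem unqC : SPF.Stmt_UNQ := SPF.p_UNQ irrC algdC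

theorem r4C : SPF.Stmt_R4 := SPF.p_R4 irrC algdC

theorem abv2C : Stmt_ABV2 :=
  abv2_proof abvC SPF.p_HM2 SPF.p_SUM SPF.rlb_proof DRB.leg_proof

theorem cmpC : Stmt_CMP := cmp_proof abvC SPF.p_HM1 SPF.rlb_proof

theorem t3C : Stmt_T3 := t3_proof abv2C DRB.t1pC

theorem tab1C : Stmt_TAB1 := tab1_proof SPF.p_ALLT unqC r4C SPF.twi_proof

theorem tblcC : Stmt_TBLC := tblc_proof exta_proof tab1C adde_proof t3C cmpC

theorem lfldC : Stmt_LFLD := lfld_proof DRB.decC DRB.gal3C DRB.rosC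

theorem pholC : Stmt_PHOL := phol_proof DRB.decC DRB.gal3C

theorem pexC : Stmt_PEX :=
  pex_proof pholC DRB.gb1C DRB.aut2_proof DRB.leg_proof DRB.rosC DRB.decC DRB.gal3C

theorem trlC : Stmt_TRL := trl_proof pholC DRB.aut2_proof DRB.gb1C

theorem pthC : Stmt_PTH := pth_proof pexC pholC

theorem ab4C : Stmt_AB4 := ab4_proof pholC DRB.decC

theorem h54aC : Stmt_H54A :=
  h54a_proof DRB.finxC DRB.formC DRB.aut2_proof DRB.gb1C DRB.gb4_proof DRB.gal3C DRB.rosC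

theorem lnk4C : Stmt_LNK4 :=
  lnk4_proof DRB.sigC DRB.formC DRB.finxC DRB.irrxC DRB.gb1C DRB.gb4_proof DRB.gal3C

theorem h54bC : Stmt_H54B :=
  h54b_proof lfldC pholC pexC pthC tblcC trlC DRB.gb4_proof DRB.gb1C DRB.lind_proof

theorem revhC : Stmt_REVH :=
  revh_proof lfldC pholC pexC pthC tblcC (DRB.rev_proof DRB.leg_proof) DRB.rosC DRB.leg_proof

/-- The main theorem. -/
theorem main4C : DRB.MainStatement4 :=
  main4_proof DRB.decC DRB.gal3C DRB.mixC DRB.formC DRB.finxC DRB.irrxC DRB.tors3C lnk4C h54aC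
    h54bC ab4C DRB.trans_proof DRB.gt3C DRB.gb1C DRB.gb2_proof
    (DRB.rev_proof DRB.leg_proof) revhC

theorem main5C : DRB.MainStatement5 := main5_proof main4C pholC DRB.leg_proof

end Pool.Agent.SPG
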