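import Pool.Agent.SPG.Stmts

/-! Module PTH: the periods of the CM components and the period table. -/

set_option autoImplicit false

open scoped BigOperators Topology
open Matrix

namespace Pool.Agent.SPG

open Pool.Agent.DRB
open Pool.Agent.SPF (Alg)

noncomputable section

namespace PTH_

theorem map_trans_conj {g : ℕ} (p : Matrix (Idx g) (Idx g) ℂ) (σ : ℂ ≃ₐ[ℚ] ℂ) :
    p.map (σ.trans conjE) = cc (p.map σ) := by
  ext i j
  rfl

theorem alg_of_mem {L : IntermediateField ℚ ℂ} (hL : CMSub L) {z : ℂ} (hz : z ∈ L) : Alg z := by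
  have := hL.fin
  have h1 : IsAlgebraic ℚ (⟨z, hz⟩ : L) := Algebra.IsAlgebraic.isAlgebraic _
  exact h1.algebraMap (A := ℂ)

end PTH_

open PTH_ in
theorem pth_proof (hPEX : Stmt_PEX) (hPHOL : Stmt_PHOL) : Stmt_PTH := by
  classical
  intro g A L θ hL hθ p hp hpL
  have hCM : ∀ σ : ℂ ≃ₐ[ℚ] ℂ, A.IsCM (p.map σ) := (hPHOL g A p hp).1
  have htype : LType L (Psi A p) := by
    refine ⟨fun σ τ h => ?_, fun σ => ?_⟩
    · have h1 : p.map σ = p.map τ := by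
        ext i j
        exact h _ (hpL i j)
      show A.Hol (p.map σ) ↔ A.Hol (p.map τ)
      rw [h1]
    · show A.Hol (p.map σ) ↔ ¬ A.Hol (p.map (σ.trans conjE))
      rw [map_trans_conj]
      have h1 := (hPHOL g A _ (hCM σ)).2.2.1
      tauto
  refine ⟨htype, ?_⟩
  -- a nonzero column of `p`
  obtain ⟨j0, hj0⟩ : ∃ j0, (fun i => p i j0) ≠ 0 := by
    by_contra hcon
    push Not at hcon
    apply hp.1.2.1
    ext i j
    exact congrFun (hcon j) i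
  set w : Idx g → ℂ := fun i => p i j0 with hw
  have hwL : ∀ i, w i ∈ L := fun i => hpL i j0
  have hpp : p * p = p := hp.1.1.2.1
  have hpw : ∀ σ : ℂ ≃ₐ[ℚ] ℂ, (p.map σ) *ᵥ (fun i => σ (w i)) = fun i => σ (w i) := by
    intro σ
    ext i
    have h1 : ∑ k, p i k * p k j0 = p i j0 := by
      have := congrFun (congrFun hpp i) j0
      rwa [Matrix.mul_apply] at this
    have h2 := congrArg σ h1
    rw [map_sum] at h2
    simp only [map_mul] at h2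
    exact h2
  have hwne : ∀ σ : ℂ ≃ₐ[ℚ] ℂ, (fun i => σ (w i)) ≠ 0 := by
    intro σ h
    apply hj0
    ext i
    have h1 := congrFun h i
    exact (map_eq_zero σ).1 h1
  have hwalg : ∀ (σ : ℂ ≃ₐ[ℚ] ℂ) i, Alg (σ (w i)) := by
    intro σ i
    exact IsAlgebraic.algHom (σ : ℂ →ₐ[ℚ] ℂ) (alg_of_mem hL (hwL i))
  have hex : ∀ σ : ℂ ≃ₐ[ℚ] ℂ, ∃ (P : ℂ) (a : Idx g → ℂ), P ≠ 0 ∧ (∀ j, Alg (a j)) ∧
      A.per *ᵥ (fun i => σ (w i)) = P • a := fun σ =>
    (hPEX g A _ (hCM σ)).1 _ (hwalg σ) (hwne σ) (hpw σ)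
  choose P0 a0 hP0 ha0 hPa using hex
  have hIsPer : ∀ σ : ℂ ≃ₐ[ℚ] ℂ, IsPer A (p.map σ) (P0 σ) := fun σ =>
    ⟨hP0 σ, _, a0 σ, hwalg σ, ha0 σ, hwne σ, hpw σ, hPa σ⟩
  have hpr : ∀ σ : ℂ ≃ₐ[ℚ] ℂ, σ ∈ Psi A p ↔ pr (a0 σ) ≠ 0 := by
    intro σ
    have h1 := (hPHOL g A _ (hCM σ)).2.2.2.1 _ (hwne σ) (hpw σ)
    have h2 : pr (A.per *ᵥ (fun i => σ (w i))) ≠ 0 ↔ pr (a0 σ) ≠ 0 := by
      rw [hPa σ]
      have h3 : pr (P0 σ • a0 σ) = P0 σ • pr (a0 σ) := rfl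
      rw [h3, smul_ne_zero_iff]
      exact ⟨fun h => h.2, fun h => ⟨hP0 σ, h⟩⟩
    exact h1.symm.trans h2
  have hmain : ∀ σ ∈ Psi A p, Alg (P0 σ / θ (Psi A p) σ) :=
    hθ.cmp _ htype g A w P0 a0 hwL hP0 ha0 hPa hpr
  have hin : ∀ σ ∈ Psi A p, ∀ P, IsPer A (p.map σ) P → Alg (P / θ (Psi A p) σ) := by
    intro σ hσ P hP
    have h1 : Alg (P / P0 σ) := (hPEX g A _ (hCM σ)).2.2.1 P (P0 σ) hP (hIsPer σ)
    have h2 := h1.mul (hmain σ hσ)
    have h3 : P / P0 σ * (P0 σ / θ (Psi A p) σ) = P / θ (Psi A p) σ := by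
      have := hP0 σ
      have := hθ.nz _ htype σ
      field_simp
    rw [h3] at h2
    exact h2
  intro σ P hP
  by_cases hσ : σ ∈ Psi A p
  · exact hin σ hσ P hP
  · have hσ' : σ.trans conjE ∈ Psi A p := by
      by_contra h
      exact hσ ((htype.odd σ).2 h)
    have hP' := hIsPer (σ.trans conjE)
    rw [map_trans_conj] at hP'
    have h1 : Alg (P * P0 (σ.trans conjE) / tpi) :=
      (hPEX g A _ (hCM σ)).2.2.2 P _ hP hP'
    have h2 := hmain _ hσ'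
    have h3 := hθ.con _ htype σ
    have h4 := h1.mul ((h3.mul h2).inv)
    have e1 := hθ.nz _ htype σ
    have e2 := hθ.nz _ htype (σ.trans conjE)
    have e3 := hP0 (σ.trans conjE)
    have e4 := tpi_ne_zero
    have h5 : P * P0 (σ.trans conjE) / tpi *
        (θ (Psi A p) σ * θ (Psi A p) (σ.trans conjE) / tpi *
          (P0 (σ.trans conjE) / θ (Psi A p) (σ.trans conjE)))⁻¹ = P / θ (Psi A p) σ := by
      field_simp
    rw [h5] at h4
    exact h4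

end

end Pool.Agent.SPG
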